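import Mathlib

/-!
# Returns at times in a Bohr set

Let `U` be a contraction of a complex Hilbert space which has no eigenvalues of modulus one except
`1`, and let the projection of `v` to the fixed vectors be nonzero. Then `⟨v, U^k v⟩ ≠ 0` for
arbitrarily large times `k` for which the numbers `μ_j^k` are close to `μ_j`, for given numbers `μ_j` of
modulus one.
-/

set_option autoImplicit false
set_option linter.unusedSectionVars false

open Filter Set Topology ComplexConjugate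

namespace Pool.Agent.Helper36x.HC

/-- `(1/n) ∑_{k<n} p(k) c^k a(k) → 0` for all `c` of modulus one. -/
def Good (a : ℕ → ℂ) (p : ℕ → ℂ) : Prop :=
  ∀ c : ℂ, ‖c‖ = 1 →
    Tendsto (fun n : ℕ => (n : ℂ)⁻¹ * ∑ k ∈ Finset.range n, p k * c ^ k * a k) atTop (𝓝 0)

theorem Good.add {a p q : ℕ → ℂ} (hp : Good a p) (hq : Good a q) :
    Good a (fun k => p k + q k) := by
  intro c hc
  have h := (hp c hc).add (hq c hc)
  rw [add_zero] at h
  refine h.congr fun n => ?_
  rw [← mul_add, ← Finset.sum_add_distrib]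
  congr 1
  exact Finset.sum_congr rfl fun k _ => by ring

theorem Good.smul {a p : ℕ → ℂ} (hp : Good a p) (b : ℂ) : Good a (fun k => b * p k) := by
  intro c hc
  have h := (hp c hc).const_mul b
  rw [mul_zero] at h
  refine h.congr fun n => ?_
  rw [mul_left_comm, Finset.mul_sum]
  congr 1
  exact Finset.sum_congr rfl fun k _ => by ring

theorem Good.char {a p : ℕ → ℂ} (hp : Good a p) {ω : ℂ} (hω : ‖ω‖ = 1) :
    Good a (fun k => ω ^ k * p k) := by
  intro c hc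
  have h := hp (ω * c) (by rw [norm_mul, hω, hc, one_mul])
  refine h.congr fun n => ?_
  congr 1
  exact Finset.sum_congr rfl fun k _ => by rw [mul_pow]; ring

/-- the basic weight -/
noncomputable def wt (μ : ℂ) (k : ℕ) : ℝ := (1 + (μ ^ k * conj μ).re) / 2

theorem wt_eq (μ : ℂ) (k : ℕ) :
    ((wt μ k : ℝ) : ℂ) = 1 / 2 + conj μ / 4 * μ ^ k + μ / 4 * (conj μ) ^ k := by
  unfold wt
  push_cast
  rw [Complex.re_eq_add_conj, map_mul, map_pow, Complex.conj_conj]
  ring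

theorem wt_nonneg (μ : ℂ) (hμ : ‖μ‖ = 1) (k : ℕ) : 0 ≤ wt μ k := by
  have h1 : |(μ ^ k * conj μ).re| ≤ ‖μ ^ k * conj μ‖ := Complex.abs_re_le_norm _
  rw [norm_mul, norm_pow, hμ, one_pow, Complex.norm_conj, hμ, one_mul] at h1
  have := (abs_le.1 h1).1
  unfold wt
  linarith

theorem wt_le (μ : ℂ) (hμ : ‖μ‖ = 1) (k : ℕ) : wt μ k ≤ 1 := by
  have h1 : |(μ ^ k * conj μ).re| ≤ ‖μ ^ k * conj μ‖ := Complex.abs_re_le_norm _
  rw [norm_mul, norm_pow, hμ, one_pow, Complex.norm_conj, hμ, one_mul] at h1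
  have := (abs_le.1 h1).2
  unfold wt
  linarith

/-- `‖μ^k - μ‖² = 4 (1 - wt μ k)` -/
theorem wt_dist (μ : ℂ) (hμ : ‖μ‖ = 1) (k : ℕ) : ‖μ ^ k - μ‖ ^ 2 = 4 * (1 - wt μ k) := by
  have h1 : ‖μ ^ k‖ = 1 := by rw [norm_pow, hμ, one_pow]
  have h2 : ‖μ ^ k - μ‖ ^ 2 = ‖μ ^ k‖ ^ 2 + ‖μ‖ ^ 2 - 2 * (μ ^ k * conj μ).re := by
    rw [Complex.sq_norm, Complex.sq_norm, Complex.sq_norm, Complex.normSq_sub]
  rw [h2, h1, hμ]
  unfold wt
  ring

theorem Good.wt {a p : ℕ → ℂ} (hp : Good a p) {μ : ℂ} (hμ : ‖μ‖ = 1) :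
    Good a (fun k => ((HC.wt μ k : ℝ) : ℂ) * p k) := by
  have hμ' : ‖conj μ‖ = 1 := by rw [Complex.norm_conj, hμ]
  have h := ((hp.smul (1 / 2)).add ((hp.char hμ).smul (conj μ / 4))).add
    ((hp.char hμ').smul (μ / 4))
  have e : (fun k => ((HC.wt μ k : ℝ) : ℂ) * p k) = fun k =>
      1 / 2 * p k + conj μ / 4 * (μ ^ k * p k) + μ / 4 * (conj μ ^ k * p k) := by
    funext k
    rw [wt_eq μ]
    ring
  rw [e]
  exact h

/-- the product of the weights -/
noncomputable def wts {r : ℕ} (μ : Fin r → ℂ) (k : ℕ) : ℝ := ∏ j, wt (μ j) k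

theorem Good.prod {a p : ℕ → ℂ} (hp : Good a p) {r : ℕ} (μ : Fin r → ℂ) (hμ : ∀ j, ‖μ j‖ = 1) :
    Good a (fun k => ((wts μ k : ℝ) : ℂ) * p k) := by
  have key : ∀ s : Finset (Fin r), Good a (fun k => ((∏ j ∈ s, HC.wt (μ j) k : ℝ) : ℂ) * p k) := by
    intro s
    induction s using Finset.induction_on with
    | empty => simpa using hp
    | insert j s hj ih =>
      have h := ih.wt (hμ j)
      have e : (fun k => ((∏ i ∈ insert j s, HC.wt (μ i) k : ℝ) : ℂ) * p k) =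
          fun k => ((HC.wt (μ j) k : ℝ) : ℂ) * (((∏ i ∈ s, HC.wt (μ i) k : ℝ) : ℂ) * p k) := by
        funext k
        rw [Finset.prod_insert hj]
        push_cast
        ring
      rw [e]
      exact h
  exact key Finset.univ

theorem Good.pow {a : ℕ → ℂ} (h1 : Good a (fun _ => 1)) {r : ℕ} (μ : Fin r → ℂ)
    (hμ : ∀ j, ‖μ j‖ = 1) (M : ℕ) : Good a (fun k => (((wts μ k) ^ M : ℝ) : ℂ)) := by
  induction M with
  | zero => simpa using h1
  | succ M ih =>
    have h := ih.prod μ hμ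
    have e : (fun k => (((wts μ k) ^ (M + 1) : ℝ) : ℂ)) =
        fun k => ((wts μ k : ℝ) : ℂ) * (((wts μ k) ^ M : ℝ) : ℂ) := by
      funext k
      push_cast
      ring
    rw [e]
    exact h

/-- syndetic returns of a rotation of a torus -/
theorem synd {r : ℕ} (μ : Fin r → ℂ) (hμ : ∀ j, ‖μ j‖ = 1) (δ : ℝ) (hδ : 0 < δ) :
    ∃ p : ℕ, ∀ m : ℕ, ∃ k, m ≤ k ∧ k ≤ m + p ∧ ∀ j, ‖μ j ^ k - μ j‖ < δ := by
  let x : ℕ → (Fin r → ℂ) := fun k j => μ j ^ k
  have hb : TotallyBounded (range x) := by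
    refine (isCompact_closedBall (0 : Fin r → ℂ) 1).totallyBounded.subset ?_
    rintro _ ⟨k, rfl⟩
    rw [Metric.mem_closedBall, dist_zero_right, pi_norm_le_iff_of_nonneg zero_le_one]
    intro j
    show ‖μ j ^ k‖ ≤ 1
    rw [norm_pow, hμ, one_pow]
  obtain ⟨t, ht, htf, hcov⟩ := Metric.finite_approx_of_totallyBounded hb δ hδ
  -- the times
  have hs : ∀ y : t, ∃ k : ℕ, x k = y := fun y => ht y.2
  choose s hs using hs
  have := htf.fintype
  obtain ⟨S, hS⟩ : ∃ S, ∀ y : t, s y ≤ S := by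
    refine ⟨Finset.univ.sup s, fun y => Finset.le_sup (f := s) (Finset.mem_univ y)⟩
  refine ⟨S + 1, fun m => ?_⟩
  obtain ⟨y, hy, hky⟩ := mem_iUnion₂.1 (hcov (mem_range_self (m + S)))
  have h1 := hs ⟨y, hy⟩
  have h2 := hS ⟨y, hy⟩
  obtain ⟨q, hq⟩ : ∃ q, q = s ⟨y, hy⟩ := ⟨_, rfl⟩
  rw [← hq] at h1 h2
  refine ⟨m + S - q + 1, by omega, by omega, fun j => ?_⟩
  rw [Metric.mem_ball, ← show x q = y from h1, dist_eq_norm] at hky
  have h3 : ‖μ j ^ (m + S) - μ j ^ q‖ < δ := by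
    refine lt_of_le_of_lt ?_ hky
    exact norm_le_pi_norm (x (m + S) - x q) j
  have h4 : μ j ^ (m + S) - μ j ^ q = μ j ^ q * (μ j ^ (m + S - q) - 1) := by
    rw [mul_sub, mul_one, ← pow_add, Nat.add_sub_cancel' (by omega)]
  rw [h4, norm_mul, norm_pow, hμ, one_pow, one_mul] at h3
  have h5 : μ j ^ (m + S - q + 1) - μ j = μ j * (μ j ^ (m + S - q) - 1) := by
    rw [pow_succ]
    ring
  rw [h5, norm_mul, hμ, one_mul]
  exact h3

theorem wts_nonneg {r : ℕ} (μ : Fin r → ℂ) (hμ : ∀ j, ‖μ j‖ = 1) (k : ℕ) : 0 ≤ wts μ k :=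
  Finset.prod_nonneg fun j _ => wt_nonneg _ (hμ j) k

theorem wts_le {r : ℕ} (μ : Fin r → ℂ) (hμ : ∀ j, ‖μ j‖ = 1) (k : ℕ) : wts μ k ≤ 1 :=
  Finset.prod_le_one (fun j _ => wt_nonneg _ (hμ j) k) fun j _ => wt_le _ (hμ j) k

theorem wts_le_wt {r : ℕ} (μ : Fin r → ℂ) (hμ : ∀ j, ‖μ j‖ = 1) (k : ℕ) (j : Fin r) :
    wts μ k ≤ wt (μ j) k := by
  unfold wts
  rw [← Finset.mul_prod_erase _ _ (Finset.mem_univ j)]
  have h1 : ∏ i ∈ Finset.univ.erase j, wt (μ i) k ≤ 1 :=
    Finset.prod_le_one (fun i _ => wt_nonneg _ (hμ i) k) fun i _ => wt_le _ (hμ i) k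
  exact mul_le_of_le_one_right (wt_nonneg _ (hμ j) k) h1

/-- the set of good times has positive lower density, for the weights -/
theorem wts_sum {r : ℕ} (μ : Fin r → ℂ) (hμ : ∀ j, ‖μ j‖ = 1) (η : ℝ) (hη : 0 < η)
    (hη1 : η ≤ 1) :
    ∃ p : ℕ, 1 ≤ p ∧ ∀ M i : ℕ, (i : ℝ) * (1 - η) ^ M ≤
      ∑ k ∈ Finset.range (i * p), wts μ k ^ M := by
  obtain ⟨δ, hδ, hδη⟩ : ∃ δ : ℝ, 0 < δ ∧ r * (δ ^ 2 / 4) ≤ η ∧ δ ^ 2 / 4 ≤ 1 := by
    refine ⟨Real.sqrt (4 * η / (r + 1)), Real.sqrt_pos.2 (by positivity), ?_, ?_⟩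
    · rw [Real.sq_sqrt (by positivity)]
      rw [show (r : ℝ) * (4 * η / (r + 1) / 4) = r / (r + 1) * η by ring]
      have : (r : ℝ) / (r + 1) ≤ 1 := by
        rw [div_le_one (by positivity)]
        linarith
      nlinarith
    · rw [Real.sq_sqrt (by positivity)]
      rw [show 4 * η / (r + 1) / 4 = η / ((r : ℝ) + 1) by ring, div_le_one (by positivity)]
      have : (0 : ℝ) ≤ r := Nat.cast_nonneg r
      linarith
  obtain ⟨hδη, hδ1⟩ := hδη
  obtain ⟨p, hp⟩ := synd μ hμ δ hδ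
  have hgood : ∀ k, (∀ j, ‖μ j ^ k - μ j‖ < δ) → 1 - η ≤ wts μ k := by
    intro k hk
    have h1 : ∀ j, 1 - δ ^ 2 / 4 ≤ wt (μ j) k := by
      intro j
      have h2 := wt_dist (μ j) (hμ j) k
      have h3 : ‖μ j ^ k - μ j‖ ^ 2 ≤ δ ^ 2 := by
        have := hk j
        have h4 := norm_nonneg (μ j ^ k - μ j)
        nlinarith
      linarith
    have h2 : ∏ _j : Fin r, (1 - δ ^ 2 / 4) ≤ wts μ k :=
      Finset.prod_le_prod (fun _ _ => by linarith) fun j _ => h1 j
    rw [Finset.prod_const, Finset.card_univ, Fintype.card_fin] at h2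
    have h3 : 1 + (r : ℝ) * (-(δ ^ 2 / 4)) ≤ (1 + -(δ ^ 2 / 4)) ^ r :=
      one_add_mul_le_pow (by linarith) r
    have h4 : (1 + -(δ ^ 2 / 4)) ^ r = (1 - δ ^ 2 / 4) ^ r := by ring
    rw [h4] at h3
    linarith
  refine ⟨p + 1, by omega, fun M i => ?_⟩
  induction i with
  | zero => simp
  | succ i ih =>
    rw [Nat.succ_mul, Finset.sum_range_add]
    have h1 : (1 - η) ^ M ≤ ∑ x ∈ Finset.range (p + 1), wts μ (i * (p + 1) + x) ^ M := by
      obtain ⟨k, hk1, hk2, hk⟩ := hp (i * (p + 1))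
      obtain ⟨x, hx⟩ : ∃ x, k = i * (p + 1) + x := ⟨k - i * (p + 1), by omega⟩
      have hxp : x ∈ Finset.range (p + 1) := by
        rw [Finset.mem_range]
        omega
      have h2 : wts μ (i * (p + 1) + x) ^ M ≤
          ∑ x ∈ Finset.range (p + 1), wts μ (i * (p + 1) + x) ^ M :=
        Finset.single_le_sum (f := fun x => wts μ (i * (p + 1) + x) ^ M)
          (fun _ _ => pow_nonneg (wts_nonneg μ hμ _) M) hxp
      refine le_trans ?_ h2
      rw [← hx]
      exact pow_le_pow_left₀ (by linarith) (hgood k hk) M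
    push_cast
    linarith

/-- **Returns at good times**: numerical version. -/
theorem bohr_num {a : ℕ → ℂ} {α B : ℝ} (hα : 0 < α) (hB : ∀ k, ‖a k‖ ≤ B)
    (ha : Good (fun k => a k - α) (fun _ => 1)) {r : ℕ} (μ : Fin r → ℂ) (hμ : ∀ j, ‖μ j‖ = 1)
    (δ : ℝ) (hδ : 0 < δ) (K : ℕ) : ∃ k, K ≤ k ∧ (∀ j, ‖μ j ^ k - μ j‖ < δ) ∧ a k ≠ 0 := by
  by_contra hcon
  push Not at hcon
  have hB0 : 0 ≤ B := (norm_nonneg _).trans (hB 0)
  -- the bad times have small weights
  obtain ⟨η, hη, hη1, hηδ⟩ : ∃ η : ℝ, 0 < η ∧ η ≤ 1 ∧ 4 * η ≤ δ ^ 2 :=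
    ⟨min 1 (δ ^ 2 / 4), by positivity, min_le_left _ _, by
      have := min_le_right 1 (δ ^ 2 / 4)
      linarith⟩
  have hbad : ∀ k, K ≤ k → a k ≠ 0 → wts μ k ≤ 1 - η := by
    intro k hk hak
    by_contra hlt
    push Not at hlt
    apply hak
    apply hcon k hk
    intro j
    have h1 := wts_le_wt μ hμ k j
    have h2 := wt_dist (μ j) (hμ j) k
    have h3 : ‖μ j ^ k - μ j‖ ^ 2 < δ ^ 2 := by linarith
    exact lt_of_pow_lt_pow_left₀ 2 hδ.le h3
  obtain ⟨p, hp1, hp⟩ := wts_sum μ hμ (η / 2) (by positivity) (by linarith)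
  have hpr : (1 : ℝ) ≤ p := by exact_mod_cast hp1
  -- the inequality in the limit
  have key : ∀ M : ℕ, α * (1 - η / 2) ^ M / p ≤ (1 - η) ^ M * B := by
    intro M
    have hgood := (ha.pow μ hμ M) 1 (by simp)
    have hT : Tendsto (fun i : ℕ => (i + 1) * p) atTop atTop := by
      refine tendsto_atTop_mono (fun i => ?_) tendsto_id
      exact (Nat.le_succ i).trans (Nat.le_mul_of_pos_right _ hp1)
    have h1 := hgood.comp hT
    have h2 := (Complex.continuous_re.tendsto 0).comp h1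
    rw [Complex.zero_re] at h2
    have h3 : Tendsto (fun i : ℕ => (K : ℝ) * B / (((i : ℝ) + 1) * p)) atTop (𝓝 0) := by
      have h4 := (tendsto_one_div_add_atTop_nhds_zero_nat (𝕜 := ℝ)).mul_const ((K : ℝ) * B / p)
      rw [zero_mul] at h4
      refine h4.congr fun i => ?_
      field_simp
    have h5 : Tendsto (fun i : ℕ => (K : ℝ) * B / (((i : ℝ) + 1) * p) + (1 - η) ^ M * B -
        (((fun n : ℕ => (n : ℂ)⁻¹ * ∑ k ∈ Finset.range n,
          (((wts μ k) ^ M : ℝ) : ℂ) * 1 ^ k * (a k - α)) ∘ (fun i : ℕ => (i + 1) * p)) i).re)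
        atTop (𝓝 (0 + (1 - η) ^ M * B - 0)) := (h3.add_const _).sub h2
    rw [zero_add, sub_zero] at h5
    refine ge_of_tendsto' h5 fun i => ?_
    obtain ⟨n, hn⟩ : ∃ n, n = (i + 1) * p := ⟨_, rfl⟩
    have hnr : (n : ℝ) = ((i : ℝ) + 1) * p := by rw [hn]; push_cast; ring
    have hn0 : (0 : ℝ) < n := by rw [hnr]; positivity
    have e1 : (((fun n : ℕ => (n : ℂ)⁻¹ * ∑ k ∈ Finset.range n,
          (((wts μ k) ^ M : ℝ) : ℂ) * 1 ^ k * (a k - α)) ∘ (fun i : ℕ => (i + 1) * p)) i).re =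
        (n : ℝ)⁻¹ * ∑ k ∈ Finset.range n, wts μ k ^ M * ((a k).re - α) := by
      show ((((i + 1) * p : ℕ) : ℂ)⁻¹ * ∑ k ∈ Finset.range ((i + 1) * p),
          (((wts μ k) ^ M : ℝ) : ℂ) * 1 ^ k * (a k - α)).re = _
      rw [← hn, ← Complex.ofReal_natCast, ← Complex.ofReal_inv, Complex.re_ofReal_mul,
        Complex.re_sum]
      congr 1
      refine Finset.sum_congr rfl fun k _ => ?_
      rw [one_pow, mul_one, Complex.re_ofReal_mul, Complex.sub_re, Complex.ofReal_re]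
    rw [e1]
    have h6 := hp M (i + 1)
    rw [← hn] at h6
    -- upper bound for the sum with `a`
    have h7 : ∑ k ∈ Finset.range n, wts μ k ^ M * (a k).re ≤ K * B + n * ((1 - η) ^ M * B) := by
      have h8 : ∀ k ∈ Finset.range n, wts μ k ^ M * (a k).re ≤
          (if k < K then B else 0) + (1 - η) ^ M * B := by
        intro k _
        have hw0 := wts_nonneg μ hμ k
        have hw1 := wts_le μ hμ k
        have hre : (a k).re ≤ B := (Complex.re_le_norm _).trans (hB k)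
        have hη0 : 0 ≤ (1 - η) ^ M * B := mul_nonneg (pow_nonneg (by linarith) _) hB0
        split_ifs with hkK
        · have h9 : wts μ k ^ M * (a k).re ≤ wts μ k ^ M * B :=
            mul_le_mul_of_nonneg_left hre (pow_nonneg hw0 _)
          have h10 : wts μ k ^ M * B ≤ 1 * B :=
            mul_le_mul_of_nonneg_right (pow_le_one₀ hw0 hw1) hB0
          linarith
        · by_cases hak : a k = 0
          · rw [hak, Complex.zero_re, mul_zero, zero_add]
            exact hη0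
          · have h9 := hbad k (not_lt.1 hkK) hak
            rw [zero_add]
            calc wts μ k ^ M * (a k).re ≤ wts μ k ^ M * B :=
                  mul_le_mul_of_nonneg_left hre (pow_nonneg hw0 _)
              _ ≤ (1 - η) ^ M * B := mul_le_mul_of_nonneg_right (pow_le_pow_left₀ hw0 h9 M) hB0
      refine (Finset.sum_le_sum h8).trans ?_
      rw [Finset.sum_add_distrib, Finset.sum_const, Finset.card_range, nsmul_eq_mul]
      have h10 : ∑ k ∈ Finset.range n, (if k < K then B else 0) ≤ K * B := by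
        rw [← Finset.sum_filter, Finset.sum_const, nsmul_eq_mul]
        refine mul_le_mul_of_nonneg_right ?_ hB0
        have h11 : ((Finset.range n).filter (fun k => k < K)).card ≤ (Finset.range K).card := by
          apply Finset.card_le_card
          intro k hk
          rw [Finset.mem_filter] at hk
          exact Finset.mem_range.2 hk.2
        rw [Finset.card_range] at h11
        exact_mod_cast h11
      linarith
    have h12 : ∑ k ∈ Finset.range n, wts μ k ^ M * ((a k).re - α) =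
        ∑ k ∈ Finset.range n, wts μ k ^ M * (a k).re - α * ∑ k ∈ Finset.range n, wts μ k ^ M := by
      rw [Finset.mul_sum, ← Finset.sum_sub_distrib]
      exact Finset.sum_congr rfl fun k _ => by ring
    rw [h12, ← hnr]
    push_cast at h6
    have h13 : α * (((i : ℝ) + 1) * (1 - η / 2) ^ M) ≤ α * ∑ k ∈ Finset.range n, wts μ k ^ M :=
      mul_le_mul_of_nonneg_left h6 hα.le
    have h14 : (n : ℝ)⁻¹ * (∑ k ∈ Finset.range n, wts μ k ^ M * (a k).re -
        α * ∑ k ∈ Finset.range n, wts μ k ^ M) ≤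
        (n : ℝ)⁻¹ * (K * B + n * ((1 - η) ^ M * B) - α * (((i : ℝ) + 1) * (1 - η / 2) ^ M)) := by
      gcongr
    have h15 : (n : ℝ)⁻¹ * (K * B + n * ((1 - η) ^ M * B) -
        α * (((i : ℝ) + 1) * (1 - η / 2) ^ M)) = K * B / n + (1 - η) ^ M * B -
        α * (1 - η / 2) ^ M / p := by
      rw [hnr]
      field_simp
    linarith
  -- contradiction for large `M`
  have hq : Tendsto (fun M : ℕ => ((1 - η) / (1 - η / 2)) ^ M * (B * p)) atTop (𝓝 0) := by
    have h1 : (1 - η) / (1 - η / 2) < 1 := by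
      rw [div_lt_one (by linarith)]
      linarith
    have h2 : 0 ≤ (1 - η) / (1 - η / 2) := div_nonneg (by linarith) (by linarith)
    have h3 := (tendsto_pow_atTop_nhds_zero_of_lt_one h2 h1).mul_const (B * p)
    rwa [zero_mul] at h3
  obtain ⟨M, hM⟩ := (hq.eventually (gt_mem_nhds hα)).exists
  have h1 := key M
  have h2 : 0 < (1 - η / 2) ^ M := pow_pos (by linarith) M
  rw [div_le_iff₀ (by linarith)] at h1
  rw [div_pow, div_mul_eq_mul_div, div_lt_iff₀ h2] at hM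
  nlinarith

end Pool.Agent.Helper36x.HC
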