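import Pool.Agent.Helper36x.HC.Main

/-!
# Nonwandering points, mixing points
-/

set_option autoImplicit false
set_option linter.unusedSectionVars false

open scoped Manifold ContDiff Topology NNReal
open Filter Set Metric

universe u

namespace Pool.Agent.Helper36x.HC

open Pool.Agent.H718R2.G Pool.Agent.W564.SC Pool.Agent.TH382.QC Pool.Agent.E8helper46.FL
  Pool.Agent.TH80.CLX

section group

variable {A : Type} [NormedRing A] [NormedAlgebra ℝ A] [FiniteDimensional ℝ A] [CompleteSpace A]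
  {D : Subgroup Aˣ} {hD : IsClosed (D : Set Aˣ)} {φ : D →* D}

theorem firstCountable_D (D : Subgroup Aˣ) : FirstCountableTopology D := by
  have h1 := (Units.isOpenEmbedding_val (R := A)).isInducing
  have h2 : Topology.IsInducing (fun g : D => ((g : Aˣ) : A)) :=
    h1.comp Topology.IsInducing.subtypeVal
  exact h2.firstCountableTopology

/-- If the linear part is hyperbolic modulo its fixed points, all sequences of times are good. -/
theorem HypMod.solvable (h : HypMod D hD φ) {k : ℕ → ℕ} (hk : Tendsto k atTop atTop) :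
    SolvableAlong D hD φ k := by
  obtain ⟨L, hL, h⟩ := h
  refine ⟨L, hL, fun X => ?_⟩
  obtain ⟨X₀, X₁, X₂, e, h0, h1, h2⟩ := h X
  refine ⟨X₀, X₁, 0, X₂, 0, ?_, h0, h1.comp hk, h2.comp hk⟩
  rw [sub_zero, sub_zero]
  exact e

/-- The endomorphism `φ` of `D` is semisimple in the directions of the eigenvalues of modulus one:
`φ (exp X) = exp (L X)` for a linear automorphism `L` of the Lie algebra, and every `X` in the Lie
algebra is a sum of a fixed point of `L`, a vector `X₁` with `L^k X₁ → 0`, a vector `X₂` with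
`L^(-k) X₂ → 0`, and a vector `X₃ - L X₃` such that the vectors `L^k X₃`, `k ∈ ℤ`, are bounded. -/
def SemiMod (D : Subgroup Aˣ) (hD : IsClosed (D : Set Aˣ)) (φ : D →* D) : Prop :=
  ∃ L : lieAlg D hD ≃ₗ[ℝ] lieAlg D hD, (∀ X, φ (expD X) = expD (L X)) ∧
    ∀ X, ∃ X₀ X₁ X₂ X₃ : lieAlg D hD, X = X₀ + X₁ + X₂ + (X₃ - L X₃) ∧ L X₀ = X₀ ∧
      Tendsto (fun k : ℕ => L^[k] X₁) atTop (𝓝 0) ∧
      Tendsto (fun k : ℕ => L.symm^[k] X₂) atTop (𝓝 0) ∧
      ∃ C : ℝ, ∀ k : ℕ, ‖L^[k] X₃‖ ≤ C ∧ ‖L.symm^[k] X₃‖ ≤ C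

end group

section linear

variable {E : Type*} [NormedAddCommGroup E] [NormedSpace ℝ E] [FiniteDimensional ℝ E]

/-- the vectors with bounded two-sided orbit -/
def bdd (M : E ≃ₗ[ℝ] E) : Submodule ℝ E where
  carrier := {X | ∃ C : ℝ, ∀ k : ℕ, ‖M^[k] X‖ ≤ C ∧ ‖M.symm^[k] X‖ ≤ C}
  zero_mem' := ⟨0, fun k => by simp only [itzero, norm_zero]; exact ⟨le_rfl, le_rfl⟩⟩
  add_mem' := by
    rintro X Y ⟨C, hC⟩ ⟨C', hC'⟩
    refine ⟨C + C', fun k => ?_⟩
    simp only [itadd]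
    exact ⟨(norm_add_le _ _).trans (add_le_add (hC k).1 (hC' k).1),
      (norm_add_le _ _).trans (add_le_add (hC k).2 (hC' k).2)⟩
  smul_mem' := by
    rintro c X ⟨C, hC⟩
    refine ⟨|c| * C, fun k => ?_⟩
    simp only [itsmul, norm_smul, Real.norm_eq_abs]
    exact ⟨mul_le_mul_of_nonneg_left (hC k).1 (abs_nonneg c),
      mul_le_mul_of_nonneg_left (hC k).2 (abs_nonneg c)⟩

theorem bdd_map (M : E ≃ₗ[ℝ] E) {X : E} (hX : X ∈ bdd M) : M X ∈ bdd M := by
  obtain ⟨C, hC⟩ := hX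
  refine ⟨C, fun k => ⟨?_, ?_⟩⟩
  · exact (hC (k + 1)).1
  · rcases k with _ | k
    · exact (hC 1).1
    · rw [Function.iterate_succ_apply, M.symm_apply_apply]
      exact (hC k).2

theorem bdd_iter (M : E ≃ₗ[ℝ] E) {X : E} (hX : X ∈ bdd M) (k : ℕ) : M^[k] X ∈ bdd M := by
  induction k with
  | zero => exact hX
  | succ k ih =>
    rw [Function.iterate_succ_apply']
    exact bdd_map M ih

/-- the iterates on the vectors with bounded orbits -/
noncomputable def opb (M : E ≃ₗ[ℝ] E) (M' : E ≃ₗ[ℝ] E) (k : ℕ) : bdd M →L[ℝ] E :=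
  LinearMap.toContinuousLinearMap
    { toFun := fun X => M'^[k] (X : E)
      map_add' := fun X Y => itadd M' k X Y
      map_smul' := fun c X => itsmul M' k c X }

theorem opb_apply (M M' : E ≃ₗ[ℝ] E) (k : ℕ) (X : bdd M) : opb M M' k X = M'^[k] (X : E) := rfl

theorem close_pair {G : Type*} [NormedAddCommGroup G] [NormedSpace ℝ G] [FiniteDimensional ℝ G]
    (u : ℕ → G) (C : ℝ) (hC : ∀ k, ‖u k‖ ≤ C) (ε : ℝ) (hε : 0 < ε) (K : ℕ) :
    ∃ a b : ℕ, a + K ≤ b ∧ ‖u b - u a‖ < ε := by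
  have : ProperSpace G := FiniteDimensional.proper ℝ G
  obtain ⟨R, -, ψ, hψ, hR⟩ := tendsto_subseq_of_bounded
    (Metric.isBounded_closedBall (x := (0 : G)) (r := C)) (x := u)
    (fun k => by rw [mem_closedBall, dist_zero_right]; exact hC k)
  have hCau := hR.cauchySeq
  rw [Metric.cauchySeq_iff] at hCau
  obtain ⟨I, hI⟩ := hCau ε hε
  refine ⟨ψ I, ψ (max I (ψ I + K)), (le_max_right I (ψ I + K)).trans (hψ.id_le _), ?_⟩
  have h1 := hI (max I (ψ I + K)) (le_max_left _ _) I le_rfl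
  rwa [dist_eq_norm] at h1

/-- On the vectors with bounded orbits the iterates return to the identity. -/
theorem exists_return (M : E ≃ₗ[ℝ] E) (ε : ℝ) (hε : 0 < ε) (K : ℕ) :
    ∃ p : ℕ, K ≤ p ∧ ∀ X ∈ bdd M, ‖M^[p] X - X‖ ≤ ε * ‖X‖ := by
  have : CompleteSpace (bdd M) := FiniteDimensional.complete ℝ _
  obtain ⟨C, hC⟩ := banach_steinhaus (g := fun k => opb M M k) (fun X => by
    obtain ⟨C, hC⟩ := X.2
    exact ⟨C, fun k => (hC k).1⟩)
  obtain ⟨C', hC'⟩ := banach_steinhaus (g := fun k => opb M M.symm k) (fun X => by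
    obtain ⟨C, hC⟩ := X.2
    exact ⟨C, fun k => (hC k).2⟩)
  have hC'0 : 0 ≤ C' := (norm_nonneg _).trans (hC' 0)
  obtain ⟨a, b, hab, h1⟩ := close_pair (fun k => opb M M k) C hC (ε / (C' + 1)) (by positivity) K
  refine ⟨b - a, by omega, fun X hX => ?_⟩
  have hZ : M^[b - a] X - X ∈ bdd M := (bdd M).sub_mem (bdd_iter M hX _) hX
  have h2 : (opb M M b - opb M M a) ⟨X, hX⟩ = M^[a] (M^[b - a] X - X) := by
    rw [sub_apply, opb_apply, opb_apply]
    have h3 : M^[a] (M^[b - a] X - X) = M^[a] (M^[b - a] X) - M^[a] X := by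
      rw [sub_eq_add_neg, itadd, ← neg_one_smul ℝ X, itsmul, neg_one_smul, ← sub_eq_add_neg]
    rw [h3, ← Function.iterate_add_apply, Nat.add_sub_cancel' (by omega)]
  have h4 : M.symm^[a] (M^[a] (M^[b - a] X - X)) = M^[b - a] X - X := by
    have : Function.LeftInverse (M.symm : E → E) M := M.symm_apply_apply
    exact (this.iterate a) _
  have h5 : M^[a] (M^[b - a] X - X) ∈ bdd M := bdd_iter M hZ a
  calc ‖M^[b - a] X - X‖ = ‖opb M M.symm a ⟨_, h5⟩‖ := by rw [opb_apply, h4]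
    _ ≤ ‖opb M M.symm a‖ * ‖(⟨_, h5⟩ : bdd M)‖ := ContinuousLinearMap.le_opNorm _ _
    _ ≤ C' * ‖M^[a] (M^[b - a] X - X)‖ :=
      mul_le_mul_of_nonneg_right (hC' a) (norm_nonneg _)
    _ = C' * ‖(opb M M b - opb M M a) ⟨X, hX⟩‖ := by rw [h2]
    _ ≤ C' * (‖opb M M b - opb M M a‖ * ‖X‖) := by
      exact mul_le_mul_of_nonneg_left (ContinuousLinearMap.le_opNorm _ (⟨X, hX⟩ : bdd M)) hC'0
    _ ≤ (C' + 1) * (ε / (C' + 1) * ‖X‖) :=
      mul_le_mul (by linarith) (mul_le_mul_of_nonneg_right h1.le (norm_nonneg _)) (by positivity)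
        (by positivity)
    _ = ε * ‖X‖ := by field_simp

theorem exists_times (M : E ≃ₗ[ℝ] E) : ∃ k : ℕ → ℕ, Tendsto k atTop atTop ∧ (∀ i, 1 ≤ k i) ∧
    ∀ X ∈ bdd M, Tendsto (fun i => M^[k i] X) atTop (𝓝 (M X)) := by
  have h1 : ∀ i : ℕ, ∃ p : ℕ, i ≤ p ∧ ∀ X ∈ bdd M, ‖M^[p] X - X‖ ≤ 1 / ((i : ℝ) + 1) * ‖X‖ :=
    fun i => exists_return M _ (by positivity) i
  choose p hp hpX using h1
  refine ⟨fun i => p i + 1, ?_, fun i => Nat.le_add_left _ _, fun X hX => ?_⟩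
  · exact tendsto_atTop_mono (fun i => (hp i).trans (Nat.le_succ _)) tendsto_id
  · have h2 : Tendsto (fun i => M^[p i] X) atTop (𝓝 X) := by
      rw [tendsto_iff_norm_sub_tendsto_zero]
      refine squeeze_zero (fun i => norm_nonneg _) (fun i => hpX i X hX) ?_
      have h3 := (tendsto_one_div_add_atTop_nhds_zero_nat (𝕜 := ℝ)).mul_const ‖X‖
      rwa [zero_mul] at h3
    have h4 : Continuous M := LinearMap.continuous_of_finiteDimensional (M : E →ₗ[ℝ] E)
    have h5 := (h4.tendsto X).comp h2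
    refine h5.congr fun i => ?_
    show M (M^[p i] X) = M^[p i + 1] X
    rw [Function.iterate_succ_apply']

end linear

section leaf

variable {A : Type} [NormedRing A] [NormedAlgebra ℝ A] [FiniteDimensional ℝ A] [CompleteSpace A]
  {D : Subgroup Aˣ} {hD : IsClosed (D : Set Aˣ)} {φ : D →* D}

/-- If the linear part is semisimple in the directions of the eigenvalues of modulus one, there are
good times. -/
theorem SemiMod.solvable (h : SemiMod D hD φ) :
    ∃ k : ℕ → ℕ, Tendsto k atTop atTop ∧ (∀ i, 1 ≤ k i) ∧ SolvableAlong D hD φ k := by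
  obtain ⟨L, hL, h⟩ := h
  obtain ⟨k, hk, hk1, hkL⟩ := exists_times L
  refine ⟨k, hk, hk1, L, hL, fun X => ?_⟩
  obtain ⟨X₀, X₁, X₂, X₃, e, h0, h1, h2, h3⟩ := h X
  refine ⟨X₀, X₁ + X₃, 0 + L X₃, X₂, 0, ?_, h0, ?_, h2.comp hk⟩
  · rw [e]
    abel
  · simp only [itadd]
    exact (h1.comp hk).add (hkL X₃ h3)

variable {n : ℕ} {N : Type u} [TopologicalSpace N] [ChartedSpace (V n) N]
  {F : N → N} {O : Set N} {act : D → N → N} {m : ℕ} {z : N}

/-- `z` is topologically mixing for `F^m` in its orbit `D z` (with the topology of the group). -/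
def MixingIn {N : Type u} {D : Subgroup Aˣ} (F : N → N) (act : D → N → N) (m : ℕ) (z : N) :
    Prop :=
  ∀ B ∈ 𝓝 (1 : D), ∀ᶠ k : ℕ in atTop, ∃ b₁ ∈ B, ∃ b₂ ∈ B, F^[m * k] (act b₁ z) = act b₂ z

theorem MixingIn.returns (h : MixingIn F act m z) {k : ℕ → ℕ} (hk : Tendsto k atTop atTop) :
    ReturnsAlong F act m z k := fun B hB => hk.eventually (h B hB)

/-- A nonwandering point is periodic or has near-returns along times `k i → ∞`. -/
theorem NonWandIn.returns [T2Space N] (hact : IsAction n N D O act)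
    (hl : AffineLeaf F O act φ m z) (hF : Continuous F) (h : NonWandIn F act m z)
    (hper : ¬ IsPer F z) :
    ∃ k : ℕ → ℕ, Tendsto k atTop atTop ∧ (∀ i, 1 ≤ k i) ∧ ReturnsAlong F act m z k := by
  have hc := act_cont hact hl.mem
  have hlow : ∀ k : ℕ, 1 ≤ k → ∃ B ∈ 𝓝 (1 : D), ∀ b₁ ∈ B, ∀ b₂ ∈ B,
      F^[m * k] (act b₁ z) ≠ act b₂ z := by
    intro k hk
    have hne : F^[m * k] (act 1 z) ≠ act 1 z := by
      rw [hact.one _ hl.mem]
      intro h
      exact hper ⟨m * k, Nat.mul_pos hl.pos hk, h⟩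
    have h1 : Continuous (fun p : D × D => ((F^[m * k] (act p.1 z), act p.2 z) : N × N)) :=
      ((hF.iterate _).comp (hc.comp continuous_fst)).prodMk (hc.comp continuous_snd)
    have h2 : ∀ᶠ p : D × D in 𝓝 (1, 1), F^[m * k] (act p.1 z) ≠ act p.2 z := by
      have h3 : {q : N × N | q.1 ≠ q.2} ∈ 𝓝 (F^[m * k] (act 1 z), act 1 z) :=
        isClosed_diagonal.isOpen_compl.mem_nhds hne
      exact (h1.tendsto (1, 1)).eventually h3
    rw [nhds_prod_eq] at h2
    obtain ⟨C₁, hC₁, C₂, hC₂, hCC⟩ := Filter.mem_prod_iff.1 h2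
    exact ⟨C₁ ∩ C₂, inter_mem hC₁ hC₂, fun b₁ h1 b₂ h2 =>
      hCC (⟨h1.1, h2.2⟩ : ((b₁, b₂) : D × D) ∈ C₁ ×ˢ C₂)⟩
  choose C hC hCn using hlow
  have hfc := firstCountable_D D
  obtain ⟨B, hB⟩ := (𝓝 (1 : D)).exists_antitone_basis
  have key : ∀ i : ℕ, ∃ k : ℕ, 1 ≤ k ∧ i ≤ k ∧ ∃ b₁ ∈ B i, ∃ b₂ ∈ B i,
      F^[m * k] (act b₁ z) = act b₂ z := by
    intro i
    have hCall : (⋂ k ∈ Finset.range i, if h : 1 ≤ k then C k h else univ) ∈ 𝓝 (1 : D) := by
      rw [Filter.biInter_finset_mem]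
      intro k _
      split_ifs with h
      · exact hC k h
      · exact univ_mem
    obtain ⟨k, hk1, b₁, hb₁, b₂, hb₂, hbb⟩ := h _ (inter_mem (hB.1.mem_of_mem trivial) hCall)
    refine ⟨k, hk1, ?_, b₁, hb₁.1, b₂, hb₂.1, hbb⟩
    by_contra hlt
    push Not at hlt
    have h1 := mem_iInter₂.1 hb₁.2 k (Finset.mem_range.2 hlt)
    have h2 := mem_iInter₂.1 hb₂.2 k (Finset.mem_range.2 hlt)
    rw [dif_pos hk1] at h1 h2
    exact hCn k hk1 b₁ h1 b₂ h2 hbb
  choose k hk1 hik hk using key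
  refine ⟨k, tendsto_atTop_mono hik tendsto_id, hk1, fun W hW => ?_⟩
  filter_upwards [hB.eventually_subset hW] with i hi
  obtain ⟨b₁, hb₁, b₂, hb₂, hbb⟩ := hk i
  exact ⟨b₁, hi hb₁, b₂, hi hb₂, hbb⟩

end leaf

end Pool.Agent.Helper36x.HC
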