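import Pool.Agent.Helper36x.HC.Mat
import Pool.Agent.TH290.CL.Rec

/-!
# Affine maps and translations of homogeneous manifolds
-/

set_option autoImplicit false
set_option linter.unusedSectionVars false

open scoped Manifold ContDiff Topology NNReal
open Filter Set Metric MeasureTheory

universe u

namespace Pool.Agent.Helper36x.HC

open Pool.Agent.H718R2.G Pool.Agent.W564.SC Pool.Agent.TH382.QC Pool.Agent.E8helper46.FL
  Pool.Agent.TH80.CLX

/-- The conclusion of the `C^r` closing lemma at `z`, in the strong `C^r` topology, with small supports: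
for every neighbourhood `W` of `z`, every neighbourhood of `F` in `Diff^r(N)` contains some `G` for which
`z` is periodic and which is equal to `F` outside of `W ∪ F⁻¹(W)`. -/
def LocallyClosable (n : ℕ) (N : Type u) [TopologicalSpace N] [ChartedSpace (V n) N] (r : ℕ∞)
    (F : DiffM n N r) (z : N) : Prop :=
  ∀ W ∈ 𝓝 z, ∀ U : Set (DiffM n N r), IsOpen[strongTop n N r] U → F ∈ U →
    ∃ G ∈ U, IsPer G z ∧ ∀ y, y ∉ W → F y ∉ W → G y = F y

section basic

variable {X : Type*} [TopologicalSpace X]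

/-- `z` is topologically mixing: all large powers of `F` map some points of `W` into `W`, for all
neighbourhoods `W` of `z`. -/
def MixAt (F : X → X) (z : X) : Prop :=
  ∀ W ∈ 𝓝 z, ∀ᶠ k : ℕ in atTop, ∃ y ∈ W, F^[k] y ∈ W

theorem nonWand_of_rec (F : X ≃ₜ X) (x : X) (h : IsRec F x) : NonWand F x := by
  rcases Pool.Agent.TH290.CL.rec_cases F x h with h | h
  · intro W hW
    obtain ⟨k, hk, hkW⟩ := h W hW
    exact ⟨k, hk, x, mem_of_mem_nhds hW, hkW⟩
  · intro W hW
    obtain ⟨k, hk, hkW⟩ := h W hW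
    refine ⟨k, hk, _, hkW, ?_⟩
    have h1 : Function.LeftInverse (F : X → X) F.symm := F.apply_symm_apply
    rw [(h1.iterate k) x]
    exact mem_of_mem_nhds hW

theorem nonWand_of_measure [MeasurableSpace X] [BorelSpace X] {F : X → X} {x : X} (μ : Measure X)
    [IsFiniteMeasure μ] (hF : MeasurePreserving F μ μ) (hx : ∀ W ∈ 𝓝 x, 0 < μ W) :
    NonWand F x := by
  intro W hW
  have h1 : interior W ∈ 𝓝 x := interior_mem_nhds.2 hW
  obtain ⟨y, hy, k, hk, hky⟩ := (hF.conservative).exists_mem_iterate_mem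
    isOpen_interior.measurableSet.nullMeasurableSet (hx _ h1).ne'
  exact ⟨k, Nat.one_le_iff_ne_zero.2 hk, y, interior_subset hy, interior_subset hky⟩

end basic

section leaf

variable {A : Type} [NormedRing A] [NormedAlgebra ℝ A] [FiniteDimensional ℝ A] [CompleteSpace A]
  {D : Subgroup Aˣ} {hD : IsClosed (D : Set Aˣ)} {φ : D →* D}
  {n : ℕ} {N : Type u} [TopologicalSpace N] [T2Space N] [ChartedSpace (V n) N]
  [IsManifold (𝓡 n) ∞ N] {r : ℕ∞} {F : DiffM n N r} {O : Set N} {act : D → N → N} {m : ℕ} {z : N}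

/-- Leaves on which `F^m` is hyperbolic modulo the fixed points of its linear part. -/
theorem leaf_hyp (hact : IsAction n N D O act) (hl : AffineLeaf F O act φ m z)
    (hφ : HypMod D hD φ) (hnw : NonWandIn F act m z) : LocallyClosable n N r F z := by
  intro W hW U hU hFU
  by_cases hper : IsPer F z
  · exact ⟨F, hFU, hper, fun _ _ _ => rfl⟩
  obtain ⟨k, hk, hk1, hret⟩ := hnw.returns hact hl F.continuous hper
  exact local_closing r F z ⟨A, inferInstance, inferInstance, inferInstance, inferInstance, D, hD, O, act, φ, m, k, hact, hl, hk1,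
    hφ.solvable hk, hret⟩ W hW U hU hFU

/-- Leaves on which `F^m` has a semisimple linear part, at mixing points. -/
theorem leaf_semi (hact : IsAction n N D O act) (hl : AffineLeaf F O act φ m z)
    (hφ : SemiMod D hD φ) (hmix : MixingIn F act m z) : LocallyClosable n N r F z := by
  intro W hW U hU hFU
  obtain ⟨k, hk, hk1, hsol⟩ := hφ.solvable
  exact local_closing r F z ⟨A, inferInstance, inferInstance, inferInstance, inferInstance, D, hD, O, act, φ, m, k, hact, hl, hk1, hsol,
    hmix.returns hk⟩ W hW U hU hFU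

/-- **Affine maps of homogeneous manifolds.** The group `D` acts on `N` and the orbit map of `z` is
open at `1`; `F (g z) = φ(g) F(z)`, `F(z) ∈ D z`. -/
theorem homogeneous (hact : IsAction n N D univ act)
    (hopen : ∀ B ∈ 𝓝 (1 : D), (fun g => act g z) '' B ∈ 𝓝 z)
    (hF : ∀ g, F (act g z) = act (φ g) (F z)) (hFz : ∃ g, F z = act g z)
    (h : (HypMod D hD φ ∧ NonWand F z) ∨ (SemiMod D hD φ ∧ MixAt F z)) :
    LocallyClosable n N r F z := by
  have hl : AffineLeaf F univ act φ 1 z :=
    { pos := le_rfl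
      mem := mem_univ _
      ret := hFz
      equi := hF
      away := by
        have e : {y | ∃ i : ℕ, ∃ g : D, 1 ≤ i ∧ i < 1 ∧ F^[i] (act g z) = y} = ∅ := by
          rw [eq_empty_iff_forall_notMem]
          rintro y ⟨i, g, h1, h2, -⟩
          omega
        rw [e, closure_empty]
        exact notMem_empty _ }
  rcases h with ⟨h1, h2⟩ | ⟨h1, h2⟩
  · refine leaf_hyp hact hl h1 fun B hB => ?_
    obtain ⟨k, hk, y, ⟨b₁, hb₁, hy⟩, ⟨b₂, hb₂, hy2⟩⟩ := h2 _ (hopen B hB)
    refine ⟨k, hk, b₁, hb₁, b₂, hb₂, ?_⟩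
    rw [one_mul]
    show F^[k] (act b₁ z) = act b₂ z
    rw [show act b₁ z = y from hy, ← hy2]
  · refine leaf_semi hact hl h1 fun B hB => ?_
    filter_upwards [h2 _ (hopen B hB)] with k hk
    obtain ⟨y, ⟨b₁, hb₁, hy⟩, ⟨b₂, hb₂, hy2⟩⟩ := hk
    refine ⟨b₁, hb₁, b₂, hb₂, ?_⟩
    rw [one_mul]
    show F^[k] (act b₁ z) = act b₂ z
    rw [show act b₁ z = y from hy, ← hy2]

/-- **Translations by diagonalizable elements.** `F y = h y`, where `h` is an element of the closed
linear group `D` which is diagonalizable over `ℂ` with the eigenvalues `lam i`; `z` is nonwandering and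
eigenvalues of the same modulus are equal, or `z` is topologically mixing. -/
theorem translation {d : ℕ} (e : A →ₐ[ℝ] MC d) (he : Function.Injective e)
    (hD : IsClosed (D : Set Aˣ)) (hact : IsAction n N D univ act)
    (hopen : ∀ B ∈ 𝓝 (1 : D), (fun g => act g z) '' B ∈ 𝓝 z)
    (h : D) (P : (MC d)ˣ) (lam : Fin d → ℂ) (hh : DiagBy (e ((h : Aˣ) : A)) P lam)
    (hF : ∀ y, F y = act h y)
    (hz : ((∀ i j, ‖lam i‖ = ‖lam j‖ → lam i = lam j) ∧ NonWand F z) ∨ MixAt F z) :
    LocallyClosable n N r F z := by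
  obtain ⟨c1, c2⟩ := criterion (hD := hD) he hh
  refine homogeneous (hD := hD) (φ := (MulAut.conj h).toMonoidHom) hact hopen (fun g => ?_)
    ⟨h, hF z⟩ ?_
  · rw [hF, hF, ← hact.mul _ _ _ (mem_univ _), ← hact.mul _ _ _ (mem_univ _)]
    congr 1
    show h * g = h * g * h⁻¹ * h
    group
  · rcases hz with ⟨h1, h2⟩ | h1
    · exact Or.inl ⟨c2 h1, h2⟩
    · exact Or.inr ⟨c1, h1⟩

/-- **Limits** (closed manifolds). -/
theorem limits [CompactSpace N] (F : DiffM n N r) (z : N)
    (h : ∀ U : Set (DiffM n N r), IsOpen[strongTop n N r] U → F ∈ U →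
      ∃ F' ∈ U, z ∈ closure {y | IsAffinePt n N F' y}) :
    ClosableAt n N r F z := by
  refine Pool.Agent.TH382.HS.closable_of_limit F z fun U hU hFU => ?_
  obtain ⟨F', hF', hz⟩ := h U hU hFU
  refine ⟨F', hF', closure_mono ?_ hz⟩
  intro y hy V hV hFV
  obtain ⟨G, hG, hper, -⟩ := local_closing r F' y hy univ univ_mem V hV hFV
  exact ⟨G, hG, hper⟩

end leaf

end Pool.Agent.Helper36x.HC
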