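import Pool.Agent.Helper36x.HC.Defs

/-!
# Translations of homogeneous manifolds of finite volume: definitions
-/

set_option autoImplicit false

open scoped Manifold ContDiff Topology
open Filter Set MeasureTheory

universe u

namespace Pool.Agent.Helper36x.HC

open Pool.Agent.H718R2.G Pool.Agent.E8helper46.FL

/-- complex matrices -/
abbrev MC (d : ℕ) := Matrix (Fin d) (Fin d) ℂ

/-- `h = P diag(lam) P⁻¹` -/
def DiagBy {d : ℕ} (h : MC d) (P : (MC d)ˣ) (lam : Fin d → ℂ) : Prop :=
  h = (P : MC d) * Matrix.diagonal lam * ((P⁻¹ : (MC d)ˣ) : MC d)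

/-- The union of the contracting and of the expanding horospherical subgroup of `h`. -/
def Horo {D : Type*} [Group D] [TopologicalSpace D] (h : D) : Set D :=
  {u | Tendsto (fun k : ℕ => h ^ k * u * (h ^ k)⁻¹) atTop (𝓝 1) ∨
    Tendsto (fun k : ℕ => (h ^ k)⁻¹ * u * h ^ k) atTop (𝓝 1)}

/-- Functions which are invariant under the horospherical subgroups of `h` are invariant under `h`. -/
def HoroInv {D : Type*} [Group D] [TopologicalSpace D] {N : Type*} [MeasurableSpace N]
    (act : D → N → N) (μ : Measure N) (h : D) : Prop :=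
  ∀ f : N → ℂ, MemLp f 2 μ → (∀ u ∈ Horo h, f ∘ act u =ᵐ[μ] f) → f ∘ act h =ᵐ[μ] f

section

variable {A : Type} [NormedRing A] [NormedAlgebra ℝ A] [FiniteDimensional ℝ A] [CompleteSpace A]

/-- The element `h` of the linear group `D` is diagonalizable over `ℂ`, with the eigenvalues `lam i`
(in the faithful representation `e`), and (a) eigenvalues of the same modulus are equal, or (b) all
functions in `L²(N, μ)` which are invariant under the contracting and the expanding horospherical
subgroup of `h` are invariant under `h`, or (c) all eigenvalues have modulus one. -/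
def GoodElt {d : ℕ} {D : Subgroup Aˣ} {N : Type*} [MeasurableSpace N] [TopologicalSpace N]
    (act : D → N → N) (μ : Measure N) (e : A →ₐ[ℝ] MC d) (h : D) : Prop :=
  ∃ (P : (MC d)ˣ) (lam : Fin d → ℂ), DiagBy (e ((h : Aˣ) : A)) P lam ∧
    ((∀ i j, ‖lam i‖ = ‖lam j‖ → lam i = lam j) ∨ HoroInv act μ h ∨ ∀ i, ‖lam i‖ = 1)

/-- `N` is a homogeneous manifold of the closed linear group `D`, near `z`, with a finite invariant
Borel measure `μ` which contains `z` in its support: `D` acts smoothly on `N`, the orbit map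
`g ↦ g z` is open at `1`. -/
structure FiniteVolume (n : ℕ) (N : Type u) [TopologicalSpace N] [ChartedSpace (V n) N]
    [MeasurableSpace N] (D : Subgroup Aˣ) (act : D → N → N) (μ : Measure N) (z : N) : Prop where
  closed : IsClosed (D : Set Aˣ)
  action : IsAction n N D univ act
  opn : ∀ B ∈ 𝓝 (1 : D), (fun g => act g z) '' B ∈ 𝓝 z
  finite : IsFiniteMeasure μ
  reg : μ.InnerRegularCompactLTTop
  inv : ∀ g, MeasurePreserving (act g) μ μ
  supp : ∀ W ∈ 𝓝 z, 0 < μ W

end

section sl

variable {A : Type} [NormedRing A] [NormedAlgebra ℝ A] [FiniteDimensional ℝ A] [CompleteSpace A]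
  {K : Type} [Field K] [Algebra ℝ K] {d : ℕ}

/-- the complex representation of `A = M_d(K)`, `ℝ ⊆ K ⊆ ℂ` -/
noncomputable def repC (ι : K →ₐ[ℝ] ℂ) (E : A ≃ₐ[ℝ] Matrix (Fin d) (Fin d) K) : A →ₐ[ℝ] MC d :=
  ι.mapMatrix.comp E.toAlgHom

/-- the group `SL(d, K)` as a subgroup of the units of `A ≅ M_d(K)` -/
def SLsub (E : A ≃ₐ[ℝ] Matrix (Fin d) (Fin d) K) : Subgroup Aˣ where
  carrier := {u | (E (u : A)).det = 1}
  one_mem' := by
    show (E ((1 : Aˣ) : A)).det = 1
    rw [Units.val_one, map_one, Matrix.det_one]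
  mul_mem' := by
    intro a b ha hb
    show (E ((a * b : Aˣ) : A)).det = 1
    rw [Units.val_mul, map_mul, Matrix.det_mul, show (E (a : A)).det = 1 from ha,
      show (E (b : A)).det = 1 from hb, one_mul]
  inv_mem' := by
    intro a ha
    show (E ((a⁻¹ : Aˣ) : A)).det = 1
    have h1 : (E (a : A)).det * (E ((a⁻¹ : Aˣ) : A)).det = 1 := by
      rw [← Matrix.det_mul, ← map_mul, Units.mul_inv, map_one, Matrix.det_one]
    rwa [show (E (a : A)).det = 1 from ha, one_mul] at h1

end sl

/-- `F` is, on a homogeneous manifold of finite volume of a closed linear group, the translation by a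
good element `h` (`GoodElt`), and `z` is in the support of the invariant measure. -/
def IsGoodTranslation (n : ℕ) (N : Type u) [TopologicalSpace N] [ChartedSpace (V n) N] (F : N → N)
    (z : N) : Prop :=
  ∃ (A : Type) (_ : NormedRing A) (_ : NormedAlgebra ℝ A) (_ : FiniteDimensional ℝ A)
    (_ : CompleteSpace A) (D : Subgroup Aˣ) (act : D → N → N) (d : ℕ) (e : A →ₐ[ℝ] MC d)
    (_ : MeasurableSpace N) (_ : BorelSpace N) (μ : Measure N) (h : D), Function.Injective e ∧
      FiniteVolume n N D act μ z ∧ GoodElt act μ e h ∧ ∀ y, F y = act h y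

/-- `F` is, on a homogeneous manifold of finite volume of the group `SL(d, K)`, where `K` is `ℝ` or `ℂ`
(a field between `ℝ` and `ℂ`), the translation by an element `h` which is diagonalizable over `ℂ`, and
`z` is in the support of the invariant measure. Here `SL(d, K)` is the group of the elements of
determinant one of a Banach algebra isomorphic to `M_d(K)`. -/
def IsSLTranslation (n : ℕ) (N : Type u) [TopologicalSpace N] [ChartedSpace (V n) N] (F : N → N)
    (z : N) : Prop :=
  ∃ (A : Type) (_ : NormedRing A) (_ : NormedAlgebra ℝ A) (_ : FiniteDimensional ℝ A)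
    (_ : CompleteSpace A) (K : Type) (_ : Field K) (_ : Algebra ℝ K) (ι : K →ₐ[ℝ] ℂ) (d : ℕ)
    (E : A ≃ₐ[ℝ] Matrix (Fin d) (Fin d) K) (act : SLsub E → N → N)
    (_ : MeasurableSpace N) (_ : BorelSpace N) (μ : Measure N) (h : SLsub E)
    (P : (MC d)ˣ) (lam : Fin d → ℂ), FiniteVolume n N (SLsub E) act μ z ∧
      DiagBy (repC ι E ((h : Aˣ) : A)) P lam ∧ ∀ y, F y = act h y

end Pool.Agent.Helper36x.HC
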