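import Pool.Agent.Helper36x.HC.Hilb
import Pool.Agent.Helper36x.HC.Defs2

/-!
# The Mautner phenomenon and returns at good times
-/

set_option autoImplicit false
set_option linter.unusedSectionVars false

open Filter Set Topology MeasureTheory

namespace Pool.Agent.Helper36x.HC

/-- a continuous measure preserving action -/
structure MPAct {D : Type*} [Group D] [TopologicalSpace D] {N : Type*} [TopologicalSpace N]
    [MeasurableSpace N] (act : D → N → N) (μ : Measure N) : Prop where
  one : ∀ y, act 1 y = y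
  mul : ∀ g h y, act (g * h) y = act g (act h y)
  cont : Continuous (fun p : D × N => act p.1 p.2)
  mp : ∀ g, MeasurePreserving (act g) μ μ

variable {D : Type*} [Group D] [TopologicalSpace D] [IsTopologicalGroup D]
  {N : Type*} [TopologicalSpace N] [T2Space N] [MeasurableSpace N] [BorelSpace N]
  {act : D → N → N} {μ : Measure N} [IsFiniteMeasure μ] [μ.InnerRegularCompactLTTop]

/-- the unitary representation -/
noncomputable def koop (H : MPAct act μ) (g : D) : Lp ℂ 2 μ →ₗᵢ[ℂ] Lp ℂ 2 μ :=
  Lp.compMeasurePreservingₗᵢ ℂ (act g) (H.mp g)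

theorem koop_congr (H : MPAct act μ) {g : D} {f : N → N} (hf : MeasurePreserving f μ μ)
    (e : act g = f) (v : Lp ℂ 2 μ) : koop H g v = Lp.compMeasurePreserving f hf v := by
  subst e
  rfl

theorem koop_mul (H : MPAct act μ) (g h : D) (v : Lp ℂ 2 μ) :
    koop H (g * h) v = koop H h (koop H g v) := by
  have e : act (g * h) = act g ∘ act h := funext fun y => H.mul g h y
  rw [koop_congr H ((H.mp g).comp (H.mp h)) e, Lp.compMeasurePreserving_comp_apply]
  rfl

theorem koop_one (H : MPAct act μ) (v : Lp ℂ 2 μ) : koop H 1 v = v := by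
  have e : act 1 = (id : N → N) := funext fun y => H.one y
  rw [koop_congr H (MeasurePreserving.id μ) e, Lp.compMeasurePreserving_id_apply]

theorem koop_cont (H : MPAct act μ) (v : Lp ℂ 2 μ) : Continuous (fun g => koop H g v) := by
  let F : D → C(N, N) := fun g => ⟨act g, H.cont.comp (Continuous.prodMk_right g)⟩
  have hF : Continuous F := ContinuousMap.continuous_of_continuous_uncurry _ H.cont
  exact (continuous_const (y := v)).compMeasurePreservingLp hF H.mp (by norm_num)

/-- **Mautner phenomenon.** Eigenvectors of `h` are fixed by the horospherical subgroups. -/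
theorem mautner (H : MPAct act μ) {h : D} {v : Lp ℂ 2 μ} {c : ℂ} (hc : ‖c‖ = 1)
    (hv : koop H h v = c • v) {u : D} (hu : u ∈ Horo h) : koop H u v = v := by
  have hc0 : c ≠ 0 := by
    rintro rfl
    rw [norm_zero] at hc
    exact zero_ne_one hc
  have hpow : ∀ k : ℕ, koop H (h ^ k) v = c ^ k • v := by
    intro k
    induction k with
    | zero => rw [pow_zero, pow_zero, one_smul, koop_one]
    | succ k ih => rw [pow_succ, koop_mul, ih, map_smul, hv, smul_smul, pow_succ]
  have hpow' : ∀ k : ℕ, koop H (h ^ k)⁻¹ v = (c ^ k)⁻¹ • v := by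
    intro k
    have h1 : koop H (h ^ k)⁻¹ (koop H (h ^ k) v) = v := by
      rw [← koop_mul, mul_inv_cancel, koop_one]
    rw [hpow, map_smul] at h1
    rw [← h1, smul_smul, inv_mul_cancel₀ (pow_ne_zero k hc0), one_smul, h1]
  -- the distance does not change
  have key : ∀ (a w : D) (b : ℂ), ‖b‖ = 1 → koop H a v = b • v →
      ‖koop H w v - v‖ = ‖koop H (a * w * a⁻¹) v - v‖ := by
    intro a w b hb hab
    have h1 : koop H (a * w) v = koop H a (koop H (a * w * a⁻¹) v) := by
      rw [← koop_mul, inv_mul_cancel_right]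
    have h2 : koop H (a * w) v = b • koop H w v := by
      rw [koop_mul, hab, map_smul]
    calc ‖koop H w v - v‖ = ‖b • (koop H w v - v)‖ := by rw [norm_smul, hb, one_mul]
      _ = ‖koop H a (koop H (a * w * a⁻¹) v - v)‖ := by
        rw [smul_sub, ← h2, h1, ← hab, ← map_sub]
      _ = _ := LinearIsometry.norm_map _ _
  have hlim : ∀ w : ℕ → D, Tendsto w atTop (𝓝 1) → (∀ k, ‖koop H u v - v‖ = ‖koop H (w k) v - v‖) →
      koop H u v = v := by
    intro w hw he
    have h1 : Tendsto (fun k => ‖koop H (w k) v - v‖) atTop (𝓝 0) := by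
      have h2 := (((koop_cont H v).tendsto 1).comp hw).sub_const v
      rw [koop_one, sub_self] at h2
      have h3 := h2.norm
      rw [norm_zero] at h3
      exact h3
    have h4 : ‖koop H u v - v‖ = 0 := by
      refine tendsto_nhds_unique (tendsto_const_nhds (x := ‖koop H u v - v‖) (f := (atTop : Filter ℕ))) ?_
      refine h1.congr fun k => (he k).symm
    exact sub_eq_zero.1 (norm_eq_zero.1 h4)
  rcases hu with hu | hu
  · exact hlim _ hu fun k => key _ _ (c ^ k) (by rw [norm_pow, hc, one_pow]) (hpow k)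
  · refine hlim _ hu fun k => ?_
    have h1 := key (h ^ k)⁻¹ u (c ^ k)⁻¹ (by rw [norm_inv, norm_pow, hc, one_pow, inv_one])
      (hpow' k)
    rw [inv_inv] at h1
    exact h1

/-- the stabiliser of a vector -/
noncomputable def stab (H : MPAct act μ) (v : Lp ℂ 2 μ) : Subgroup D where
  carrier := {g | koop H g v = v}
  one_mem' := koop_one H v
  mul_mem' := by
    intro g g' hg hg'
    show koop H (g * g') v = v
    rw [koop_mul, show koop H g v = v from hg, show koop H g' v = v from hg']
  inv_mem' := by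
    intro g hg
    show koop H g⁻¹ v = v
    have h1 : koop H g⁻¹ (koop H g v) = v := by rw [← koop_mul, mul_inv_cancel, koop_one]
    rwa [show koop H g v = v from hg] at h1

theorem koop_iff (H : MPAct act μ) (g : D) (v : Lp ℂ 2 μ) :
    koop H g v = v ↔ (v : N → ℂ) ∘ act g =ᵐ[μ] v := by
  have h1 : (koop H g v : N → ℂ) =ᵐ[μ] (v : N → ℂ) ∘ act g :=
    Lp.coeFn_compMeasurePreserving v (H.mp g)
  rw [Lp.ext_iff]
  exact ⟨fun h => h1.symm.trans h, fun h => h1.trans h⟩

theorem HoroInv.koop {H : MPAct act μ} {h : D} (hh : HoroInv act μ h) (v : Lp ℂ 2 μ)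
    (hv : ∀ u ∈ Horo h, koop H u v = v) : HC.koop H h v = v :=
  (koop_iff H h v).2 (hh v (Lp.memLp v) fun u hu => (koop_iff H u v).1 (hv u hu))

/-- This is the case if `h` is in the closure of the group generated by its horospherical
subgroups. -/
theorem horoInv_of_closure (H : MPAct act μ) {h : D}
    (hh : h ∈ closure (Subgroup.closure (Horo h) : Set D)) : HoroInv act μ h := by
  intro f hf hfu
  have e1 : (hf.toLp f : N → ℂ) =ᵐ[μ] f := hf.coeFn_toLp
  have e2 : ∀ g : D, (hf.toLp f : N → ℂ) ∘ act g =ᵐ[μ] f ∘ act g := fun g =>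
    (H.mp g).quasiMeasurePreserving.ae_eq_comp e1
  have h1 : Subgroup.closure (Horo h) ≤ stab H (hf.toLp f) := by
    rw [Subgroup.closure_le]
    intro u hu
    exact (koop_iff H u _).2 (((e2 u).trans (hfu u hu)).trans e1.symm)
  have h2 : IsClosed (stab H (hf.toLp f) : Set D) := isClosed_eq (koop_cont H _) continuous_const
  have h3 : h ∈ (stab H (hf.toLp f) : Set D) := closure_minimal h1 h2 hh
  exact ((e2 h).symm.trans ((koop_iff H h _).1 h3)).trans e1

theorem no_eigen (H : MPAct act μ) {h : D} (hh : HoroInv act μ h) (c : ℂ) (hc : ‖c‖ = 1)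
    (hc1 : c ≠ 1) (v : Lp ℂ 2 μ) (hv : koop H h v = c • v) : v = 0 := by
  have h4 : koop H h v = v := hh.koop v fun u hu => mautner H hc hv hu
  rw [hv] at h4
  have h5 : (c - 1) • v = 0 := by rw [sub_smul, one_smul, h4, sub_self]
  exact (smul_eq_zero.1 h5).resolve_left (sub_ne_zero.2 hc1)

/-- **Returns at good times** for measure preserving actions. -/
theorem mautner_returns (H : MPAct act μ) {h : D} (hh : HoroInv act μ h) {z : N}
    (hz : ∀ W ∈ 𝓝 z, 0 < μ W)
    {r : ℕ} (ν : Fin r → ℂ) (hν : ∀ j, ‖ν j‖ = 1) (δ : ℝ) (hδ : 0 < δ) (K : ℕ) (W : Set N)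
    (hW : W ∈ 𝓝 z) : ∃ k, K ≤ k ∧ (∀ j, ‖ν j ^ k - ν j‖ < δ) ∧ ∃ y ∈ W, (act h)^[k] y ∈ W := by
  have hWo : MeasurableSet (interior W) := isOpen_interior.measurableSet
  have hWμ : 0 < μ (interior W) := hz _ (interior_mem_nhds.2 hW)
  obtain ⟨v, hv⟩ : ∃ v : Lp ℂ 2 μ, v = indicatorConstLp 2 hWo (measure_ne_top μ _) (1 : ℂ) :=
    ⟨_, rfl⟩
  obtain ⟨w₀, hw₀⟩ : ∃ w₀ : Lp ℂ 2 μ,
      w₀ = indicatorConstLp 2 MeasurableSet.univ (measure_ne_top μ _) (1 : ℂ) := ⟨_, rfl⟩
  have hUw : koop H h w₀ = w₀ := by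
    show Lp.compMeasurePreserving (act h) (H.mp h) w₀ = w₀
    rw [hw₀, Lp.indicatorConstLp_compMeasurePreserving]
    rfl
  have hin : inner ℂ w₀ v ≠ 0 := by
    rw [hw₀, hv, L2.inner_indicatorConstLp_indicatorConstLp]
    rw [univ_inter]
    have h1 : μ.real (interior W) ≠ 0 := by
      rw [measureReal_def]
      exact (ENNReal.toReal_pos hWμ.ne' (measure_ne_top _ _)).ne'
    simpa using h1
  obtain ⟨k, hk, hkν, hkv⟩ := bohr_returns (koop H h).toContinuousLinearMap
    (LinearIsometry.norm_toContinuousLinearMap_le _)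
    (fun c hc hc1 w hw => no_eigen H hh c hc hc1 w hw) v w₀ hUw hin ν hν δ hδ K
  refine ⟨k, hk, hkν, ?_⟩
  by_contra hcon
  push Not at hcon
  apply hkv
  have h1 : (koop H h).toContinuousLinearMap^[k] v =
      Lp.compMeasurePreserving (act h)^[k] ((H.mp h).iterate k) v := by
    have := Lp.compMeasurePreserving_iterate (E := ℂ) (p := 2) (H.mp h) k
    exact congrFun this v
  rw [h1, hv, Lp.indicatorConstLp_compMeasurePreserving,
    L2.inner_indicatorConstLp_indicatorConstLp]
  have h2 : interior W ∩ (act h)^[k] ⁻¹' interior W = ∅ := by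
    rw [eq_empty_iff_forall_notMem]
    rintro y ⟨hy1, hy2⟩
    exact hcon y (interior_subset hy1) (interior_subset hy2)
  rw [h2]
  simp

end Pool.Agent.Helper36x.HC
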