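import Pool.Agent.Helper36x.HC.Cor2
import Pool.Agent.Helper36x.HC.Mautner

/-!
# Homogeneous manifolds with a finite invariant measure
-/

set_option autoImplicit false
set_option linter.unusedSectionVars false

open scoped Manifold ContDiff Topology NNReal
open Filter Set Metric MeasureTheory

universe u

namespace Pool.Agent.Helper36x.HC

open Pool.Agent.H718R2.G Pool.Agent.W564.SC Pool.Agent.TH382.QC Pool.Agent.E8helper46.FL
  Pool.Agent.TH80.CLX

section leaf

variable {A : Type} [NormedRing A] [NormedAlgebra ℝ A] [FiniteDimensional ℝ A] [CompleteSpace A]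
  {D : Subgroup Aˣ} {hD : IsClosed (D : Set Aˣ)}
  {n : ℕ} {N : Type u} [TopologicalSpace N] [T2Space N] [ChartedSpace (V n) N]
  [IsManifold (𝓡 n) ∞ N] {r : ℕ∞} {F : DiffM n N r} {act : D → N → N} {z : N}

/-- Translations by diagonalizable elements `h` such that functions which are invariant under the
horospherical subgroups of `h` are invariant under `h`. -/
theorem mautner_closing {d : ℕ} (e : A →ₐ[ℝ] MC d) (he : Function.Injective e)
    (hD : IsClosed (D : Set Aˣ)) (hact : IsAction n N D univ act)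
    (hopen : ∀ B ∈ 𝓝 (1 : D), (fun g => act g z) '' B ∈ 𝓝 z)
    [MeasurableSpace N] [BorelSpace N] (μ : Measure N) [IsFiniteMeasure μ]
    [μ.InnerRegularCompactLTTop] (hμ : ∀ g, MeasurePreserving (act g) μ μ)
    (hz : ∀ W ∈ 𝓝 z, 0 < μ W)
    (h : D) (P : (MC d)ˣ) (lam : Fin d → ℂ) (hh : DiagBy (e ((h : Aˣ) : A)) P lam)
    (hF : ∀ y, F y = act h y) (hH : HoroInv act μ h) :
    LocallyClosable n N r F z := by
  classical
  have hMP : MPAct act μ :=
    { one := fun y => hact.one y (mem_univ _)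
      mul := fun g h y => hact.mul g h y (mem_univ _)
      cont := by
        have h1 := hact.cont
        rw [univ_prod_univ] at h1
        exact continuousOn_univ.1 h1
      mp := hμ }
  -- the eigenvalues of modulus one
  obtain ⟨S, hS⟩ : ∃ S : Finset (Fin d × Fin d), ∀ p, p ∈ S ↔ ‖lam p.1 / lam p.2‖ = 1 :=
    ⟨Finset.univ.filter (fun p => ‖lam p.1 / lam p.2‖ = 1), fun p => by
      rw [Finset.mem_filter]
      exact ⟨fun h => h.2, fun h => ⟨Finset.mem_univ _, h⟩⟩⟩
  let ν : Fin S.card → ℂ := fun j => lam (S.equivFin.symm j).1.1 / lam (S.equivFin.symm j).1.2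
  have hν : ∀ j, ‖ν j‖ = 1 := by
    intro j
    exact (hS _).1 (S.equivFin.symm j).2
  have hfc := firstCountable_D D
  obtain ⟨B, hB⟩ := (𝓝 (1 : D)).exists_antitone_basis
  have key : ∀ t : ℕ, ∃ k : ℕ, t + 1 ≤ k ∧ (∀ j, ‖ν j ^ k - ν j‖ < 1 / ((t : ℝ) + 1)) ∧
      ∃ b₁ ∈ B t, ∃ b₂ ∈ B t, F^[1 * k] (act b₁ z) = act b₂ z := by
    intro t
    obtain ⟨k, hk, hkν, y, ⟨b₁, hb₁, hy⟩, ⟨b₂, hb₂, hy2⟩⟩ := mautner_returns hMP hH hz ν hν
      (1 / ((t : ℝ) + 1)) (by positivity) (t + 1) _ (hopen _ (hB.1.mem_of_mem trivial))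
    have hF' : (F : N → N) = act h := funext hF
    refine ⟨k, hk, hkν, b₁, hb₁, b₂, hb₂, ?_⟩
    rw [one_mul, hF', show act b₁ z = y from hy, ← hy2]
  choose k hk hkν hkr using key
  have hkt : Tendsto k atTop atTop :=
    tendsto_atTop_mono (fun t => (Nat.le_succ t).trans (hk t)) tendsto_id
  have hl : AffineLeaf F univ act (MulAut.conj h).toMonoidHom 1 z :=
    { pos := le_rfl
      mem := mem_univ _
      ret := ⟨h, hF z⟩
      equi := fun g => by
        show F (act g z) = act (h * g * h⁻¹) (F z)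
        rw [hF, hF, ← hact.mul _ _ _ (mem_univ _), ← hact.mul _ _ _ (mem_univ _)]
        congr 1
        group
      away := by
        have e : {y | ∃ i : ℕ, ∃ g : D, 1 ≤ i ∧ i < 1 ∧ F^[i] (act g z) = y} = ∅ := by
          rw [eq_empty_iff_forall_notMem]
          rintro y ⟨i, g, h1, h2, -⟩
          omega
        rw [e, closure_empty]
        exact notMem_empty _ }
  intro W hW U hU hFU
  refine local_closing r F z ⟨A, inferInstance, inferInstance, inferInstance, inferInstance, D, hD,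
    univ, act, (MulAut.conj h).toMonoidHom, 1, k, hact, hl,
    fun t => (Nat.le_add_left 1 t).trans (hk t), solvable_times (hD := hD) he hh hkt ?_, ?_⟩
    W hW U hU hFU
  · intro i j hij
    have hmem : (i, j) ∈ S := (hS _).2 hij
    obtain ⟨q, hq⟩ : ∃ q, ν q = lam i / lam j := by
      refine ⟨S.equivFin ⟨(i, j), hmem⟩, ?_⟩
      show lam (S.equivFin.symm (S.equivFin ⟨(i, j), hmem⟩)).1.1 /
        lam (S.equivFin.symm (S.equivFin ⟨(i, j), hmem⟩)).1.2 = _
      rw [Equiv.symm_apply_apply]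
    rw [← hq, tendsto_iff_norm_sub_tendsto_zero]
    exact squeeze_zero (fun t => norm_nonneg _) (fun t => (hkν t q).le)
      tendsto_one_div_add_atTop_nhds_zero_nat
  · intro W' hW'
    filter_upwards [hB.eventually_subset hW'] with t ht
    obtain ⟨b₁, hb₁, b₂, hb₂, hbb⟩ := hkr t
    exact ⟨b₁, ht hb₁, b₂, ht hb₂, hbb⟩

end leaf

end Pool.Agent.Helper36x.HC
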