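import Pool.Agent.Helper36x.HC.Ell

/-!
# All translations: finite volume, and limits for compact manifolds
-/

set_option autoImplicit false
set_option linter.unusedSectionVars false

open scoped Manifold ContDiff Topology NNReal
open Filter Set Metric MeasureTheory

universe u

namespace Pool.Agent.Helper36x.HC

open Pool.Agent.H718R2.G Pool.Agent.W564.SC Pool.Agent.TH382.QC Pool.Agent.E8helper46.FL
  Pool.Agent.TH80.CLX

variable {A : Type} [NormedRing A] [NormedAlgebra ℝ A] [FiniteDimensional ℝ A] [CompleteSpace A]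

variable {D : Subgroup Aˣ} {n : ℕ} {N : Type u} [TopologicalSpace N] [T2Space N]
  [ChartedSpace (V n) N] [IsManifold (𝓡 n) ∞ N] [MeasurableSpace N] [BorelSpace N]
  {r : ℕ∞} {act : D → N → N} {μ : Measure N} {z : N}

/-- **Finite volume.** -/
theorem finite_volume {d : ℕ} (e : A →ₐ[ℝ] MC d) (he : Function.Injective e)
    (H : FiniteVolume n N D act μ z) (h : D) (hh : GoodElt act μ e h) (F : DiffM n N r)
    (hF : ∀ y, F y = act h y) : LocallyClosable n N r F z := by
  obtain ⟨P, lam, hd, hc⟩ := hh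
  have := H.finite
  have := H.reg
  rcases hc with hc | hc | hc
  · refine translation e he H.closed H.action H.opn h P lam hd hF (Or.inl ⟨hc, ?_⟩)
    have hF' : (F : N → N) = act h := funext hF
    refine nonWand_of_measure μ ?_ H.supp
    rw [hF']
    exact H.inv h
  · exact mautner_closing e he H.closed H.action H.opn μ H.inv H.supp h P lam hd hF hc
  · exact elliptic_closing e he H.closed H.action (mem_univ z) h P lam hd hc fun y _ => hF y

/-- **Compact manifolds.** All translations by limits of good elements can be closed. -/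
theorem compact_limits [CompactSpace N] {d : ℕ} (e : A →ₐ[ℝ] MC d) (he : Function.Injective e)
    (H : FiniteVolume n N D act μ z) (h : D) (hh : h ∈ closure {h' : D | GoodElt act μ e h'})
    (F : DiffM n N r) (hF : ∀ y, F y = act h y) : ClosableAt n N r F z := by
  have hD := H.closed
  refine Pool.Agent.TH382.HS.closable_of_limit F z fun U hU hFU => ?_
  -- the family of the translations by `h exp(X)`
  obtain ⟨j, hj⟩ : ∃ j, j = Module.finrank ℝ (lieAlg D hD) := ⟨_, rfl⟩
  let e0 : V j ≃L[ℝ] lieAlg D hD :=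
    ContinuousLinearEquiv.ofFinrankEq (by rw [finrank_euclideanSpace_fin, hj])
  have hρ : ContMDiff (𝓡 n) 𝓘(ℝ, ℝ) ∞ (fun _ : N => (1 : ℝ)) := contMDiff_const
  obtain ⟨G, κ, hκ, hG0, hGfam, hG⟩ := line_fam (lineAct H.action (e0 : V j →L[ℝ] lieAlg D hD)) hρ
    univ isCompact_univ isClosed_univ (subset_univ _) (fun y _ hy => absurd (mem_univ y) hy) r F
  have hG' : ∀ s, ‖s‖ < κ → ∀ y, G s y = act (h * expD (e0 s)) y := by
    intro s hs y
    rw [hG s hs, if_pos (mem_univ y), hF, H.action.mul _ _ _ (mem_univ _)]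
    show act h (act (expD (e0 ((1 : ℝ) • s))) y) = _
    rw [one_smul]
  -- parameters
  have key : ∀ ε : ℝ, 0 < ε → ∃ s : V j, ‖s‖ < ε ∧ GoodElt act μ e (h * expD (e0 s)) := by
    intro ε hε
    obtain ⟨C, hC, hCe⟩ : ∃ C : ℝ, 0 < C ∧ ∀ X, ‖e0.symm X‖ ≤ C * ‖X‖ :=
      ⟨‖(e0.symm : lieAlg D hD →L[ℝ] V j)‖ + 1, by positivity, fun X =>
        ((e0.symm : lieAlg D hD →L[ℝ] V j).le_opNorm X).trans (by
          gcongr
          linarith)⟩
    have h1 := near_small D hD (show 0 < ε / C by positivity)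
    have h2 : ∀ᶠ g : D in 𝓝 h, ((h⁻¹ * g : D) : Aˣ) ∈ {u : Aˣ | u ∈ D → ∃ X ∈ lieAlg D hD,
        ‖X‖ < ε / C ∧ u = ex X} := by
      have h3 : Continuous (fun g : D => ((h⁻¹ * g : D) : Aˣ)) :=
        continuous_subtype_val.comp (continuous_const.mul continuous_id)
      have h4 := h3.tendsto h
      rw [inv_mul_cancel] at h4
      exact h4.eventually h1
    obtain ⟨g, hg1, hg2⟩ := mem_closure_iff_nhds.1 hh _ h2
    obtain ⟨X, hX, hXn, hXe⟩ := hg1 (h⁻¹ * g).2
    refine ⟨e0.symm ⟨X, hX⟩, ?_, ?_⟩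
    · refine (hCe _).trans_lt ?_
      have h5 : ‖(⟨X, hX⟩ : lieAlg D hD)‖ < ε / C := hXn
      rw [lt_div_iff₀ hC] at h5
      linarith
    · have h6 : h * expD (e0 (e0.symm ⟨X, hX⟩)) = g := by
        rw [e0.apply_symm_apply]
        have h7 : expD (⟨X, hX⟩ : lieAlg D hD) = h⁻¹ * g := by
          apply Subtype.ext
          exact hXe.symm
        rw [h7, mul_inv_cancel_left]
      rw [h6]
      exact hg2
  have key2 : ∀ t : ℕ, ∃ s : V j, ‖s‖ < min κ (1 / ((t : ℝ) + 1)) ∧
      GoodElt act μ e (h * expD (e0 s)) := fun t => key _ (by positivity)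
  choose s hs hsg using key2
  have hs0 : Tendsto s atTop (𝓝 0) := by
    rw [tendsto_zero_iff_norm_tendsto_zero]
    exact squeeze_zero (fun t => norm_nonneg _) (fun t => (hs t).le.trans (min_le_right _ _))
      tendsto_one_div_add_atTop_nhds_zero_nat
  have hcomp : S_COMP := Pool.Agent.W917.SC.comp
  have hcv : Cv (fun t => G (s t)) (G 0) := Cv.fam hcomp hGfam hs0
  rw [hG0] at hcv
  obtain ⟨t, ht⟩ := (hcv.mem hU hFU).exists
  refine ⟨G (s t), ht, subset_closure ?_⟩
  intro U' hU' hFU'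
  obtain ⟨G', hG', hper, -⟩ := finite_volume e he H (h * expD (e0 (s t))) (hsg t) (G (s t))
    (fun y => hG' (s t) ((hs t).trans_le (min_le_left _ _)) y) univ univ_mem U' hU' hFU'
  exact ⟨G', hG', hper⟩

end Pool.Agent.Helper36x.HC
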