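import Pool.Agent.TH382.QC.Top

/-!
# Convergence in the strong topology of sequences which are constant outside of a compact set

Variants of `Cv.basic`, `Cv.mem` of `Pool/Agent/TH382/QC/Top.lean` (helper382) for noncompact manifolds.
-/

set_option autoImplicit false
set_option linter.unusedSectionVars false

open scoped Manifold ContDiff Topology
open Filter Set Metric

universe u

namespace Pool.Agent.Helper36x.HC

open Pool.Agent.H718R2.G Pool.Agent.W564.SC Pool.Agent.TH382.QC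

variable {n : ℕ} {N : Type u} [TopologicalSpace N] [ChartedSpace (V n) N]
  [IsManifold (𝓡 n) ∞ N] {r : ℕ∞}

/-- convergence implies convergence in the strong topology: basic neighbourhoods -/
theorem basic_cpt [T2Space N] [FirstCountableTopology N] {G : ℕ → DiffM n N r} {G₀ : DiffM n N r}
    (h : Cv G G₀) {Q : Set N} (hQ : IsCompact Q) (hGQ : ∀ m, ∀ y, y ∉ Q → G m y = G₀ y) (D : StrongData n N) (k : ℕ) (f : DiffM n N r) (hk : (k : ℕ∞) ≤ r)
    (hf : ∀ i, ∀ x ∈ D.K i, f x ∈ (D.ψ i).source) (h0 : G₀ ∈ strongNbhd D k f) :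
    ∀ᶠ m in atTop, G m ∈ strongNbhd D k f := by
  by_contra hcon
  obtain ⟨g₀, hg₀, hno⟩ := extraction_of_frequently_atTop (not_eventually.1 hcon)
  have hno' : ∀ m, ∃ i, ∃ x, x ∈ D.K i ∧ ¬ (G (g₀ m) x ∈ (D.ψ i).source ∧ ∀ j : ℕ, j ≤ k →
      ‖iteratedFDeriv ℝ j (D.ψ i ∘ G (g₀ m) ∘ (D.φ i).symm) (D.φ i x)
        - iteratedFDeriv ℝ j (D.ψ i ∘ f ∘ (D.φ i).symm) (D.φ i x)‖ < D.ε i) := by
    intro m
    by_contra hc
    push Not at hc
    apply hno m
    intro i x hx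
    exact hc i x hx
  choose i x hx hbad using hno'
  have hxQ : ∀ m, x m ∈ Q := by
    intro m
    by_contra hxm
    apply hbad m
    have hev : (G (g₀ m) : N → N) =ᶠ[𝓝 (x m)] G₀ := by
      filter_upwards [hQ.isClosed.isOpen_compl.mem_nhds hxm] with y hy
      exact hGQ _ y hy
    have h1 := h0 (i m) (x m) (hx m)
    have h2 : (D.ψ (i m) ∘ G (g₀ m) ∘ (D.φ (i m)).symm) =ᶠ[𝓝 (D.φ (i m) (x m))]
        (D.ψ (i m) ∘ G₀ ∘ (D.φ (i m)).symm) := by
      have hs := D.sub _ (hx m)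
      have hc : ContinuousAt (D.φ (i m)).symm (D.φ (i m) (x m)) :=
        (D.φ (i m)).continuousAt_symm ((D.φ (i m)).map_source hs)
      have hc2 : Tendsto (D.φ (i m)).symm (𝓝 (D.φ (i m) (x m))) (𝓝 (x m)) := by
        have := hc.tendsto
        rwa [(D.φ (i m)).left_inv hs] at this
      filter_upwards [hc2.eventually hev] with v hv
      simp only [Function.comp, hv]
    refine ⟨by rw [hev.eq_of_nhds]; exact h1.1, fun j hj => ?_⟩
    rw [(Filter.EventuallyEq.iteratedFDeriv ℝ h2 j).eq_of_nhds]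
    exact h1.2 j hj
  have hfin : {i | ((D.φ i).source ∩ Q).Nonempty}.Finite := D.lf.finite_nonempty_inter_compact hQ
  have hne : ∀ m, ((D.φ (i m)).source ∩ Q).Nonempty := fun m => ⟨x m, D.sub _ (hx m), hxQ m⟩
  have := hfin.to_subtype
  obtain ⟨i₀, hi₀⟩ := Finite.exists_infinite_fiber
    (fun m => (⟨i m, hne m⟩ : {i | ((D.φ i).source ∩ Q).Nonempty}))
  have hinf : {m | i m = i₀.1}.Infinite := by
    rw [Set.infinite_coe_iff] at hi₀
    refine hi₀.mono ?_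
    intro m hm
    exact congrArg Subtype.val hm
  obtain ⟨g₁, hg₁, hi₁⟩ := extraction_of_frequently_atTop
    (Nat.frequently_atTop_iff_infinite.mpr hinf)
  obtain ⟨x₀, -, g₂, hg₂, hx₀⟩ := hQ.tendsto_subseq (x := x ∘ g₁) (fun m => hxQ (g₁ m))
  set g : ℕ → ℕ := g₁ ∘ g₂ with hg
  have hgm : StrictMono g := hg₁.comp hg₂
  have hig : ∀ m, i (g m) = i₀.1 := fun m => hi₁ _
  have hxg : Tendsto (fun m => x (g m)) atTop (𝓝 x₀) := hx₀
  have hxK : ∀ m, x (g m) ∈ D.K i₀.1 := fun m => by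
    have := hx (g m)
    rwa [hig m] at this
  have hx₀K : x₀ ∈ D.K i₀.1 :=
    (D.compact i₀.1).isClosed.mem_of_tendsto hxg (Eventually.of_forall hxK)
  obtain ⟨hp, hj⟩ := h.subseq (hg₀.comp hgm) k hk (D.φ i₀.1) (D.ψ i₀.1) (D.φ_mem _) (D.ψ_mem _)
    (fun m => x (g m)) x₀ hxg (D.sub _ hx₀K) (h0 i₀.1 x₀ hx₀K).1
  obtain ⟨-, hjf⟩ := Cv.const f k hk (D.φ i₀.1) (D.ψ i₀.1) (D.φ_mem _) (D.ψ_mem _)
    (fun m => x (g m)) x₀ hxg (D.sub _ hx₀K) (hf i₀.1 x₀ hx₀K)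
  have hall : ∀ᶠ m in atTop, ∀ j ∈ Finset.range (k + 1),
      ‖iteratedFDeriv ℝ j (D.ψ i₀.1 ∘ G (g₀ (g m)) ∘ (D.φ i₀.1).symm) (D.φ i₀.1 (x (g m)))
        - iteratedFDeriv ℝ j (D.ψ i₀.1 ∘ f ∘ (D.φ i₀.1).symm) (D.φ i₀.1 (x (g m)))‖ <
          D.ε i₀.1 := by
    rw [Finset.eventually_all]
    intro j hjj
    have hjk : j ≤ k := Nat.lt_succ_iff.mp (Finset.mem_range.mp hjj)
    have h1 := ((hj.conv j hjk).sub (hjf.conv j hjk)).norm
    exact h1.eventually (gt_mem_nhds ((h0 i₀.1 x₀ hx₀K).2 j hjk))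
  have hsrc : ∀ᶠ m in atTop, G (g₀ (g m)) (x (g m)) ∈ (D.ψ i₀.1).source :=
    hp.eventually ((D.ψ i₀.1).open_source.mem_nhds (h0 i₀.1 x₀ hx₀K).1)
  obtain ⟨m, hm1, hm2⟩ := (hsrc.and hall).exists
  have hb := hbad (g m)
  rw [hig m] at hb
  exact hb ⟨hm1, fun j hj => hm2 j (Finset.mem_range.mpr (Nat.lt_succ_iff.mpr hj))⟩

/-- convergence implies convergence in the strong topology -/
theorem mem_cpt [T2Space N] [FirstCountableTopology N] {G : ℕ → DiffM n N r} {G₀ : DiffM n N r}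
    (h : Cv G G₀) {Q : Set N} (hQ : IsCompact Q) (hGQ : ∀ m, ∀ y, y ∉ Q → G m y = G₀ y) {U : Set (DiffM n N r)} (hU : IsOpen[strongTop n N r] U) (h0 : G₀ ∈ U) :
    ∀ᶠ m in atTop, G m ∈ U := by
  letI : TopologicalSpace (DiffM n N r) := strongTop n N r
  have hbas := TopologicalSpace.isTopologicalBasis_of_subbasis (t := strongTop n N r) rfl
  obtain ⟨B, ⟨F, ⟨hF1, hF2⟩, rfl⟩, hB1, hB2⟩ := hbas.exists_subset_of_mem_open h0 hU
  have key : ∀ᶠ m in atTop, ∀ S ∈ F, G m ∈ S := by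
    rw [Filter.eventually_all_finite hF1]
    intro S hS
    obtain ⟨D, k', f, hk'r, hf, rfl⟩ := hF2 hS
    exact basic_cpt h hQ hGQ D k' f hk'r hf (hB1 _ hS)
  exact key.mono fun m hm => hB2 hm

end Pool.Agent.Helper36x.HC
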