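import Pool.Agent.TH382.QC.Defs
import Pool.Agent.E8helper46.FL.ExpLie

/-!
# Affine maps on orbits of closed linear groups: definitions

`D` is a closed subgroup of the group of units of a finite-dimensional real Banach algebra `A`, for
example of `GL(d, ℝ)` or `GL(d, ℂ)`; `lieAlg D hD` is its Lie algebra and `ex` the exponential map
(`Pool/Agent/E8helper46/FL/ExpLie.lean`).
-/

set_option autoImplicit false

open scoped Manifold ContDiff Topology
open Filter Set

universe u

namespace Pool.Agent.Helper36x.HC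

open Pool.Agent.H718R2.G Pool.Agent.E8helper46.FL

variable {A : Type} [NormedRing A] [NormedAlgebra ℝ A] [FiniteDimensional ℝ A] [CompleteSpace A]

/-- The exponential map `Lie(D) → D`. -/
noncomputable def expD {D : Subgroup Aˣ} {hD : IsClosed (D : Set Aˣ)} (X : lieAlg D hD) : D :=
  ⟨ex (X : A), ex_mem X.2⟩

/-- `act` is a smooth action of the Lie group `D` on the open subset `O` of the manifold `N`.
Smoothness: for every family `c` of elements of `D` which depends smoothly on a parameter `s ∈ ℝʲ`,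
the map `(s, y) ↦ c(s) y` is smooth. -/
structure IsAction (n : ℕ) (N : Type u) [TopologicalSpace N] [ChartedSpace (V n) N]
    (D : Subgroup Aˣ) (O : Set N) (act : D → N → N) : Prop where
  isOpen : IsOpen O
  maps : ∀ g, ∀ y ∈ O, act g y ∈ O
  one : ∀ y ∈ O, act 1 y = y
  mul : ∀ g h, ∀ y ∈ O, act (g * h) y = act g (act h y)
  cont : ContinuousOn (fun p : D × N => act p.1 p.2) (univ ×ˢ O)
  smooth : ∀ (j : ℕ) (c : V j → D), ContDiff ℝ ∞ (fun s => ((c s : Aˣ) : A)) →
    ContMDiffOn ((𝓡 j).prod (𝓡 n)) (𝓡 n) ∞ (fun p : V j × N => act (c p.1) p.2) (univ ×ˢ O)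

/-- The endomorphism `φ` of `D` has the derivative `L`, a linear automorphism of the Lie algebra, and
every vector of the Lie algebra is a sum of a fixed point `X₀` of `L`, a vector `X₁ - Y₁` and a vector
`X₂ - Y₂`, where `L^(k i) X₁ → Y₁` and `L^(-k i) X₂ → Y₂` for `i → ∞`. -/
def SolvableAlong (D : Subgroup Aˣ) (hD : IsClosed (D : Set Aˣ)) (φ : D →* D) (k : ℕ → ℕ) : Prop :=
  ∃ L : lieAlg D hD ≃ₗ[ℝ] lieAlg D hD, (∀ X, φ (expD X) = expD (L X)) ∧
    ∀ X, ∃ X₀ X₁ Y₁ X₂ Y₂ : lieAlg D hD, X = X₀ + (X₁ - Y₁) + (X₂ - Y₂) ∧ L X₀ = X₀ ∧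
      Tendsto (fun i : ℕ => L^[k i] X₁) atTop (𝓝 Y₁) ∧
      Tendsto (fun i : ℕ => L.symm^[k i] X₂) atTop (𝓝 Y₂)

/-- The orbit `C = D z` is mapped to itself by `F^m`, which is on `C` the affine map
`g z ↦ φ(g) F^m(z)`, and `z` is not a limit of points of `F(C), ..., F^(m-1)(C)`. -/
structure AffineLeaf {N : Type u} [TopologicalSpace N] {D : Subgroup Aˣ} (F : N → N) (O : Set N)
    (act : D → N → N) (φ : D →* D) (m : ℕ) (z : N) : Prop where
  pos : 1 ≤ m
  mem : z ∈ O
  ret : ∃ g, F^[m] z = act g z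
  equi : ∀ g, F^[m] (act g z) = act (φ g) (F^[m] z)
  away : z ∉ closure {y | ∃ i : ℕ, ∃ g : D, 1 ≤ i ∧ i < m ∧ F^[i] (act g z) = y}

/-- Near-returns along the times `k i`, in the orbit `D z` with the topology of the group: for every
neighbourhood `B` of `1` the set `F^(m k_i)(B z)` meets `B z`, if `i` is large. -/
def ReturnsAlong {N : Type u} {D : Subgroup Aˣ} (F : N → N) (act : D → N → N) (m : ℕ) (z : N)
    (k : ℕ → ℕ) : Prop :=
  ∀ B ∈ 𝓝 (1 : D), ∀ᶠ i in atTop, ∃ b₁ ∈ B, ∃ b₂ ∈ B, F^[m * k i] (act b₁ z) = act b₂ z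

/-- `z` lies on an orbit `C` of a closed linear group `D` which acts smoothly on an open set `O`; some
power `F^m` maps `C` to itself by an affine map with linear part `φ`; there are times `k_i ≥ 1` along
which `z` has near-returns in `C` under `F^m` and for which `SolvableAlong` holds. Nothing is required
of `F` elsewhere. The orbit `C` need be neither closed nor an immersed submanifold with discrete
stabilisers, and `D` need be neither compact nor semisimple nor connected. -/
def IsAffinePt (n : ℕ) (N : Type u) [TopologicalSpace N] [ChartedSpace (V n) N] (F : N → N)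
    (z : N) : Prop :=
  ∃ (A : Type) (_ : NormedRing A) (_ : NormedAlgebra ℝ A) (_ : FiniteDimensional ℝ A)
    (_ : CompleteSpace A) (D : Subgroup Aˣ) (hD : IsClosed (D : Set Aˣ)) (O : Set N)
    (act : D → N → N) (φ : D →* D) (m : ℕ) (k : ℕ → ℕ), IsAction n N D O act ∧
      AffineLeaf F O act φ m z ∧ (∀ i, 1 ≤ k i) ∧ SolvableAlong D hD φ k ∧
      ReturnsAlong F act m z k

/-- The endomorphism `φ` of `D` is hyperbolic modulo its fixed points: `φ (exp X) = exp (L X)` for a
linear automorphism `L` of the Lie algebra, and every `X` in the Lie algebra is a sum of a fixed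
point of `L`, a vector `X₁` with `L^k X₁ → 0`, and a vector `X₂` with `L^(-k) X₂ → 0`. -/
def HypMod (D : Subgroup Aˣ) (hD : IsClosed (D : Set Aˣ)) (φ : D →* D) : Prop :=
  ∃ L : lieAlg D hD ≃ₗ[ℝ] lieAlg D hD, (∀ X, φ (expD X) = expD (L X)) ∧
    ∀ X, ∃ X₀ X₁ X₂ : lieAlg D hD, X = X₀ + X₁ + X₂ ∧ L X₀ = X₀ ∧
      Tendsto (fun k : ℕ => L^[k] X₁) atTop (𝓝 0) ∧
      Tendsto (fun k : ℕ => L.symm^[k] X₂) atTop (𝓝 0)

/-- `z` is nonwandering for `F^m` in its orbit `D z` (with the topology of the group). -/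
def NonWandIn {N : Type u} {D : Subgroup Aˣ} (F : N → N) (act : D → N → N) (m : ℕ) (z : N) :
    Prop :=
  ∀ B ∈ 𝓝 (1 : D), ∃ k : ℕ, 1 ≤ k ∧ ∃ b₁ ∈ B, ∃ b₂ ∈ B, F^[m * k] (act b₁ z) = act b₂ z

end Pool.Agent.Helper36x.HC
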