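import Mathlib

/-!
# Diagonal matrices as products of transvections
-/

set_option autoImplicit false

namespace Pool.Agent.Helper36x.HC

open Matrix

section ring

variable {K R : Type*} [Field K] [Ring R] [Algebra K R]

theorem ring_w {e f : R} (hee : e * e = 0) (hefe : e * f * e = e) {x : K} (hx : x ≠ 0) :
    (1 + x • e) * (1 + (-x⁻¹) • f) * (1 + x • e) = 1 - e * f - f * e + x • e - x⁻¹ • f := by
  have h1 : (1 + x • e) * (1 + (-x⁻¹) • f) = 1 + x • e - x⁻¹ • f - e * f := by
    rw [add_mul, mul_add, mul_add, one_mul, one_mul, mul_one, smul_mul_smul_comm, mul_neg,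
      mul_inv_cancel₀ hx, neg_smul, neg_smul, one_smul]
    abel
  rw [h1, mul_add, mul_one, sub_mul, sub_mul, add_mul, one_mul, smul_mul_smul_comm, hee,
    smul_zero, add_zero, smul_mul_smul_comm, inv_mul_cancel₀ hx, one_smul, mul_smul_comm, hefe]
  abel

theorem ring_d {e f : R} (hee : e * e = 0) (hff : f * f = 0) (hefe : e * f * e = e)
    (hfef : f * e * f = f) {x : K} (hx : x ≠ 0) :
    (1 + x • e) * (1 + (-x⁻¹) • f) * (1 + x • e) * ((1 + (-1 : K) • e) * (1 + (1 : K) • f) *
      (1 + (-1 : K) • e)) = 1 - e * f - f * e + x • (e * f) + x⁻¹ • (f * e) := by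
  have h1 := ring_w (K := K) hee hefe hx
  have h2 := ring_w (K := K) hee hefe (x := (-1 : K)) (by simp)
  have h3 : (-(-1 : K)⁻¹) = 1 := by norm_num
  rw [h3] at h2
  rw [h1, h2]
  have h4 : ((-1 : K)⁻¹) = -1 := by norm_num
  rw [h4]
  have a1 : e * (e * f) = 0 := by rw [← mul_assoc, hee, zero_mul]
  have a2 : e * (f * e) = e := by rw [← mul_assoc, hefe]
  have a3 : f * (e * f) = f := by rw [← mul_assoc, hfef]
  have a4 : f * (f * e) = 0 := by rw [← mul_assoc, hff, zero_mul]
  have a5 : e * f * f = 0 := by rw [mul_assoc, hff, mul_zero]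
  have a6 : f * e * e = 0 := by rw [mul_assoc, hee, mul_zero]
  have b1 : e * f * (e * f) = e * f := by rw [← mul_assoc, hefe]
  have b2 : e * f * (f * e) = 0 := by rw [← mul_assoc, a5, zero_mul]
  have b3 : f * e * (e * f) = 0 := by rw [← mul_assoc, a6, zero_mul]
  have b4 : f * e * (f * e) = f * e := by rw [← mul_assoc, hfef]
  simp only [sub_mul, add_mul, mul_sub, mul_add, one_mul, mul_one, smul_mul_assoc, mul_smul_comm,
    a1, a2, a3, a4, a5, a6, b1, b2, b3, b4, hee, hff, hefe, hfef, smul_zero, smul_smul]
  module

theorem ring_comm {a b : R} (haa : a * a = 0) (hbb : b * b = 0) (hba : b * a = 0) :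
    (1 + a) * (1 + b) * ((1 - a) * (1 - b)) = 1 + a * b := by
  have a1 : a * (a * b) = 0 := by rw [← mul_assoc, haa, zero_mul]
  have a2 : b * (a * b) = 0 := by rw [← mul_assoc, hba, zero_mul]
  have a3 : a * b * a = 0 := by rw [mul_assoc, hba, mul_zero]
  have a4 : a * b * b = 0 := by rw [mul_assoc, hbb, mul_zero]
  have a5 : a * b * (a * b) = 0 := by rw [← mul_assoc, a3, zero_mul]
  simp only [sub_mul, add_mul, mul_sub, mul_add, one_mul, mul_one, a1, a2, a3, a4, a5, haa, hbb,
    hba]
  abel

end ring

variable {K : Type*} [Field K] {d : ℕ}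

/-- a set of matrices closed under products and containing transvections contains the diagonal
matrices of determinant one -/
theorem diag_mem (S : Set (Matrix (Fin d) (Fin d) K)) (h1 : 1 ∈ S)
    (hmul : ∀ M ∈ S, ∀ M' ∈ S, M * M' ∈ S) (ht : ∀ i j, i ≠ j → ∀ t : K, transvection i j t ∈ S)
    (lam : Fin d → K) (hlam : ∏ i, lam i = 1) : Matrix.diagonal lam ∈ S := by
  classical
  have hne : ∀ i, lam i ≠ 0 := by
    intro i h0
    have : ∏ i, lam i = 0 := Finset.prod_eq_zero (Finset.mem_univ i) h0
    rw [hlam] at this
    exact one_ne_zero this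
  -- the basic diagonal matrices
  have hD : ∀ i j : Fin d, i ≠ j → ∀ x : K, x ≠ 0 →
      Matrix.diagonal (fun l => if l = i then x else if l = j then x⁻¹ else 1) ∈ S := by
    intro i j hij x hx
    obtain ⟨e, he⟩ : ∃ e : Matrix (Fin d) (Fin d) K, e = Matrix.single i j 1 := ⟨_, rfl⟩
    obtain ⟨f, hf⟩ : ∃ f : Matrix (Fin d) (Fin d) K, f = Matrix.single j i 1 := ⟨_, rfl⟩
    have htv : ∀ c : K, transvection i j c = 1 + c • e := by
      intro c
      rw [he, transvection, Matrix.smul_single, smul_eq_mul, mul_one]
    have htv' : ∀ c : K, transvection j i c = 1 + c • f := by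
      intro c
      rw [hf, transvection, Matrix.smul_single, smul_eq_mul, mul_one]
    have hef : e * f = Matrix.single i i 1 := by
      rw [he, hf, Matrix.single_mul_single_same, mul_one]
    have hfe : f * e = Matrix.single j j 1 := by
      rw [he, hf, Matrix.single_mul_single_same, mul_one]
    have hee : e * e = 0 := by
      rw [he]
      exact Matrix.single_mul_single_of_ne _ _ _ _ (Ne.symm hij) _
    have hff : f * f = 0 := by
      rw [hf]
      exact Matrix.single_mul_single_of_ne _ _ _ _ hij _
    have hefe : e * f * e = e := by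
      rw [hef, he, Matrix.single_mul_single_same, mul_one]
    have hfef : f * e * f = f := by
      rw [hfe, hf, Matrix.single_mul_single_same, mul_one]
    have hfin := ring_d (K := K) hee hff hefe hfef hx
    rw [← htv, ← htv', ← htv, ← htv'] at hfin
    have hS : transvection i j x * transvection j i (-x⁻¹) * transvection i j x *
        (transvection i j (-1) * transvection j i 1 * transvection i j (-1)) ∈ S :=
      hmul _ (hmul _ (hmul _ (ht i j hij x) _ (ht j i (Ne.symm hij) _)) _ (ht i j hij x)) _
        (hmul _ (hmul _ (ht i j hij _) _ (ht j i (Ne.symm hij) _)) _ (ht i j hij _))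
    rw [hfin] at hS
    have e1 : Matrix.diagonal (fun l => if l = i then x else if l = j then x⁻¹ else 1) =
        1 - e * f - f * e + x • (e * f) + x⁻¹ • (f * e) := by
      rw [hef, hfe]
      ext a b
      by_cases hab : a = b
      · subst hab
        by_cases hai : a = i
        · subst hai
          simp [Matrix.single_apply, hij, Ne.symm hij]
        · by_cases haj : a = j
          · subst haj
            simp [Matrix.single_apply, hij, Ne.symm hij]
          · simp [Matrix.single_apply, hai, haj, Ne.symm hai, Ne.symm haj]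
      · have h2 : ¬ (i = a ∧ i = b) := fun h => hab (h.1.symm.trans h.2)
        have h3 : ¬ (j = a ∧ j = b) := fun h => hab (h.1.symm.trans h.2)
        simp [Matrix.single_apply, Matrix.diagonal_apply_ne _ hab, Matrix.one_apply_ne hab, h2, h3]
    rw [e1]
    exact hS
  rcases Nat.eq_zero_or_pos d with hd | hd
  · subst hd
    have : Matrix.diagonal lam = 1 := by
      ext a b
      exact a.elim0
    rw [this]
    exact h1
  obtain ⟨i₀⟩ : Nonempty (Fin d) := ⟨⟨0, hd⟩⟩
  have key : ∀ s : Finset (Fin d), i₀ ∉ s → Matrix.diagonal (fun l => if l ∈ s then lam l else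
      if l = i₀ then (∏ i ∈ s, lam i)⁻¹ else 1) ∈ S := by
    intro s
    induction s using Finset.induction_on with
    | empty =>
      intro _
      have : Matrix.diagonal (fun l : Fin d => if l ∈ (∅ : Finset (Fin d)) then lam l else
          if l = i₀ then (∏ i ∈ (∅ : Finset (Fin d)), lam i)⁻¹ else 1) = 1 := by
        rw [← Matrix.diagonal_one]
        congr 1
        funext l
        simp
      rw [this]
      exact h1
    | insert a s has ih =>
      intro hi
      rw [Finset.mem_insert, not_or] at hi
      have h2 := ih hi.2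
      have h3 := hD a i₀ (Ne.symm hi.1) (lam a) (hne a)
      have h4 := hmul _ h2 _ h3
      rw [Matrix.diagonal_mul_diagonal] at h4
      have e1 : (fun l => (if l ∈ s then lam l else if l = i₀ then (∏ i ∈ s, lam i)⁻¹ else 1) *
          (if l = a then lam a else if l = i₀ then (lam a)⁻¹ else 1)) =
          fun l => if l ∈ insert a s then lam l else
            if l = i₀ then (∏ i ∈ insert a s, lam i)⁻¹ else 1 := by
        funext l
        rw [Finset.prod_insert has]
        by_cases hla : l = a
        · subst hla
          simp [has, Ne.symm hi.1]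
        · by_cases hls : l ∈ s
          · have hli : l ≠ i₀ := fun h => hi.2 (h ▸ hls)
            simp [hla, hls, hli]
          · by_cases hli : l = i₀
            · subst hli
              simp [hla, hls, mul_comm]
            · simp [hla, hls, hli]
      rw [e1] at h4
      exact h4
  have h5 := key (Finset.univ.erase i₀) (Finset.notMem_erase _ _)
  have e2 : (fun l => if l ∈ Finset.univ.erase i₀ then lam l else
      if l = i₀ then (∏ i ∈ Finset.univ.erase i₀, lam i)⁻¹ else 1) = lam := by
    funext l
    by_cases hl : l = i₀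
    · subst hl
      rw [if_neg (Finset.notMem_erase _ _), if_pos rfl]
      rw [← Finset.mul_prod_erase _ _ (Finset.mem_univ l)] at hlam
      exact (eq_inv_of_mul_eq_one_left hlam).symm
    · rw [if_pos (Finset.mem_erase.2 ⟨hl, Finset.mem_univ _⟩)]
  rw [e2] at h5
  exact h5

/-- a commutator of transvections -/
theorem transvection_comm {i j k : Fin d} (hik : i ≠ k) (hkj : k ≠ j) (hij : i ≠ j) (t : K) :
    transvection i k 1 * transvection k j t * (transvection i k (-1) * transvection k j (-t)) =
      transvection i j t := by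
  have h := ring_comm (a := Matrix.single i k (1 : K)) (b := Matrix.single k j t)
    (Matrix.single_mul_single_of_ne _ _ _ _ (Ne.symm hik) _)
    (Matrix.single_mul_single_of_ne _ _ _ _ (Ne.symm hkj) _)
    (Matrix.single_mul_single_of_ne _ _ _ _ (Ne.symm hij) _)
  rw [Matrix.single_mul_single_same, one_mul] at h
  unfold transvection
  rw [← h]
  congr 2
  · rw [sub_eq_add_neg, ← Matrix.single_neg]
  · rw [sub_eq_add_neg, ← Matrix.single_neg]

end Pool.Agent.Helper36x.HC
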