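import Pool.Agent.Helper36x.HC.Cor3

/-!
# Translations by elliptic elements
-/

set_option autoImplicit false
set_option linter.unusedSectionVars false

open scoped Manifold ContDiff Topology NNReal
open Filter Set Metric MeasureTheory

universe u

namespace Pool.Agent.Helper36x.HC

open Pool.Agent.H718R2.G Pool.Agent.W564.SC Pool.Agent.TH382.QC Pool.Agent.E8helper46.FL
  Pool.Agent.TH80.CLX

variable {A : Type} [NormedRing A] [NormedAlgebra ℝ A] [FiniteDimensional ℝ A] [CompleteSpace A]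

theorem co_pow {d : ℕ} {M : MC d} {P : (MC d)ˣ} {lam : Fin d → ℂ} (H : DiagBy M P lam) (k : ℕ)
    (i j : Fin d) : co P (M ^ k) i j = Matrix.diagonal (fun i => lam i ^ k) i j := by
  have h1 : M ^ k = (P : MC d) * Matrix.diagonal lam ^ k * ((P⁻¹ : (MC d)ˣ) : MC d) := by
    rw [show M = _ from H, Units.conj_pow]
  unfold co
  rw [h1, Matrix.diagonal_pow]
  have h2 : ((P⁻¹ : (MC d)ˣ) : MC d) * ((P : MC d) * Matrix.diagonal (lam ^ k) *
      ((P⁻¹ : (MC d)ˣ) : MC d)) * (P : MC d) = Matrix.diagonal (lam ^ k) := by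
    calc _ = (((P⁻¹ : (MC d)ˣ) : MC d) * (P : MC d)) * Matrix.diagonal (lam ^ k) *
          (((P⁻¹ : (MC d)ˣ) : MC d) * (P : MC d)) := by simp only [mul_assoc]
      _ = _ := by rw [Units.inv_mul, one_mul, mul_one]
  rw [h2]
  rfl

/-- The powers of a diagonalizable matrix with eigenvalues of modulus one return to `1`. -/
theorem elliptic_return {d : ℕ} {e : A →ₐ[ℝ] MC d} (he : Function.Injective e) {h : Aˣ}
    {P : (MC d)ˣ} {lam : Fin d → ℂ} (H : DiagBy (e (h : A)) P lam) (hlam : ∀ i, ‖lam i‖ = 1)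
    (B : Set Aˣ) (hB : B ∈ 𝓝 (1 : Aˣ)) : ∃ k : ℕ, 1 ≤ k ∧ h ^ k ∈ B := by
  have hemb := Units.isOpenEmbedding_val (R := A)
  rw [hemb.isInducing.nhds_eq_comap 1] at hB
  obtain ⟨B', hB', hBB⟩ := hB
  rw [Units.val_one] at hB'
  obtain ⟨ε, hε, hεB⟩ := Metric.mem_nhds_iff.1 hB'
  obtain ⟨K, hK, hKY⟩ := co_norm he P
  obtain ⟨p, hp⟩ := synd lam hlam (ε / (K * d + 1)) (by positivity)
  obtain ⟨k, hk2, -, hk⟩ := hp 2
  obtain ⟨k', rfl⟩ : ∃ k', k = k' + 1 := ⟨k - 1, by omega⟩
  refine ⟨k', by omega, hBB ?_⟩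
  apply hεB
  rw [Metric.mem_ball, dist_eq_norm]
  show ‖((h ^ k' : Aˣ) : A) - 1‖ < ε
  have h1 : ∀ i, ‖lam i ^ k' - 1‖ < ε / (K * d + 1) := by
    intro i
    have h2 := hk i
    have h3 : lam i ^ (k' + 1) - lam i = lam i * (lam i ^ k' - 1) := by
      rw [pow_succ]; ring
    rwa [h3, norm_mul, hlam, one_mul] at h2
  have h4 : ∀ i j, co P (e (((h ^ k' : Aˣ) : A) - 1)) i j =
      Matrix.diagonal (fun i => lam i ^ k' - 1) i j := by
    intro i j
    have e1 : e (((h ^ k' : Aˣ) : A) - 1) + 1 = e (h : A) ^ k' := by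
      rw [map_sub, map_one, sub_add_cancel, Units.val_pow_eq_pow_val, map_pow]
    have e2 := co_add P (e (((h ^ k' : Aˣ) : A) - 1)) 1 i j
    rw [e1, co_pow H] at e2
    have e3 : co P (1 : MC d) i j = (1 : MC d) i j := by
      unfold co
      rw [mul_one, Units.inv_mul]
    rw [e3] at e2
    have e4 := eq_sub_of_add_eq e2.symm
    rw [e4]
    by_cases hij : i = j
    · subst hij
      simp
    · simp [Matrix.diagonal_apply_ne _ hij, Matrix.one_apply_ne hij]
  have h5 : ∑ i, ∑ j, ‖co P (e (((h ^ k' : Aˣ) : A) - 1)) i j‖ ≤ d * (ε / (K * d + 1)) := by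
    have h6 : ∀ i : Fin d, ∑ j, ‖co P (e (((h ^ k' : Aˣ) : A) - 1)) i j‖ ≤
        ε / (K * d + 1) := by
      intro i
      rw [Finset.sum_eq_single i]
      · rw [h4, Matrix.diagonal_apply_eq]
        exact (h1 i).le
      · intro j _ hij
        rw [h4, Matrix.diagonal_apply_ne _ (Ne.symm hij), norm_zero]
      · intro h
        exact absurd (Finset.mem_univ _) h
    refine (Finset.sum_le_sum fun i _ => h6 i).trans ?_
    rw [Finset.sum_const, Finset.card_univ, Fintype.card_fin, nsmul_eq_mul]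
  calc ‖((h ^ k' : Aˣ) : A) - 1‖ ≤ K * ∑ i, ∑ j, ‖co P (e (((h ^ k' : Aˣ) : A) - 1)) i j‖ :=
        hKY _
    _ ≤ K * (d * (ε / (K * d + 1))) := mul_le_mul_of_nonneg_left h5 hK
    _ = (K * d) / (K * d + 1) * ε := by ring
    _ < 1 * ε := by
      refine mul_lt_mul_of_pos_right ?_ hε
      rw [div_lt_one (by positivity)]
      linarith
    _ = ε := one_mul ε

variable {D : Subgroup Aˣ} {n : ℕ} {N : Type u} [TopologicalSpace N] [T2Space N]
  [ChartedSpace (V n) N] [IsManifold (𝓡 n) ∞ N] {r : ℕ∞} {F : DiffM n N r} {O : Set N}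
  {act : D → N → N} {z : N}

/-- Translations by elliptic elements can be closed at all points. -/
theorem elliptic_closing {d : ℕ} (e : A →ₐ[ℝ] MC d) (he : Function.Injective e)
    (hD : IsClosed (D : Set Aˣ)) (hact : IsAction n N D O act) (hzO : z ∈ O)
    (h : D) (P : (MC d)ˣ) (lam : Fin d → ℂ) (hh : DiagBy (e ((h : Aˣ) : A)) P lam)
    (hlam : ∀ i, ‖lam i‖ = 1) (hF : ∀ y ∈ O, F y = act h y) :
    LocallyClosable n N r F z := by
  obtain ⟨T, hT⟩ : ∃ T : Subgroup Aˣ, T = (Subgroup.zpowers (h : Aˣ)).topologicalClosure :=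
    ⟨_, rfl⟩
  have hTc : IsClosed (T : Set Aˣ) := by
    rw [hT]
    exact Subgroup.isClosed_topologicalClosure _
  have hTD : T ≤ D := by
    rw [hT]
    apply Subgroup.topologicalClosure_minimal _ _ hD
    rw [Subgroup.zpowers_le]
    exact h.2
  have hhT : (h : Aˣ) ∈ T := by
    rw [hT]
    exact Subgroup.le_topologicalClosure _ (Subgroup.mem_zpowers _)
  have hcomm : ∀ t ∈ T, t * (h : Aˣ) = (h : Aˣ) * t := by
    intro t ht
    have h1 : IsClosed {t : Aˣ | t * (h : Aˣ) = (h : Aˣ) * t} :=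
      isClosed_eq (continuous_id.mul continuous_const) (continuous_const.mul continuous_id)
    have h2 : closure ((Subgroup.zpowers (h : Aˣ) : Subgroup Aˣ) : Set Aˣ) ⊆
        {t : Aˣ | t * (h : Aˣ) = (h : Aˣ) * t} := by
      apply closure_minimal _ h1
      rintro _ ⟨k, rfl⟩
      exact ((Commute.refl (h : Aˣ)).zpow_left k).eq
    rw [hT] at ht
    exact h2 ht
  let inc : T → D := fun t => ⟨t, hTD t.2⟩
  have hinc : Continuous inc := continuous_subtype_val.subtype_mk _
  have hact' : IsAction n N T O (fun t y => act (inc t) y) :=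
    { isOpen := hact.isOpen
      maps := fun t y hy => hact.maps _ y hy
      one := fun y hy => hact.one y hy
      mul := fun s t y hy => hact.mul (inc s) (inc t) y hy
      cont := by
        have h1 : Continuous (fun p : T × N => ((inc p.1, p.2) : D × N)) :=
          (hinc.comp continuous_fst).prodMk continuous_snd
        exact hact.cont.comp h1.continuousOn (fun p hp => ⟨mem_univ _, hp.2⟩)
      smooth := fun j c hc => hact.smooth j (fun s => inc (c s)) hc }
  have hFh : ∀ t : T, F (act (inc t) z) = act (inc t) (F z) := by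
    intro t
    rw [hF _ (hact.maps _ _ hzO), hF _ hzO, ← hact.mul _ _ _ hzO, ← hact.mul _ _ _ hzO]
    congr 1
    apply Subtype.ext
    exact (hcomm t t.2).symm
  have hl : AffineLeaf F O (fun (t : T) y => act (inc t) y) (MonoidHom.id T) 1 z :=
    { pos := le_rfl
      mem := hzO
      ret := ⟨⟨h, hhT⟩, hF z hzO⟩
      equi := hFh
      away := by
        have e : {y | ∃ i : ℕ, ∃ g : T, 1 ≤ i ∧ i < 1 ∧ F^[i] (act (inc g) z) = y} = ∅ := by
          rw [eq_empty_iff_forall_notMem]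
          rintro y ⟨i, g, h1, h2, -⟩
          omega
        rw [e, closure_empty]
        exact notMem_empty _ }
  have hhyp : HypMod T hTc (MonoidHom.id T) := by
    refine ⟨LinearEquiv.refl ℝ _, fun X => rfl, fun X => ⟨X, 0, 0, by rw [add_zero, add_zero],
      rfl, ?_, ?_⟩⟩
    · simp only [itzero]
      exact tendsto_const_nhds
    · simp only [itzero]
      exact tendsto_const_nhds
  refine leaf_hyp (hD := hTc) hact' hl hhyp fun B hB => ?_
  rw [nhds_subtype_eq_comap] at hB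
  obtain ⟨B', hB', hBB⟩ := hB
  obtain ⟨k, hk, hkB⟩ := elliptic_return he hh hlam B' hB'
  have hkT : (h : Aˣ) ^ k ∈ T := T.pow_mem hhT k
  refine ⟨k, hk, 1, mem_of_mem_nhds (by rw [nhds_subtype_eq_comap]; exact ⟨B', hB', hBB⟩),
    ⟨(h : Aˣ) ^ k, hkT⟩, hBB hkB, ?_⟩
  rw [one_mul]
  show F^[k] (act 1 z) = act ⟨(h : Aˣ) ^ k, _⟩ z
  rw [hact.one z hzO]
  have h3 : ∀ k : ℕ, F^[k] z = act (h ^ k) z := by
    intro k
    induction k with
    | zero => rw [pow_zero, hact.one z hzO]; rfl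
    | succ k ih => rw [Function.iterate_succ_apply', ih, hF _ (hact.maps _ _ hzO),
        ← hact.mul _ _ _ hzO, pow_succ']
  rw [h3]
  rfl

end Pool.Agent.Helper36x.HC
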