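import Pool.Agent.Helper36x.HC.SL

/-!
# Translations of homogeneous manifolds of finite volume: packaged statements
-/

set_option autoImplicit false
set_option linter.unusedSectionVars false

open scoped Manifold ContDiff Topology NNReal
open Filter Set Metric MeasureTheory

universe u

namespace Pool.Agent.Helper36x.HC

open Pool.Agent.H718R2.G Pool.Agent.W564.SC Pool.Agent.TH382.QC Pool.Agent.E8helper46.FL
  Pool.Agent.TH80.CLX

variable {n : ℕ} {N : Type u} [TopologicalSpace N] [T2Space N] [ChartedSpace (V n) N]
  [IsManifold (𝓡 n) ∞ N]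

theorem FiniteVolume.mpact {A : Type} [NormedRing A] [NormedAlgebra ℝ A] [FiniteDimensional ℝ A]
    [CompleteSpace A] {D : Subgroup Aˣ} {act : D → N → N} [MeasurableSpace N]
    {μ : Measure N} {z : N} (H : FiniteVolume n N D act μ z) : MPAct act μ :=
  { one := fun y => H.action.one y (mem_univ _)
    mul := fun g h y => H.action.mul g h y (mem_univ _)
    cont := by
      have h1 := H.action.cont
      rw [univ_prod_univ] at h1
      exact continuousOn_univ.1 h1
    mp := H.inv }

theorem IsSLTranslation.good {F : N → N} {z : N} (h : IsSLTranslation n N F z) :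
    IsGoodTranslation n N F z := by
  obtain ⟨A, i1, i2, i3, i4, K, i5, i6, ι, d, E, act, i7, i8, μ, h, P, lam, H, hd, hF⟩ := h
  have := H.finite
  have := H.reg
  exact ⟨A, i1, i2, i3, i4, SLsub E, act, d, repC ι E, i7, i8, μ, h, repC_inj ι E, H,
    sl_good H.mpact hd, hF⟩

/-- The local closing theorem. -/
theorem closing {r : ℕ∞} (F : DiffM n N r) (z : N)
    (h : IsAffinePt n N F z ∨ IsGoodTranslation n N F z ∨ IsSLTranslation n N F z) :
    LocallyClosable n N r F z := by
  have hg : IsGoodTranslation n N F z → LocallyClosable n N r F z := by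
    rintro ⟨A, i1, i2, i3, i4, D, act, d, e, i7, i8, μ, h, he, H, hh, hF⟩
    exact finite_volume e he H h hh F hF
  rcases h with h | h | h
  · exact fun W hW U hU hFU => local_closing r F z h W hW U hU hFU
  · exact hg h
  · exact hg h.good

/-- Limits, closed manifolds. -/
theorem closing_limits [CompactSpace N] {r : ℕ∞} (F : DiffM n N r) (z : N)
    (h : ∀ U : Set (DiffM n N r), IsOpen[strongTop n N r] U → F ∈ U →
      ∃ F' ∈ U, z ∈ closure {y | IsAffinePt n N F' y ∨ IsGoodTranslation n N F' y ∨
        IsSLTranslation n N F' y}) :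
    ClosableAt n N r F z := by
  refine Pool.Agent.TH382.HS.closable_of_limit F z fun U hU hFU => ?_
  obtain ⟨F', hF', hz⟩ := h U hU hFU
  refine ⟨F', hF', closure_mono ?_ hz⟩
  intro y hy V hV hFV
  obtain ⟨G, hG, hper, -⟩ := closing F' y hy univ univ_mem V hV hFV
  exact ⟨G, hG, hper⟩

end Pool.Agent.Helper36x.HC
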