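import Pool.Agent.E8helper46.FL.ExpLie

/-!
# An equation in a closed linear group, solved uniformly in contracting parameters
-/

set_option autoImplicit false

namespace Pool.Agent.Helper36x.HC

open Set Filter Topology NormedSpace Pool.Agent.E8helper46.FL

section

variable {A : Type*} [NormedRing A] [NormedAlgebra ℝ A] [FiniteDimensional ℝ A] [CompleteSpace A]

/-- Elements of a closed subgroup close to `1` are exponentials of small elements of the Lie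
algebra. -/
theorem near_small (D : Subgroup Aˣ) (hD : IsClosed (D : Set Aˣ)) {ε : ℝ} (hε : 0 < ε) :
    ∀ᶠ u : Aˣ in 𝓝 1, u ∈ D → ∃ X ∈ lieAlg D hD, ‖X‖ < ε ∧ u = ex X := by
  obtain ⟨m, hm⟩ := (lieAlg D hD).exists_isCompl
  obtain ⟨e, he⟩ : ∃ e : (lieAlg D hD × m) ≃L[ℝ] A, ∀ p, e p = (p.1 : A) + p.2 := by
    refine ⟨(Submodule.prodEquivOfIsCompl _ _ hm).toContinuousLinearEquiv, fun p => ?_⟩
    simp
  obtain ⟨ψ, hψ⟩ : ∃ ψ : lieAlg D hD × m → A, ψ = fun p => exp (p.1 : A) * exp (p.2 : A) :=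
    ⟨_, rfl⟩
  have hψ0 : ψ 0 = 1 := by rw [hψ]; simp
  have hψd : HasStrictFDerivAt ψ (e : (lieAlg D hD × m) →L[ℝ] A) 0 := by
    have h1 : HasStrictFDerivAt (fun p : lieAlg D hD × m => exp (p.1 : A))
        ((lieAlg D hD).subtypeL.comp (ContinuousLinearMap.fst ℝ _ _)) 0 := by
      have h := (hasStrictFDerivAt_exp_zero (𝕂 := ℝ) (𝔸 := A))
      have h' : HasStrictFDerivAt (exp : A → A) (1 : A →L[ℝ] A)
          (((lieAlg D hD).subtypeL.comp (ContinuousLinearMap.fst ℝ (lieAlg D hD) m)) 0) := by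
        simpa using h
      exact h'.comp 0 ((lieAlg D hD).subtypeL.comp
        (ContinuousLinearMap.fst ℝ (lieAlg D hD) m)).hasStrictFDerivAt
    have h2 : HasStrictFDerivAt (fun p : lieAlg D hD × m => exp (p.2 : A))
        (m.subtypeL.comp (ContinuousLinearMap.snd ℝ _ _)) 0 := by
      have h := (hasStrictFDerivAt_exp_zero (𝕂 := ℝ) (𝔸 := A))
      have h' : HasStrictFDerivAt (exp : A → A) (1 : A →L[ℝ] A)
          ((m.subtypeL.comp (ContinuousLinearMap.snd ℝ (lieAlg D hD) m)) 0) := by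
        simpa using h
      exact h'.comp 0 (m.subtypeL.comp
        (ContinuousLinearMap.snd ℝ (lieAlg D hD) m)).hasStrictFDerivAt
    have h3 := h1.mul' h2
    rw [hψ]
    refine h3.congr_fderiv ?_
    ext p
    · simp [he]
    · simp [he]
  obtain ⟨L, hL⟩ : ∃ L, L = hψd.localInverse _ _ _ := ⟨_, rfl⟩
  have hL1 : ∀ᶠ y in 𝓝 (1 : A), ψ (L y) = y := by
    have := hψd.eventually_right_inverse
    rwa [hψ0, ← hL] at this
  have hL2 : Tendsto L (𝓝 1) (𝓝 0) := by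
    have := hψd.localInverse_tendsto
    rwa [hψ0, ← hL] at this
  by_contra hcon
  have hfr : ∃ᶠ u : Aˣ in 𝓝 1, u ∈ D ∧ ∀ X ∈ lieAlg D hD, ‖X‖ < ε → u ≠ ex X := by
    intro h
    apply hcon
    filter_upwards [h] with u hu huD
    by_contra h'
    push Not at h'
    exact hu ⟨huD, h'⟩
  have hfc : FirstCountableTopology Aˣ :=
    (Units.isOpenEmbedding_val (R := A)).isInducing.firstCountableTopology
  obtain ⟨u, hu1, hu2⟩ := exists_seq_forall_of_frequently hfr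
  have huv : Tendsto (fun n => (u n : A)) atTop (𝓝 1) := by
    have := (Units.continuous_val (M := A)).tendsto 1
    exact this.comp hu1
  have hp : Tendsto (fun n => L (u n)) atTop (𝓝 0) := hL2.comp huv
  have hex : ∀ᶠ n in atTop, u n = ex ((L (u n)).1 : A) * ex ((L (u n)).2 : A) := by
    filter_upwards [huv.eventually hL1] with n hn
    ext
    rw [Units.val_mul, ex_val, ex_val]
    rw [hψ] at hn
    exact hn.symm
  have hsm : ∀ᶠ n in atTop, ‖((L (u n)).1 : A)‖ < ε := by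
    have h1 := ((continuous_fst (X := lieAlg D hD) (Y := m)).tendsto 0).comp hp
    have h2 := h1.norm
    rw [Prod.fst_zero, norm_zero] at h2
    exact h2.eventually (gt_mem_nhds hε)
  have hZ0 : ∀ᶠ n in atTop, (L (u n)).2 ≠ 0 := by
    filter_upwards [hex, hsm] with n hn hn2 h0
    rw [h0, Submodule.coe_zero, ex_zero, mul_one] at hn
    exact (hu2 n).2 _ (L (u n)).1.2 hn2 hn
  have hZD : ∀ᶠ n in atTop, ex ((L (u n)).2 : A) ∈ D := by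
    filter_upwards [hex] with n hn
    have h1 : ex ((L (u n)).2 : A) = (ex ((L (u n)).1 : A))⁻¹ * u n := by
      rw [eq_inv_mul_iff_mul_eq]
      exact hn.symm
    rw [h1]
    exact D.mul_mem (D.inv_mem (ex_mem (L (u n)).1.2)) (hu2 n).1
  have hZt : Tendsto (fun n => (L (u n)).2) atTop (𝓝 0) := by
    have := (continuous_snd (X := lieAlg D hD) (Y := m)).tendsto 0
    exact this.comp hp
  -- normalize
  have hsph : ∀ᶠ n in atTop, (‖(L (u n)).2‖⁻¹ • (L (u n)).2) ∈ Metric.sphere (0 : m) 1 := by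
    filter_upwards [hZ0] with n hn
    rw [mem_sphere_zero_iff_norm, norm_smul, norm_inv, norm_norm,
      inv_mul_cancel₀ (norm_ne_zero_iff.2 hn)]
  obtain ⟨Z, hZ, φ, hφ, hlim⟩ := (isCompact_sphere (0 : m) 1).tendsto_subseq' hsph.frequently
  have hr : Tendsto (fun n => ‖(L (u n)).2‖⁻¹) atTop atTop := by
    refine tendsto_inv_nhdsGT_zero.comp ?_
    rw [tendsto_nhdsWithin_iff]
    refine ⟨?_, ?_⟩
    · have := hZt.norm
      rwa [norm_zero] at this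
    · filter_upwards [hZ0] with n hn
      exact norm_pos_iff.2 hn
  have hmem : (Z : A) ∈ lieAlg D hD := by
    refine limit_power D hD Z (fun n => ((L (u (φ n))).2 : A)) (fun n => ‖(L (u (φ n))).2‖⁻¹)
      (hr.comp hφ.tendsto_atTop) (hφ.tendsto_atTop.eventually hZD) ?_
    have := (m.subtypeL.continuous.tendsto Z).comp hlim
    exact this
  have h0 : (Z : A) = 0 := by
    have h1 : (Z : A) ∈ lieAlg D hD ⊓ m := ⟨hmem, Z.2⟩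
    rw [hm.inf_eq_bot] at h1
    exact (Submodule.mem_bot ℝ).1 h1
  have h1 : Z = 0 := Subtype.ext h0
  rw [h1, mem_sphere_zero_iff_norm, norm_zero] at hZ
  exact zero_ne_one hZ

omit [FiniteDimensional ℝ A] in
theorem lg_exp : ∀ᶠ x in 𝓝 (0 : A), lg (exp x) = x :=
  (exp_strict (A := A)).eventually_left_inverse

omit [FiniteDimensional ℝ A] in
theorem lg_strict : HasStrictFDerivAt (lg : A → A) (ContinuousLinearMap.id ℝ A) 1 := by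
  have := (exp_strict (A := A)).to_localInverse
  rw [exp_zero] at this
  exact this

variable {P : Type*} [NormedAddCommGroup P] [NormedSpace ℝ P]

omit [FiniteDimensional ℝ A] in
theorem sd_exp {g : P → A} {g' : P →L[ℝ] A} (hg : HasStrictFDerivAt g g' 0) (h0 : g 0 = 0) :
    HasStrictFDerivAt (fun p => exp (g p)) g' 0 := by
  have h := (hasStrictFDerivAt_exp_zero (𝕂 := ℝ) (𝔸 := A))
  rw [← h0] at h
  exact (h.comp 0 hg).congr_fderiv (by ext; simp)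

omit [FiniteDimensional ℝ A] [CompleteSpace A] in
theorem sd_mul {f g : P → A} {f' g' : P →L[ℝ] A} (hf : HasStrictFDerivAt f f' 0)
    (hg : HasStrictFDerivAt g g' 0) (hf0 : f 0 = 1) (hg0 : g 0 = 1) :
    HasStrictFDerivAt (fun p => f p * g p) (f' + g') 0 := by
  refine (hf.mul' hg).congr_fderiv ?_
  ext p
  simp [hf0, hg0]
  abel

end

section

variable {A : Type*} [NormedRing A] [NormedAlgebra ℝ A] [CompleteSpace A]
  {g E0 E1 E2 : Type*} [NormedAddCommGroup g] [NormedSpace ℝ g] [NormedAddCommGroup E0]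
  [NormedSpace ℝ E0] [NormedAddCommGroup E1] [NormedSpace ℝ E1] [NormedAddCommGroup E2]
  [NormedSpace ℝ E2] [CompleteSpace g] [CompleteSpace E0] [CompleteSpace E1] [CompleteSpace E2]


/-- the product of five exponentials -/
noncomputable def Psi (i : g →L[ℝ] A) (j0 : E0 →L[ℝ] g) (j1 : E1 →L[ℝ] g) (j2 : E2 →L[ℝ] g)
    (T₀ : E1 →L[ℝ] g) (S₀ : E2 →L[ℝ] g) (p : ((E1 →L[ℝ] g) × (E2 →L[ℝ] g) × (E1 × E2 × E0))) : A :=
  exp (-(i ((T₀ + p.1) p.2.2.1))) * exp (-(i (j2 p.2.2.2.1))) * exp (-(i (j0 p.2.2.2.2))) *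
    exp (i ((S₀ + p.2.1) p.2.2.2.1)) * exp (i (j1 p.2.2.1))

omit [CompleteSpace A] [CompleteSpace g] [CompleteSpace E0] [CompleteSpace E1] [CompleteSpace E2] in
theorem psi_zero (i : g →L[ℝ] A) (j0 : E0 →L[ℝ] g) (j1 : E1 →L[ℝ] g) (j2 : E2 →L[ℝ] g)
    (T₀ : E1 →L[ℝ] g) (S₀ : E2 →L[ℝ] g) : Psi i j0 j1 j2 T₀ S₀ 0 = 1 := by
  simp [Psi]

omit [CompleteSpace g] [CompleteSpace E0] [CompleteSpace E1] [CompleteSpace E2] in
theorem psi_strict (i : g →L[ℝ] A) (j0 : E0 →L[ℝ] g) (j1 : E1 →L[ℝ] g) (j2 : E2 →L[ℝ] g)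
    (T₀ : E1 →L[ℝ] g) (S₀ : E2 →L[ℝ] g) :
    ∃ d : ((E1 →L[ℝ] g) × (E2 →L[ℝ] g) × (E1 × E2 × E0)) →L[ℝ] A, (∀ p : ((E1 →L[ℝ] g) × (E2 →L[ℝ] g) × (E1 × E2 × E0)), d p = i (j1 p.2.2.1 - T₀ p.2.2.1) -
      i (j2 p.2.2.2.1 - S₀ p.2.2.2.1) - i (j0 p.2.2.2.2)) ∧
      HasStrictFDerivAt (Psi i j0 j1 j2 T₀ S₀) d 0 := by
  obtain ⟨pT, hpT⟩ : ∃ f : ((E1 →L[ℝ] g) × (E2 →L[ℝ] g) × (E1 × E2 × E0)) →L[ℝ] (E1 →L[ℝ] g), ∀ p, f p = p.1 :=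
    ⟨ContinuousLinearMap.fst ℝ _ _, fun p => rfl⟩
  obtain ⟨pS, hpS⟩ : ∃ f : ((E1 →L[ℝ] g) × (E2 →L[ℝ] g) × (E1 × E2 × E0)) →L[ℝ] (E2 →L[ℝ] g), ∀ p, f p = p.2.1 :=
    ⟨(ContinuousLinearMap.fst ℝ _ _).comp (ContinuousLinearMap.snd ℝ _ _), fun p => rfl⟩
  obtain ⟨pX, hpX⟩ : ∃ f : ((E1 →L[ℝ] g) × (E2 →L[ℝ] g) × (E1 × E2 × E0)) →L[ℝ] E1, ∀ p, f p = p.2.2.1 :=
    ⟨(ContinuousLinearMap.fst ℝ _ _).comp ((ContinuousLinearMap.snd ℝ _ _).comp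
      (ContinuousLinearMap.snd ℝ _ _)), fun p => rfl⟩
  obtain ⟨pY, hpY⟩ : ∃ f : ((E1 →L[ℝ] g) × (E2 →L[ℝ] g) × (E1 × E2 × E0)) →L[ℝ] E2, ∀ p, f p = p.2.2.2.1 :=
    ⟨(ContinuousLinearMap.fst ℝ _ _).comp ((ContinuousLinearMap.snd ℝ _ _).comp
      ((ContinuousLinearMap.snd ℝ _ _).comp (ContinuousLinearMap.snd ℝ _ _))), fun p => rfl⟩
  obtain ⟨pZ, hpZ⟩ : ∃ f : ((E1 →L[ℝ] g) × (E2 →L[ℝ] g) × (E1 × E2 × E0)) →L[ℝ] E0, ∀ p, f p = p.2.2.2.2 :=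
    ⟨(ContinuousLinearMap.snd ℝ _ _).comp ((ContinuousLinearMap.snd ℝ _ _).comp
      ((ContinuousLinearMap.snd ℝ _ _).comp (ContinuousLinearMap.snd ℝ _ _))), fun p => rfl⟩
  have h1 : HasStrictFDerivAt (fun p : ((E1 →L[ℝ] g) × (E2 →L[ℝ] g) × (E1 × E2 × E0)) => -(i ((T₀ + p.1) p.2.2.1)))
      (-(i.comp (T₀.comp pX))) 0 := by
    have a0 : HasStrictFDerivAt (fun p : ((E1 →L[ℝ] g) × (E2 →L[ℝ] g) × (E1 × E2 × E0)) => (T₀ + pT p) (pX p)) (T₀.comp pX) 0 := by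
      refine (((hasStrictFDerivAt_const T₀ (0 : ((E1 →L[ℝ] g) × (E2 →L[ℝ] g) × (E1 × E2 × E0)))).add
        (pT.hasStrictFDerivAt (x := 0))).clm_apply (pX.hasStrictFDerivAt (x := 0))).congr_fderiv ?_
      ext p
      all_goals simp
    have a1 : HasStrictFDerivAt (fun p : ((E1 →L[ℝ] g) × (E2 →L[ℝ] g) × (E1 × E2 × E0)) => -(i ((T₀ + pT p) (pX p))))
        (-(i.comp (T₀.comp pX))) 0 :=
      (i.hasStrictFDerivAt.comp (0 : ((E1 →L[ℝ] g) × (E2 →L[ℝ] g) × (E1 × E2 × E0))) a0).neg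
    simpa only [hpT, hpX] using a1
  have h4 : HasStrictFDerivAt (fun p : ((E1 →L[ℝ] g) × (E2 →L[ℝ] g) × (E1 × E2 × E0)) => (i ((S₀ + p.2.1) p.2.2.2.1)))
      (i.comp (S₀.comp pY)) 0 := by
    have a0 : HasStrictFDerivAt (fun p : ((E1 →L[ℝ] g) × (E2 →L[ℝ] g) × (E1 × E2 × E0)) => (S₀ + pS p) (pY p)) (S₀.comp pY) 0 := by
      refine (((hasStrictFDerivAt_const S₀ (0 : ((E1 →L[ℝ] g) × (E2 →L[ℝ] g) × (E1 × E2 × E0)))).add
        (pS.hasStrictFDerivAt (x := 0))).clm_apply (pY.hasStrictFDerivAt (x := 0))).congr_fderiv ?_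
      ext p
      all_goals simp
    have a1 : HasStrictFDerivAt (fun p : ((E1 →L[ℝ] g) × (E2 →L[ℝ] g) × (E1 × E2 × E0)) => (i ((S₀ + pS p) (pY p))))
        (i.comp (S₀.comp pY)) 0 :=
      i.hasStrictFDerivAt.comp (0 : ((E1 →L[ℝ] g) × (E2 →L[ℝ] g) × (E1 × E2 × E0))) a0
    simpa only [hpS, hpY] using a1
  have h2 : HasStrictFDerivAt (fun p : ((E1 →L[ℝ] g) × (E2 →L[ℝ] g) × (E1 × E2 × E0)) => -(i (j2 p.2.2.2.1))) (-(i.comp (j2.comp pY))) 0 := by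
    have e : (fun p : ((E1 →L[ℝ] g) × (E2 →L[ℝ] g) × (E1 × E2 × E0)) => -(i (j2 p.2.2.2.1))) = ⇑(-(i.comp (j2.comp pY))) := by
      funext p; simp [hpY]
    rw [e]
    exact (-(i.comp (j2.comp pY))).hasStrictFDerivAt
  have h3 : HasStrictFDerivAt (fun p : ((E1 →L[ℝ] g) × (E2 →L[ℝ] g) × (E1 × E2 × E0)) => -(i (j0 p.2.2.2.2))) (-(i.comp (j0.comp pZ))) 0 := by
    have e : (fun p : ((E1 →L[ℝ] g) × (E2 →L[ℝ] g) × (E1 × E2 × E0)) => -(i (j0 p.2.2.2.2))) = ⇑(-(i.comp (j0.comp pZ))) := by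
      funext p; simp [hpZ]
    rw [e]
    exact (-(i.comp (j0.comp pZ))).hasStrictFDerivAt
  have h5 : HasStrictFDerivAt (fun p : ((E1 →L[ℝ] g) × (E2 →L[ℝ] g) × (E1 × E2 × E0)) => (i (j1 p.2.2.1))) (i.comp (j1.comp pX)) 0 := by
    have e : (fun p : ((E1 →L[ℝ] g) × (E2 →L[ℝ] g) × (E1 × E2 × E0)) => i (j1 p.2.2.1)) = ⇑(i.comp (j1.comp pX)) := by
      funext p; simp [hpX]
    rw [e]
    exact (i.comp (j1.comp pX)).hasStrictFDerivAt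
  have e12 := sd_mul (sd_exp h1 (by simp)) (sd_exp h2 (by simp)) (by simp) (by simp)
  have e123 := sd_mul e12 (sd_exp h3 (by simp)) (by simp) (by simp)
  have e1234 := sd_mul e123 (sd_exp h4 (by simp)) (by simp) (by simp)
  have e12345 := sd_mul e1234 (sd_exp h5 (by simp)) (by simp) (by simp)
  refine ⟨_, fun p => ?_, e12345⟩
  simp only [add_apply, neg_apply, ContinuousLinearMap.comp_apply, hpX, hpY, hpZ, map_sub]
  abel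

theorem openness (i : g →L[ℝ] A) (Q : A →L[ℝ] g) (hQ : ∀ x, Q (i x) = x) (j0 : E0 →L[ℝ] g)
    (j1 : E1 →L[ℝ] g) (j2 : E2 →L[ℝ] g) (T₀ : E1 →L[ℝ] g) (S₀ : E2 →L[ℝ] g)
    (hE : ∀ X : g, ∃ x0 x1 x2, X = j0 x0 + (j1 x1 - T₀ x1) + (j2 x2 - S₀ x2))
    {ε ε₂ : ℝ} (hε : 0 < ε) (hε₂ : 0 < ε₂) :
    ∃ δ : ℝ, 0 < δ ∧ ∀ (T : E1 →L[ℝ] g) (S : E2 →L[ℝ] g) (η : g), ‖T‖ < δ → ‖S‖ < δ → ‖η‖ < δ →
      ∃ (X : E1) (Y : E2) (ζ : E0), ‖X‖ < ε ∧ ‖Y‖ < ε ∧ ‖ζ‖ < ε ∧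
        ‖Psi i j0 j1 j2 T₀ S₀ (T, S, X, Y, ζ) - 1‖ < ε₂ ∧
        Q (lg (Psi i j0 j1 j2 T₀ S₀ (T, S, X, Y, ζ))) = η := by
  obtain ⟨d, hd, hΨ⟩ := psi_strict i j0 j1 j2 T₀ S₀
  have hΨ0 := psi_zero i j0 j1 j2 T₀ S₀
  have hlg : HasStrictFDerivAt (fun p : ((E1 →L[ℝ] g) × (E2 →L[ℝ] g) × (E1 × E2 × E0)) => Q (lg (Psi i j0 j1 j2 T₀ S₀ p))) (Q.comp d) 0 := by
    have a1 := lg_strict (A := A)
    rw [← hΨ0] at a1
    have a2 := Q.hasStrictFDerivAt.comp (0 : ((E1 →L[ℝ] g) × (E2 →L[ℝ] g) × (E1 × E2 × E0))) (a1.comp (0 : ((E1 →L[ℝ] g) × (E2 →L[ℝ] g) × (E1 × E2 × E0))) hΨ)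
    exact a2.congr_fderiv (by ext <;> simp)
  let pT : ((E1 →L[ℝ] g) × (E2 →L[ℝ] g) × (E1 × E2 × E0)) →L[ℝ] (E1 →L[ℝ] g) := ContinuousLinearMap.fst ℝ _ _
  let pS : ((E1 →L[ℝ] g) × (E2 →L[ℝ] g) × (E1 × E2 × E0)) →L[ℝ] (E2 →L[ℝ] g) := (ContinuousLinearMap.fst ℝ _ _).comp
    (ContinuousLinearMap.snd ℝ _ _)
  have hΘ : HasStrictFDerivAt (fun p : ((E1 →L[ℝ] g) × (E2 →L[ℝ] g) × (E1 × E2 × E0)) => (p.1, p.2.1, Q (lg (Psi i j0 j1 j2 T₀ S₀ p))))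
      (pT.prod (pS.prod (Q.comp d))) 0 :=
    (pT.hasStrictFDerivAt).prodMk ((pS.hasStrictFDerivAt).prodMk hlg)
  have hsurj : (pT.prod (pS.prod (Q.comp d))).range = ⊤ := by
    rw [LinearMap.range_eq_top]
    rintro ⟨T, S, η⟩
    obtain ⟨x0, x1, x2, hη⟩ := hE η
    refine ⟨(T, S, x1, -x2, -x0), ?_⟩
    have e1 : Q (d (T, S, x1, -x2, -x0)) = η := by
      rw [hd]
      rw [← map_sub, ← map_sub, hQ, hη]
      simp only [map_neg]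
      abel
    exact Prod.ext rfl (Prod.ext rfl e1)
  have hmap := hΘ.map_nhds_eq_of_surj hsurj
  have hΘ0 : ((0 : ((E1 →L[ℝ] g) × (E2 →L[ℝ] g) × (E1 × E2 × E0))).1, (0 : ((E1 →L[ℝ] g) × (E2 →L[ℝ] g) × (E1 × E2 × E0))).2.1, Q (lg (Psi i j0 j1 j2 T₀ S₀ 0))) = 0 := by
    rw [hΨ0, lg_one, map_zero]
    rfl
  rw [hΘ0] at hmap
  have hW : {p : ((E1 →L[ℝ] g) × (E2 →L[ℝ] g) × (E1 × E2 × E0)) | ‖p.2.2.1‖ < ε ∧ ‖p.2.2.2.1‖ < ε ∧ ‖p.2.2.2.2‖ < ε ∧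
      ‖Psi i j0 j1 j2 T₀ S₀ p - 1‖ < ε₂} ∈ 𝓝 (0 : ((E1 →L[ℝ] g) × (E2 →L[ℝ] g) × (E1 × E2 × E0))) := by
    have c1 : ∀ᶠ p : ((E1 →L[ℝ] g) × (E2 →L[ℝ] g) × (E1 × E2 × E0)) in 𝓝 0, ‖p.2.2.1‖ < ε := by
      have : Tendsto (fun p : ((E1 →L[ℝ] g) × (E2 →L[ℝ] g) × (E1 × E2 × E0)) => ‖p.2.2.1‖) (𝓝 0) (𝓝 ‖(0 : ((E1 →L[ℝ] g) × (E2 →L[ℝ] g) × (E1 × E2 × E0))).2.2.1‖) :=
        (by fun_prop : Continuous (fun p : ((E1 →L[ℝ] g) × (E2 →L[ℝ] g) × (E1 × E2 × E0)) => ‖p.2.2.1‖)).tendsto 0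
      simp only [Prod.snd_zero, Prod.fst_zero, norm_zero] at this
      exact this.eventually (gt_mem_nhds hε)
    have c2 : ∀ᶠ p : ((E1 →L[ℝ] g) × (E2 →L[ℝ] g) × (E1 × E2 × E0)) in 𝓝 0, ‖p.2.2.2.1‖ < ε := by
      have : Tendsto (fun p : ((E1 →L[ℝ] g) × (E2 →L[ℝ] g) × (E1 × E2 × E0)) => ‖p.2.2.2.1‖) (𝓝 0) (𝓝 ‖(0 : ((E1 →L[ℝ] g) × (E2 →L[ℝ] g) × (E1 × E2 × E0))).2.2.2.1‖) :=
        (by fun_prop : Continuous (fun p : ((E1 →L[ℝ] g) × (E2 →L[ℝ] g) × (E1 × E2 × E0)) => ‖p.2.2.2.1‖)).tendsto 0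
      simp only [Prod.snd_zero, Prod.fst_zero, norm_zero] at this
      exact this.eventually (gt_mem_nhds hε)
    have c3 : ∀ᶠ p : ((E1 →L[ℝ] g) × (E2 →L[ℝ] g) × (E1 × E2 × E0)) in 𝓝 0, ‖p.2.2.2.2‖ < ε := by
      have : Tendsto (fun p : ((E1 →L[ℝ] g) × (E2 →L[ℝ] g) × (E1 × E2 × E0)) => ‖p.2.2.2.2‖) (𝓝 0) (𝓝 ‖(0 : ((E1 →L[ℝ] g) × (E2 →L[ℝ] g) × (E1 × E2 × E0))).2.2.2.2‖) :=
        (by fun_prop : Continuous (fun p : ((E1 →L[ℝ] g) × (E2 →L[ℝ] g) × (E1 × E2 × E0)) => ‖p.2.2.2.2‖)).tendsto 0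
      simp only [Prod.snd_zero, norm_zero] at this
      exact this.eventually (gt_mem_nhds hε)
    have c4 : ∀ᶠ p : ((E1 →L[ℝ] g) × (E2 →L[ℝ] g) × (E1 × E2 × E0)) in 𝓝 0, ‖Psi i j0 j1 j2 T₀ S₀ p - 1‖ < ε₂ := by
      have h := (hΨ.continuousAt.sub (continuousAt_const (y := (1 : A)))).norm
      have h' : Tendsto (fun p => ‖Psi i j0 j1 j2 T₀ S₀ p - 1‖) (𝓝 0)
        (𝓝 ‖Psi i j0 j1 j2 T₀ S₀ 0 - 1‖) := h
      rw [hΨ0, sub_self, norm_zero] at h'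
      exact h'.eventually (gt_mem_nhds hε₂)
    filter_upwards [c1, c2, c3, c4] with p a b c d
    exact ⟨a, b, c, d⟩
  have himg := image_mem_map (m := fun p : ((E1 →L[ℝ] g) × (E2 →L[ℝ] g) × (E1 × E2 × E0)) => (p.1, p.2.1, Q (lg (Psi i j0 j1 j2 T₀ S₀ p)))) hW
  rw [hmap] at himg
  obtain ⟨δ₁, hδ₁, hball⟩ := Metric.mem_nhds_iff.1 himg
  refine ⟨δ₁, hδ₁, fun T S η hT hS hη => ?_⟩
  have hmem : ((T, S, η) : (E1 →L[ℝ] g) × (E2 →L[ℝ] g) × g) ∈ Metric.ball 0 δ₁ := by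
    rw [Metric.mem_ball, dist_zero_right]
    exact max_lt hT (max_lt hS hη)
  obtain ⟨p, ⟨hp1, hp2, hp3, hp4⟩, hp⟩ := hball hmem
  have q1 : p.1 = T := congrArg Prod.fst hp
  have q2 : p.2.1 = S := congrArg (fun x => x.2.1) hp
  have q3 : Q (lg (Psi i j0 j1 j2 T₀ S₀ p)) = η := congrArg (fun x => x.2.2) hp
  have q4 : p = (T, S, p.2.2.1, p.2.2.2.1, p.2.2.2.2) := by
    rw [← q1, ← q2]
  rw [q4] at q3 hp4
  exact ⟨p.2.2.1, p.2.2.2.1, p.2.2.2.2, hp1, hp2, hp3, hp4, q3⟩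

end

section

variable {A : Type*} [NormedRing A] [NormedAlgebra ℝ A] [FiniteDimensional ℝ A] [CompleteSpace A]
  (D : Subgroup Aˣ) (hD : IsClosed (D : Set Aˣ))

/-- The equation, uniformly in the parameters `T`, `S` close to `T₀`, `S₀`. -/
theorem solve (E0 E1 E2 : Submodule ℝ (lieAlg D hD)) (T₀ : E1 →L[ℝ] lieAlg D hD)
    (S₀ : E2 →L[ℝ] lieAlg D hD)
    (hE : ∀ X : lieAlg D hD, ∃ (x0 : E0) (x1 : E1) (x2 : E2),
      X = (x0 : lieAlg D hD) + ((x1 : lieAlg D hD) - T₀ x1) + ((x2 : lieAlg D hD) - S₀ x2))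
    {ε : ℝ} (hε : 0 < ε) :
    ∃ δ : ℝ, 0 < δ ∧ ∀ (T : E1 →L[ℝ] lieAlg D hD) (S : E2 →L[ℝ] lieAlg D hD), ‖T - T₀‖ < δ →
      ‖S - S₀‖ < δ →
      ∀ b : Aˣ, b ∈ D → ‖(b : A) - 1‖ < δ → ∃ (X : E1) (Y : E2) (ζ : E0),
        ‖X‖ < ε ∧ ‖Y‖ < ε ∧ ‖ζ‖ < ε ∧
        b = ex (-(T X : A)) * ex (-((Y : lieAlg D hD) : A)) * ex (-((ζ : lieAlg D hD) : A)) *
          ex (S Y : A) * ex ((X : lieAlg D hD) : A) := by
  classical
  obtain ⟨Q, hQ⟩ : ∃ Q : A →L[ℝ] lieAlg D hD, ∀ x : lieAlg D hD, Q x = x := by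
    obtain ⟨q, hq⟩ := (lieAlg D hD).subtype.exists_leftInverse_of_injective
      (Submodule.ker_subtype _)
    refine ⟨LinearMap.toContinuousLinearMap q, fun x => ?_⟩
    have := congrArg (fun f => f x) hq
    simpa using this
  -- smallness
  obtain ⟨ε₁, hε₁, hlge⟩ := Metric.eventually_nhds_iff.1 (lg_exp (A := A))
  have hN1 := near_small D hD hε₁
  have hemb := Units.isOpenEmbedding_val (R := A)
  rw [hemb.isInducing.nhds_eq_comap 1] at hN1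
  obtain ⟨B, hB, hBsub⟩ := hN1
  rw [Units.val_one] at hB
  obtain ⟨ε₂, hε₂, hB2⟩ := Metric.mem_nhds_iff.1 hB
  have key : ∀ u : Aˣ, u ∈ D → ‖(u : A) - 1‖ < ε₂ → ∃ X : lieAlg D hD, u = ex (X : A) ∧
      Q (lg (u : A)) = X := by
    intro u hu h
    obtain ⟨X, hX, hX1, hX2⟩ := hBsub (show u ∈ (fun u : Aˣ => (u : A)) ⁻¹' B from
      hB2 (by rw [Metric.mem_ball, dist_eq_norm]; exact h)) hu
    refine ⟨⟨X, hX⟩, hX2, ?_⟩
    rw [hX2, ex_val, hlge (by rwa [dist_zero_right])]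
    exact hQ ⟨X, hX⟩
  obtain ⟨δ₁, hδ₁, hop⟩ := openness (g := lieAlg D hD) (E0 := E0) (E1 := E1) (E2 := E2)
    (lieAlg D hD).subtypeL Q hQ E0.subtypeL E1.subtypeL E2.subtypeL T₀ S₀
    (by
      intro X
      obtain ⟨x0, x1, x2, h⟩ := hE X
      exact ⟨x0, x1, x2, h⟩) hε hε₂
  -- elements of `D` close to `1`
  have hN2 := near_small D hD hδ₁
  rw [hemb.isInducing.nhds_eq_comap 1] at hN2
  obtain ⟨B', hB', hBsub'⟩ := hN2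
  rw [Units.val_one] at hB'
  obtain ⟨ε₃, hε₃, hB3⟩ := Metric.mem_nhds_iff.1 hB'
  refine ⟨min δ₁ ε₃, lt_min hδ₁ hε₃, fun T S hT hS b hb hb1 => ?_⟩
  obtain ⟨η, hη, hη1, hη2⟩ := hBsub' (show b ∈ (fun u : Aˣ => (u : A)) ⁻¹' B' from
    hB3 (by
      rw [Metric.mem_ball, dist_eq_norm]
      exact hb1.trans_le (min_le_right _ _))) hb
  obtain ⟨X, Y, ζ, hX, hY, hζ, hs, hq⟩ := hop (T - T₀) (S - S₀) ⟨η, hη⟩
    (hT.trans_le (min_le_left _ _)) (hS.trans_le (min_le_left _ _)) hη1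
  refine ⟨X, Y, ζ, hX, hY, hζ, ?_⟩
  obtain ⟨w, hw⟩ : ∃ w : Aˣ, w = ex (-(T X : A)) * ex (-((Y : lieAlg D hD) : A)) *
    ex (-((ζ : lieAlg D hD) : A)) * ex (S Y : A) * ex ((X : lieAlg D hD) : A) := ⟨_, rfl⟩
  have hwv : (w : A) = Psi (lieAlg D hD).subtypeL E0.subtypeL E1.subtypeL E2.subtypeL T₀ S₀
      (T - T₀, S - S₀, X, Y, ζ) := by
    rw [hw]
    simp only [Units.val_mul, ex_val, Psi, add_sub_cancel]
    rfl
  have hwD : w ∈ D := by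
    rw [hw]
    refine D.mul_mem (D.mul_mem (D.mul_mem (D.mul_mem ?_ ?_) ?_) ?_) ?_
    · exact ex_mem (hD := hD) ((lieAlg D hD).neg_mem (T X).2)
    · exact ex_mem (hD := hD) ((lieAlg D hD).neg_mem (Y : lieAlg D hD).2)
    · exact ex_mem (hD := hD) ((lieAlg D hD).neg_mem (ζ : lieAlg D hD).2)
    · exact ex_mem (hD := hD) (S Y).2
    · exact ex_mem (hD := hD) (X : lieAlg D hD).2
  obtain ⟨X', hX1, hX2⟩ := key w hwD (by rw [hwv]; exact hs)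
  rw [hwv, hq] at hX2
  rw [← hw, hη2, hX1, ← hX2]

end

end Pool.Agent.Helper36x.HC
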