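import Pool.Agent.Helper36x.HC.Defs
import Pool.Agent.Helper36x.HC.Lie

/-!
# Solving the closing equation in the group
-/

set_option autoImplicit false
set_option linter.unusedSectionVars false

open scoped Topology
open Filter Set

namespace Pool.Agent.Helper36x.HC

open Pool.Agent.E8helper46.FL

section op

variable {E F : Type*} [NormedAddCommGroup E] [NormedSpace ℝ E] [FiniteDimensional ℝ E]
  [NormedAddCommGroup F] [NormedSpace ℝ F]

theorem tendsto_op (T : ℕ → E →L[ℝ] F) (h : ∀ x, Tendsto (fun k => T k x) atTop (𝓝 0)) (ε : ℝ)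
    (hε : 0 < ε) : ∀ᶠ k in atTop, ‖T k‖ < ε := by
  let b := Module.finBasis ℝ E
  obtain ⟨C, hC, hCb⟩ := b.exists_opNorm_le (F := F)
  have h1 : ∀ᶠ k in atTop, ∀ i, ‖T k (b i)‖ ≤ ε / (2 * C) := by
    rw [eventually_all]
    intro i
    have h2 := (h (b i)).norm
    rw [norm_zero] at h2
    exact (h2.eventually (gt_mem_nhds (by positivity : 0 < ε / (2 * C)))).mono fun k hk => hk.le
  filter_upwards [h1] with k hk
  have h3 := hCb (u := T k) (M := ε / (2 * C)) (by positivity) hk
  calc ‖T k‖ ≤ C * (ε / (2 * C)) := h3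
    _ = ε / 2 := by field_simp
    _ < ε := by linarith

theorem itadd (M : E ≃ₗ[ℝ] E) (k : ℕ) (X Y : E) : M^[k] (X + Y) = M^[k] X + M^[k] Y := by
  induction k with
  | zero => rfl
  | succ k ih => rw [Function.iterate_succ_apply', ih, map_add, Function.iterate_succ_apply',
      Function.iterate_succ_apply']

theorem itsmul (M : E ≃ₗ[ℝ] E) (k : ℕ) (c : ℝ) (X : E) : M^[k] (c • X) = c • M^[k] X := by
  induction k with
  | zero => rfl
  | succ k ih => rw [Function.iterate_succ_apply', ih, map_smul, Function.iterate_succ_apply']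

theorem itzero (M : E ≃ₗ[ℝ] E) (k : ℕ) : M^[k] 0 = 0 := by
  induction k with
  | zero => rfl
  | succ k ih => rw [Function.iterate_succ_apply', ih, map_zero]

/-- the vectors with convergent images -/
def conv (M : E ≃ₗ[ℝ] E) (k : ℕ → ℕ) : Submodule ℝ E where
  carrier := {X | ∃ Y, Tendsto (fun i : ℕ => M^[k i] X) atTop (𝓝 Y)}
  zero_mem' := by
    refine ⟨0, ?_⟩
    simp only [itzero]
    exact tendsto_const_nhds
  add_mem' := by
    rintro X Y ⟨X', hX⟩ ⟨Y', hY⟩
    refine ⟨X' + Y', ?_⟩
    simp only [itadd]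
    exact Tendsto.add hX hY
  smul_mem' := by
    rintro c X ⟨X', hX⟩
    refine ⟨c • X', ?_⟩
    simp only [itsmul]
    exact Tendsto.const_smul hX c

/-- the limit map -/
noncomputable def limm (M : E ≃ₗ[ℝ] E) (k : ℕ → ℕ) : conv M k →L[ℝ] E :=
  LinearMap.toContinuousLinearMap
    { toFun := fun X => X.2.choose
      map_add' := fun X Y => by
        have h1 := (X + Y).2.choose_spec
        have h2 := X.2.choose_spec.add Y.2.choose_spec
        simp only [← itadd] at h2
        exact tendsto_nhds_unique h1 h2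
      map_smul' := fun c X => by
        have h1 := (c • X).2.choose_spec
        have h2 := X.2.choose_spec.const_smul c
        simp only [← itsmul] at h2
        exact tendsto_nhds_unique h1 h2 }

theorem limm_spec (M : E ≃ₗ[ℝ] E) (k : ℕ → ℕ) (X : conv M k) :
    Tendsto (fun i : ℕ => M^[k i] (X : E)) atTop (𝓝 (limm M k X)) := X.2.choose_spec

/-- the fixed vectors -/
def fixd (M : E ≃ₗ[ℝ] E) : Submodule ℝ E where
  carrier := {X | M X = X}
  zero_mem' := map_zero M
  add_mem' := by
    intro X Y hX hY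
    show M (X + Y) = X + Y
    rw [map_add, show M X = X from hX, show M Y = Y from hY]
  smul_mem' := by
    intro c X hX
    show M (c • X) = c • X
    rw [map_smul, show M X = X from hX]

/-- the iterates on the vectors with convergent images -/
noncomputable def opn (M : E ≃ₗ[ℝ] E) (k : ℕ → ℕ) (i : ℕ) : conv M k →L[ℝ] E :=
  LinearMap.toContinuousLinearMap
    { toFun := fun X => M^[k i] (X : E)
      map_add' := fun X Y => itadd M (k i) X Y
      map_smul' := fun c X => itsmul M (k i) c X }

theorem opn_apply (M : E ≃ₗ[ℝ] E) (k : ℕ → ℕ) (i : ℕ) (X : conv M k) :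
    opn M k i X = M^[k i] (X : E) := rfl

theorem opn_close (M : E ≃ₗ[ℝ] E) (k : ℕ → ℕ) (ε : ℝ) (hε : 0 < ε) :
    ∀ᶠ i in atTop, ‖opn M k i - limm M k‖ < ε := by
  refine tendsto_op (fun i => opn M k i - limm M k) (fun X => ?_) ε hε
  have h1 := (limm_spec M k X).sub (tendsto_const_nhds (x := limm M k X))
  rw [sub_self] at h1
  exact h1

end op

variable {A : Type} [NormedRing A] [NormedAlgebra ℝ A] [FiniteDimensional ℝ A] [CompleteSpace A]
  {D : Subgroup Aˣ} {hD : IsClosed (D : Set Aˣ)}

theorem expD_zero : expD (0 : lieAlg D hD) = 1 := by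
  apply Subtype.ext
  show ex ((0 : lieAlg D hD) : A) = 1
  rw [Submodule.coe_zero, ex_zero]

theorem expD_neg (X : lieAlg D hD) : expD (-X) = (expD X)⁻¹ := by
  apply Subtype.ext
  show ex ((-X : lieAlg D hD) : A) = (ex (X : A))⁻¹
  rw [Submodule.coe_neg, ex_neg]

theorem expD_add_smul (s t : ℝ) (X : lieAlg D hD) :
    expD ((s + t) • X) = expD (s • X) * expD (t • X) := by
  apply Subtype.ext
  show ex (((s + t) • X : lieAlg D hD) : A) = ex ((s • X : lieAlg D hD) : A) * ex ((t • X : lieAlg D hD) : A)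
  simp only [Submodule.coe_smul]
  exact ex_add_smul s t (X : A)

theorem expD_cont : Continuous (expD : lieAlg D hD → D) := by
  apply Continuous.subtype_mk
  exact ex_cont.comp continuous_subtype_val

theorem iter_exp {φ : D →* D} {L : lieAlg D hD ≃ₗ[ℝ] lieAlg D hD}
    (hL : ∀ X, φ (expD X) = expD (L X)) (k : ℕ) (X : lieAlg D hD) :
    φ^[k] (expD X) = expD (L^[k] X) := by
  induction k with
  | zero => rfl
  | succ k ih => rw [Function.iterate_succ_apply', ih, hL, Function.iterate_succ_apply']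

theorem iter_mul {φ : D →* D} (k : ℕ) (a b : D) : φ^[k] (a * b) = φ^[k] a * φ^[k] b := by
  induction k generalizing a b with
  | zero => rfl
  | succ k ih => rw [Function.iterate_succ_apply, Function.iterate_succ_apply,
      Function.iterate_succ_apply, map_mul, ih]

theorem iter_one {φ : D →* D} (k : ℕ) : φ^[k] 1 = 1 := by
  induction k with
  | zero => rfl
  | succ k ih => rw [Function.iterate_succ_apply', ih, map_one]

/-- Iterates of `φ` move a small element of the group by a prescribed small element, up to a small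
fixed element. -/
theorem group_solve {φ : D →* D} {k : ℕ → ℕ} (hφ : SolvableAlong D hD φ k) :
    ∃ E0 : Submodule ℝ (lieAlg D hD), (∀ X ∈ E0, φ (expD X) = expD X) ∧
      ∀ B ∈ 𝓝 (1 : D), ∀ ε : ℝ, 0 < ε → ∃ B' ∈ 𝓝 (1 : D), ∀ᶠ i in atTop, ∀ b ∈ B',
        ∃ v ∈ B, ∃ ζ : E0, ‖ζ‖ < ε ∧ φ^[k i] v * b = expD (-(ζ : lieAlg D hD)) * v := by
  obtain ⟨L, hL, hsplit⟩ := hφ
  refine ⟨fixd L, fun X hX => by rw [hL, show L X = X from hX], fun B hB ε hε => ?_⟩
  -- smallness of the solution
  have hcont : ContinuousAt (fun p : lieAlg D hD × lieAlg D hD => expD p.1 * expD p.2)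
      (0 : lieAlg D hD × lieAlg D hD) := by
    have : Continuous (fun p : lieAlg D hD × lieAlg D hD => expD p.1 * expD p.2) :=
      (expD_cont.comp continuous_fst).mul (expD_cont.comp continuous_snd)
    exact this.continuousAt
  have hB1 : (fun p : lieAlg D hD × lieAlg D hD => expD p.1 * expD p.2) ⁻¹' B ∈
      𝓝 (0 : lieAlg D hD × lieAlg D hD) := by
    apply hcont.preimage_mem_nhds
    show B ∈ 𝓝 (expD (0 : lieAlg D hD) * expD (0 : lieAlg D hD))
    rw [expD_zero, mul_one]
    exact hB
  obtain ⟨ε₁, hε₁, hball⟩ := Metric.mem_nhds_iff.1 hB1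
  have hK : (0 : ℝ) < ‖limm L.symm k‖ + 1 := by positivity
  obtain ⟨δ, hδ, hsol⟩ := solve D hD (fixd L) (conv L k) (conv L.symm k) (limm L k)
    (limm L.symm k)
    (by
      intro X
      obtain ⟨X0, X1, Y1, X2, Y2, h, h0, h1, h2⟩ := hsplit X
      refine ⟨⟨X0, h0⟩, ⟨X1, Y1, h1⟩, ⟨X2, Y2, h2⟩, ?_⟩
      rw [tendsto_nhds_unique (limm_spec L k ⟨X1, Y1, h1⟩) h1,
        tendsto_nhds_unique (limm_spec L.symm k ⟨X2, Y2, h2⟩) h2]
      exact h) (ε := min ε (min ε₁ (ε₁ / (‖limm L.symm k‖ + 1)))) (by positivity)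
  refine ⟨{b : D | ‖((b : Aˣ) : A) - 1‖ < δ}, ?_, ?_⟩
  · have h1 : Continuous (fun b : D => ‖((b : Aˣ) : A) - 1‖) :=
      ((Units.continuous_val.comp continuous_subtype_val).sub continuous_const).norm
    have h2 := h1.tendsto 1
    simp only [OneMemClass.coe_one, Units.val_one, sub_self, norm_zero] at h2
    exact h2.eventually (gt_mem_nhds hδ)
  · filter_upwards [opn_close L k _ hδ, opn_close L.symm k _ (lt_min hδ one_pos)] with i hTk hSk b hb
    obtain ⟨X, Y, ζ, hX, hY, hζ, he⟩ := hsol (opn L k i) (opn L.symm k i)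
      hTk (hSk.trans_le (min_le_left _ _)) b b.2 hb
    refine ⟨expD (opn L.symm k i Y) * expD (X : lieAlg D hD), ?_, ζ,
      hζ.trans_le (min_le_left _ _), ?_⟩
    · have hm : ((opn L.symm k i Y, (X : lieAlg D hD)) : lieAlg D hD × lieAlg D hD) ∈
          Metric.ball 0 ε₁ := by
        rw [Metric.mem_ball, dist_zero_right]
        refine max_lt ?_ (hX.trans_le ((min_le_right _ _).trans (min_le_left _ _)))
        have h1 : ‖opn L.symm k i‖ < ‖limm L.symm k‖ + 1 := by
          have h2 : ‖opn L.symm k i‖ ≤ ‖limm L.symm k‖ + ‖opn L.symm k i - limm L.symm k‖ := by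
            have h5 := norm_add_le (limm L.symm k) (opn L.symm k i - limm L.symm k)
            rwa [add_sub_cancel] at h5
          have h3 := hSk.trans_le (min_le_right _ _)
          linarith
        have h4 : ‖Y‖ < ε₁ / (‖limm L.symm k‖ + 1) :=
          hY.trans_le ((min_le_right _ _).trans (min_le_right _ _))
        calc ‖opn L.symm k i Y‖ ≤ ‖opn L.symm k i‖ * ‖Y‖ := ContinuousLinearMap.le_opNorm _ _
          _ ≤ (‖limm L.symm k‖ + 1) * ‖Y‖ := by
            gcongr
          _ < (‖limm L.symm k‖ + 1) * (ε₁ / (‖limm L.symm k‖ + 1)) := by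
            gcongr
          _ = ε₁ := by field_simp
      exact hball hm
    · have hLS : L^[k i] (opn L.symm k i Y) = Y := by
        show L^[k i] (L.symm^[k i] (Y : lieAlg D hD)) = Y
        have : Function.LeftInverse (L : lieAlg D hD → lieAlg D hD) L.symm := L.apply_symm_apply
        exact (this.iterate (k i)) _
      have hb' : b = (expD (opn L k i X))⁻¹ * (expD (Y : lieAlg D hD))⁻¹ *
          expD (-(ζ : lieAlg D hD)) * expD (opn L.symm k i Y) * expD (X : lieAlg D hD) := by
        rw [← expD_neg, ← expD_neg]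
        apply Subtype.ext
        exact he
      rw [iter_mul, iter_exp hL, iter_exp hL, hLS]
      show expD (Y : lieAlg D hD) * expD (opn L k i X) * b = _
      rw [hb']
      group

end Pool.Agent.Helper36x.HC
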