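import Pool.Agent.Helper36x.HC.Bohr

/-!
# Returns at times in a Bohr set, from the mean ergodic theorem
-/

set_option autoImplicit false
set_option linter.unusedSectionVars false

open Filter Set Topology ComplexConjugate

namespace Pool.Agent.Helper36x.HC

theorem geom_avg (c : ℂ) (hc : ‖c‖ = 1) (hc1 : c ≠ 1) :
    Tendsto (fun n : ℕ => (n : ℂ)⁻¹ * ∑ k ∈ Finset.range n, c ^ k) atTop (𝓝 0) := by
  rw [tendsto_zero_iff_norm_tendsto_zero]
  have h0 : 0 < ‖c - 1‖ := norm_pos_iff.2 (sub_ne_zero.2 hc1)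
  have h1 : Tendsto (fun n : ℕ => (n : ℝ)⁻¹ * (2 / ‖c - 1‖)) atTop (𝓝 0) := by
    have := (tendsto_inv_atTop_nhds_zero_nat (𝕜 := ℝ)).mul_const (2 / ‖c - 1‖)
    rwa [zero_mul] at this
  refine squeeze_zero (fun n => norm_nonneg _) (fun n => ?_) h1
  rw [norm_mul, norm_inv, Complex.norm_natCast]
  refine mul_le_mul_of_nonneg_left ?_ (by positivity)
  rw [geom_sum_eq hc1, norm_div]
  refine div_le_div_of_nonneg_right ?_ h0.le
  refine (norm_sub_le _ _).trans ?_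
  rw [norm_pow, hc, one_pow, norm_one]
  norm_num

variable {H : Type*} [NormedAddCommGroup H] [InnerProductSpace ℂ H] [CompleteSpace H]

open scoped InnerProductSpace

theorem birk (U : H →L[ℂ] H) (c : ℂ) (v : H) (n : ℕ) :
    ⟪v, birkhoffAverage ℂ (c • U) _root_.id n v⟫_ℂ =
      (n : ℂ)⁻¹ * ∑ k ∈ Finset.range n, c ^ k * ⟪v, U^[k] v⟫_ℂ := by
  have hit : ∀ k : ℕ, (c • U : H →L[ℂ] H)^[k] v = c ^ k • U^[k] v := by
    intro k
    induction k with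
    | zero => simp
    | succ k ih =>
      rw [Function.iterate_succ_apply', ih, Function.iterate_succ_apply']
      show c • U (c ^ k • U^[k] v) = _
      rw [map_smul, smul_smul, pow_succ']
  unfold birkhoffAverage birkhoffSum
  rw [inner_smul_right, inner_sum]
  congr 1
  refine Finset.sum_congr rfl fun k _ => ?_
  rw [id_eq, hit, inner_smul_right]

/-- The correlations minus their mean are small in average, after multiplication with any
character. -/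
theorem good_of_contraction (U : H →L[ℂ] H) (hU : ‖U‖ ≤ 1)
    (hE : ∀ c : ℂ, ‖c‖ = 1 → c ≠ 1 → ∀ w, U w = c • w → w = 0) (v w₀ : H) (hw₀ : U w₀ = w₀)
    (hvw : ⟪w₀, v⟫_ℂ ≠ 0) :
    ∃ α : ℝ, 0 < α ∧ Good (fun k => ⟪v, U^[k] v⟫_ℂ - α) (fun _ => 1) := by
  obtain ⟨S, hS⟩ : ∃ S : Submodule ℂ H, S = U.eqLocus (1 : H →L[ℂ] H) := ⟨_, rfl⟩
  obtain ⟨Pv, hPv⟩ : ∃ Pv : S, ∀ y ∈ S, ⟪y, v - (Pv : H)⟫_ℂ = 0 ∧
      Tendsto (birkhoffAverage ℂ U _root_.id · v) atTop (𝓝 (Pv : H)) := by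
    subst hS
    refine ⟨(U.eqLocus (1 : H →L[ℂ] H)).orthogonalProjectionOnto v, fun y hy => ⟨?_,
      U.tendsto_birkhoffAverage_orthogonalProjection hU v⟩⟩
    have h1 := (U.eqLocus (1 : H →L[ℂ] H)).sub_starProjection_mem_orthogonal v
    exact (Submodule.mem_orthogonal _ _).1 h1 y hy
  have hw₀S : w₀ ∈ S := by
    rw [hS]
    exact hw₀
  have hne : (Pv : H) ≠ 0 := by
    intro h0
    have h1 := (hPv w₀ hw₀S).1
    rw [h0, sub_zero] at h1
    exact hvw h1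
  have hinner : ⟪v, (Pv : H)⟫_ℂ = ((‖(Pv : H)‖ ^ 2 : ℝ) : ℂ) := by
    have h1 := (hPv Pv Pv.2).1
    rw [inner_sub_right, sub_eq_zero] at h1
    have h2 := congrArg conj h1
    rw [inner_conj_symm, inner_conj_symm] at h2
    rw [h2, inner_self_eq_norm_sq_to_K]
    push_cast
    rfl
  refine ⟨‖(Pv : H)‖ ^ 2, by positivity, fun c hc => ?_⟩
  have hcU : ‖c • U‖ ≤ 1 := by
    rw [norm_smul, hc, one_mul]
    exact hU
  have hsplit : ∀ n : ℕ, (n : ℂ)⁻¹ * ∑ k ∈ Finset.range n, 1 * c ^ k *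
      (⟪v, U^[k] v⟫_ℂ - ((‖(Pv : H)‖ ^ 2 : ℝ) : ℂ)) =
      ⟪v, birkhoffAverage ℂ (c • U) _root_.id n v⟫_ℂ -
        ((‖(Pv : H)‖ ^ 2 : ℝ) : ℂ) * ((n : ℂ)⁻¹ * ∑ k ∈ Finset.range n, c ^ k) := by
    intro n
    rw [birk, mul_left_comm _ (n : ℂ)⁻¹, ← mul_sub, Finset.mul_sum _ _ ((‖(Pv : H)‖ ^ 2 : ℝ) : ℂ),
      ← Finset.sum_sub_distrib]
    congr 1
    refine Finset.sum_congr rfl fun k _ => ?_
    ring
  simp only [hsplit]
  by_cases hc1 : c = 1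
  · subst hc1
    have h1 : Tendsto (fun n : ℕ => ⟪v, birkhoffAverage ℂ ((1 : ℂ) • U) _root_.id n v⟫_ℂ) atTop
        (𝓝 ⟪v, (Pv : H)⟫_ℂ) := by
      rw [one_smul]
      exact tendsto_const_nhds.inner (hPv _ hw₀S).2
    have h2 : Tendsto (fun n : ℕ => ((n : ℂ)⁻¹ * ∑ k ∈ Finset.range n, (1 : ℂ) ^ k)) atTop
        (𝓝 1) := by
      refine tendsto_const_nhds.congr' ?_
      filter_upwards [eventually_ge_atTop 1] with n hn
      have : (n : ℂ) ≠ 0 := by exact_mod_cast (by omega : n ≠ 0)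
      simp [this]
    have h3 := h1.sub (h2.const_mul ((‖(Pv : H)‖ ^ 2 : ℝ) : ℂ))
    rw [hinner, mul_one, sub_self] at h3
    exact h3
  · have h1 := (c • U).tendsto_birkhoffAverage_orthogonalProjection hcU v
    have h4 : (((c • U).eqLocus (1 : H →L[ℂ] H)).orthogonalProjectionOnto v : H) = 0 := by
      have h5 := (((c • U).eqLocus (1 : H →L[ℂ] H)).orthogonalProjectionOnto v).2
      have h6 : c • U ((((c • U).eqLocus (1 : H →L[ℂ] H)).orthogonalProjectionOnto v : H)) =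
        (((c • U).eqLocus (1 : H →L[ℂ] H)).orthogonalProjectionOnto v : H) := h5
      have hc0 : c ≠ 0 := by
        rintro rfl
        rw [norm_zero] at hc
        exact zero_ne_one hc
      refine hE c⁻¹ (by rw [norm_inv, hc, inv_one]) (fun h => hc1 (inv_eq_one.1 h)) _ ?_
      conv_rhs => rw [← h6]
      rw [smul_smul, inv_mul_cancel₀ hc0, one_smul]
    rw [h4] at h1
    have h2 : Tendsto (fun n : ℕ => ⟪v, birkhoffAverage ℂ (c • U) _root_.id n v⟫_ℂ) atTop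
        (𝓝 ⟪v, (0 : H)⟫_ℂ) := tendsto_const_nhds.inner h1
    have h3 := h2.sub ((geom_avg c hc hc1).const_mul ((‖(Pv : H)‖ ^ 2 : ℝ) : ℂ))
    rw [inner_zero_right, mul_zero, sub_zero] at h3
    exact h3

/-- **Returns at good times.** -/
theorem bohr_returns (U : H →L[ℂ] H) (hU : ‖U‖ ≤ 1)
    (hE : ∀ c : ℂ, ‖c‖ = 1 → c ≠ 1 → ∀ w, U w = c • w → w = 0) (v w₀ : H) (hw₀ : U w₀ = w₀)
    (hvw : ⟪w₀, v⟫_ℂ ≠ 0) {r : ℕ} (μ : Fin r → ℂ) (hμ : ∀ j, ‖μ j‖ = 1) (δ : ℝ) (hδ : 0 < δ)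
    (K : ℕ) : ∃ k, K ≤ k ∧ (∀ j, ‖μ j ^ k - μ j‖ < δ) ∧ ⟪v, U^[k] v⟫_ℂ ≠ 0 := by
  obtain ⟨α, hα, hg⟩ := good_of_contraction U hU hE v w₀ hw₀ hvw
  refine bohr_num hα (B := ‖v‖ * ‖v‖) (fun k => ?_) hg μ hμ δ hδ K
  refine (norm_inner_le_norm _ _).trans ?_
  refine mul_le_mul_of_nonneg_left ?_ (norm_nonneg _)
  induction k with
  | zero => exact le_rfl
  | succ k ih =>
    rw [Function.iterate_succ_apply']
    refine (U.le_of_opNorm_le hU _).trans ?_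
    rwa [one_mul]

end Pool.Agent.Helper36x.HC
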