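import Mathlib

/-!
# Interpolation by real polynomials at complex points
-/

set_option autoImplicit false

open Polynomial ComplexConjugate

namespace Pool.Agent.Helper36x.HC

/-- A function on a finite set of complex numbers which commutes with the complex conjugation is a
polynomial with real coefficients. -/
theorem real_interp (f : ℂ → ℂ) (hf : ∀ μ, f (conj μ) = conj (f μ)) (S : Finset ℂ) :
    ∃ q : ℝ[X], ∀ μ ∈ S, aeval μ q = f μ := by
  classical
  obtain ⟨S', hS'⟩ : ∃ S' : Finset ℂ, S' = S ∪ S.image conj := ⟨_, rfl⟩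
  obtain ⟨Q, hQ⟩ : ∃ Q : ℂ[X], Q = Lagrange.interpolate S' id f := ⟨_, rfl⟩
  have hQf : ∀ μ ∈ S', Q.eval μ = f μ := by
    intro μ hμ
    rw [hQ]
    exact Lagrange.eval_interpolate_at_node f (Set.injOn_id _) hμ
  refine ⟨∑ i ∈ Finset.range (Q.natDegree + 1), C (Q.coeff i).re * X ^ i, fun μ hμ => ?_⟩
  have h1 : μ ∈ S' := by rw [hS']; exact Finset.mem_union_left _ hμ
  have h2 : conj μ ∈ S' := by
    rw [hS']; exact Finset.mem_union_right _ (Finset.mem_image_of_mem _ hμ)
  have e1 := hQf μ h1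
  have e2 := hQf _ h2
  rw [eval_eq_sum_range] at e1 e2
  have e3 := congrArg conj e2
  rw [map_sum, hf, Complex.conj_conj] at e3
  rw [map_sum]
  have e4 : ∑ i ∈ Finset.range (Q.natDegree + 1), aeval μ (C (Q.coeff i).re * X ^ i) =
      (∑ i ∈ Finset.range (Q.natDegree + 1), Q.coeff i * μ ^ i +
        ∑ i ∈ Finset.range (Q.natDegree + 1), conj (Q.coeff i * conj μ ^ i)) / 2 := by
    rw [← Finset.sum_add_distrib, Finset.sum_div]
    apply Finset.sum_congr rfl
    intro i _
    rw [map_mul, map_pow, aeval_X, aeval_C, map_mul, map_pow, Complex.conj_conj]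
    show ((Q.coeff i).re : ℂ) * μ ^ i = _
    rw [Complex.re_eq_add_conj]
    ring
  rw [e4, e1, e3]
  ring

end Pool.Agent.Helper36x.HC
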