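import Pool.Agent.TH382.HS.Limit

/-!
# Moving a point by diffeomorphisms supported near it (noncompact manifolds)
-/

set_option autoImplicit false
set_option linter.unusedSectionVars false

open scoped Manifold ContDiff Topology
open Filter Set Metric

universe u

namespace Pool.Agent.Helper36x.HC

open Pool.Agent.H718R2.G Pool.Agent.W564.SC Pool.Agent.TH382.QC Pool.Agent.W782.SC

variable {n : ℕ} {N : Type u} [TopologicalSpace N] [ChartedSpace (V n) N] [IsManifold (𝓡 n) ∞ N]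

/-- a chart around `z` whose inverse maps the closed unit ball into a given neighbourhood of `z` -/
theorem small_chart (z : N) (W : Set N) (hW : W ∈ 𝓝 z) :
    ∃ χ : OpenPartialHomeomorph N (V n), χ ∈ IsManifold.maximalAtlas (𝓡 n) ∞ N ∧ z ∈ χ.source ∧
      χ z = 0 ∧ closedBall (0 : V n) 1 ⊆ χ.target ∧ χ.symm '' closedBall (0 : V n) 1 ⊆ W := by
  set φ : OpenPartialHomeomorph N (V n) := chartAt (V n) z with hφ
  have hs : z ∈ φ.source := mem_chart_source _ z
  have ht : φ z ∈ φ.target := φ.map_source hs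
  have hm : φ ∈ IsManifold.maximalAtlas (𝓡 n) ∞ N := IsManifold.chart_mem_maximalAtlas z
  have hW2 : φ.symm ⁻¹' W ∈ 𝓝 (φ z) := by
    apply (φ.continuousAt_symm ht).preimage_mem_nhds
    rw [φ.left_inv hs]
    exact hW
  obtain ⟨ε, hε, hball⟩ := Metric.nhds_basis_closedBall.mem_iff.mp
    (inter_mem (φ.open_target.mem_nhds ht) hW2)
  have h1 : ContDiff ℝ ∞ (fun v : V n => ε⁻¹ • (v - φ z)) := by fun_prop
  have h2 : ContDiff ℝ ∞ (fun w : V n => ε • w + φ z) := by fun_prop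
  have h3 : ∀ w ∈ closedBall (0 : V n) 1, ε • w + φ z ∈ closedBall (φ z) ε := by
    intro w hw
    rw [mem_closedBall, dist_eq_norm, add_sub_cancel_right, norm_smul, Real.norm_eq_abs,
      abs_of_pos hε]
    rw [mem_closedBall, dist_zero_right] at hw
    nlinarith
  refine ⟨φ.transHomeomorph (Pool.Agent.W699.SC.hom (φ z) ε hε.ne'), ?_, hs, ?_, ?_, ?_⟩
  · apply OpenPartialHomeomorph.mem_maximalAtlas_of_contMDiffOn
    · have : ContMDiffOn (𝓡 n) (𝓡 n) ∞ ((fun v : V n => ε⁻¹ • (v - φ z)) ∘ φ) φ.source :=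
        h1.contMDiff.comp_contMDiffOn (contMDiffOn_of_mem_maximalAtlas hm)
      exact this
    · have : ContMDiffOn (𝓡 n) (𝓡 n) ∞ (φ.symm ∘ (fun w : V n => ε • w + φ z))
          ((fun w : V n => ε • w + φ z) ⁻¹' φ.target) :=
        (contMDiffOn_symm_of_mem_maximalAtlas hm).comp h2.contMDiff.contMDiffOn (fun w hw => hw)
      exact this
  · change ε⁻¹ • (φ z - φ z) = 0
    rw [sub_self, smul_zero]
  · intro w hw
    change ε • w + φ z ∈ φ.target
    exact (hball (h3 w hw)).1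
  · rintro _ ⟨w, hw, rfl⟩
    change φ.symm (ε • w + φ z) ∈ W
    exact (hball (h3 w hw)).2

/-- Diffeomorphisms `T x`, `x ∈ ℝⁿ`, which are the identity off a compact subset of a given
neighbourhood of `z`, and move `z` to all points close to `z`. -/
theorem moves_cpt [T2Space N] (r : ℕ∞) (z : N) (W : Set N) (hW : W ∈ 𝓝 z) :
    ∃ (T : V n → DiffM n N r) (Q W' : Set N) (x : N → V n),
    IsCompact Q ∧ Q ⊆ W ∧ (∀ a, ∀ y, y ∉ Q → T a y = y) ∧
    W' ∈ 𝓝 z ∧ (T 0 = Diffeomorph.refl (𝓡 n) N r) ∧ IsFam n N r T ∧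
    IsFam n N r (fun a => (T a).symm) ∧
    Tendsto x (𝓝 z) (𝓝 0) ∧ ∀ y ∈ W', T (x y) z = y := by
  have hr : ((r : ℕ∞) : WithTop ℕ∞) ≤ ∞ := by exact_mod_cast le_top
  obtain ⟨χ, hχ, hsrc, hz, hball, hχW⟩ := small_chart (n := n) z W hW
  obtain ⟨F, F', κ, hκ0, hκ1, hF, hF', hi, hi', ho, ho', h0, hm⟩ := local_family n
  have hsub : Metric.closedBall (0 : V n) (1 / 2) ⊆ closedBall 0 1 :=
    Metric.closedBall_subset_closedBall (by norm_num)
  have hA : Metric.closedBall (0 : V n) (1 / 2) ⊆ χ.target := hsub.trans hball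
  have hcp : IsCompact (χ.symm '' Metric.closedBall (0 : V n) (1 / 2)) :=
    (isCompact_closedBall _ _).image_of_continuousOn (χ.continuousOn_symm.mono hA)
  have hcl : IsClosed (χ.symm '' Metric.closedBall (0 : V n) (1 / 2)) := hcp.isClosed
  have hs := tr_smooth hχ hA hcl hi hF ho
  have hs' := tr_smooth hχ hA hcl hi' hF' ho'
  have hs1 : ∀ x : V n, ContMDiff (𝓡 n) (𝓡 n) ∞ (tr χ F x) := by
    intro x
    exact hs.comp (contMDiff_const.prodMk contMDiff_id)
  have hs1' : ∀ x : V n, ContMDiff (𝓡 n) (𝓡 n) ∞ (tr χ F' x) := by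
    intro x
    exact hs'.comp (contMDiff_const.prodMk contMDiff_id)
  have hx0 : Tendsto χ (𝓝 z) (𝓝 0) := by
    have := (χ.continuousAt hsrc).tendsto
    rwa [hz] at this
  have hid : ∀ (x : V n) (y : N), y ∉ χ.symm '' Metric.closedBall (0 : V n) (1 / 2) →
      tr χ F x y = y := fun x y hy => tr_id ho hy
  refine ⟨fun x => ⟨⟨tr χ F x, tr χ F' x, tr_inv hA hi ho x, tr_inv hA hi' ho' x⟩,
    (hs1 x).of_le hr, (hs1' x).of_le hr⟩, χ.symm '' Metric.closedBall (0 : V n) (1 / 2),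
    {y : N | y ∈ χ.source ∧ ‖χ y‖ < κ}, χ, hcp, (image_mono hsub).trans hχW, ?_, ?_, ?_, ?_,
    ?_, hx0, ?_⟩
  · intro a y hy
    exact hid a y hy
  · have h5 : χ.source ∈ 𝓝 z := χ.open_source.mem_nhds hsrc
    have h7 : ∀ᶠ y in 𝓝 z, ‖χ y‖ < κ := by
      have h8 := hx0.norm
      rw [norm_zero] at h8
      exact h8.eventually (gt_mem_nhds hκ0)
    filter_upwards [h5, h7] with y hy1 hy2
    exact ⟨hy1, hy2⟩
  · ext y
    change tr χ F 0 y = y
    by_cases hy : y ∈ χ.source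
    · rw [tr_source hy, h0, χ.left_inv hy]
    · exact tr_not_source hy
  · intro y
    exact (hs.of_le hr).contMDiffAt
  · intro y
    exact (hs'.of_le hr).contMDiffAt
  · rintro y ⟨hy1, hy2⟩
    change tr χ F (χ y) z = y
    rw [tr_source hsrc, hm _ _ hy2 (by rw [hz, norm_zero]; norm_num), hz, zero_add,
      χ.left_inv hy1]

end Pool.Agent.Helper36x.HC
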