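import Pool.Agent.Helper36x.HC.Group
import Pool.Agent.Helper36x.HC.LFam
import Pool.Agent.Helper36x.HC.Cpt
import Pool.Agent.Helper36x.HC.Moves
import Pool.Agent.R196.LocMain

/-!
# Closing on orbits of closed linear groups

`local_closing`: a point with near-returns in a leaf which is the orbit of a closed linear group, on
which a power of `F` is affine, becomes periodic after a small perturbation of `F` supported near the
point and its preimage.
-/

set_option autoImplicit false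
set_option linter.unusedSectionVars false

open scoped Manifold ContDiff Topology NNReal
open Filter Set Metric

universe u

namespace Pool.Agent.Helper36x.HC

open Pool.Agent.H718R2.G Pool.Agent.W564.SC Pool.Agent.TH382.QC Pool.Agent.E8helper46.FL
  Pool.Agent.TH80.CLX

section leaf

variable {A : Type} [NormedRing A] [NormedAlgebra ℝ A] [FiniteDimensional ℝ A] [CompleteSpace A]
  {D : Subgroup Aˣ} {hD : IsClosed (D : Set Aˣ)}
  {n : ℕ} {N : Type u} [TopologicalSpace N] [ChartedSpace (V n) N]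
  {F : N → N} {O : Set N} {act : D → N → N} {φ : D →* D} {m : ℕ} {z : N}

theorem leaf_mem (hact : IsAction n N D O act) (hl : AffineLeaf F O act φ m z) (k : ℕ) :
    ∀ g : D, ∃ h : D, F^[m * k] (act g z) = act h z := by
  induction k with
  | zero => exact fun g => ⟨g, rfl⟩
  | succ k ih =>
    intro g
    obtain ⟨h, hh⟩ := ih g
    obtain ⟨g₀, hg₀⟩ := hl.ret
    refine ⟨φ h * g₀, ?_⟩
    rw [Nat.mul_succ, Nat.add_comm, Function.iterate_add_apply, hh, hl.equi, hg₀,
      hact.mul _ _ _ hl.mem]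

theorem leaf_step (hact : IsAction n N D O act) (hl : AffineLeaf F O act φ m z) (a h : D) :
    F^[m] (act a (act h z)) = act (φ a) (F^[m] (act h z)) := by
  obtain ⟨g₀, hg₀⟩ := hl.ret
  have h1 : F^[m] z ∈ O := by
    rw [hg₀]
    exact hact.maps _ _ hl.mem
  rw [← hact.mul _ _ _ hl.mem, hl.equi, hl.equi, map_mul, hact.mul _ _ _ h1]

theorem leaf_iter (hact : IsAction n N D O act) (hl : AffineLeaf F O act φ m z) (k : ℕ)
    (a g : D) : F^[m * k] (act (a * g) z) = act (φ^[k] a) (F^[m * k] (act g z)) := by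
  induction k with
  | zero => exact hact.mul _ _ _ hl.mem
  | succ k ih =>
    obtain ⟨h, hh⟩ := leaf_mem hact hl k g
    rw [Nat.mul_succ, Nat.add_comm, Function.iterate_add_apply, ih, hh, leaf_step hact hl,
      ← hh, ← Function.iterate_add_apply, Function.iterate_succ_apply']

theorem act_cont (hact : IsAction n N D O act) (hz : z ∈ O) :
    Continuous (fun g : D => act g z) := by
  have h1 : ContinuousOn (fun g : D => ((g, z) : D × N)) univ :=
    (Continuous.prodMk_left z).continuousOn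
  have h2 := hact.cont.comp h1 (fun g _ => ⟨mem_univ _, hz⟩)
  exact continuousOn_univ.1 h2

/-- Near-returns which differ by a small fixed element of the group. -/
theorem near_ret (hact : IsAction n N D O act) (hl : AffineLeaf F O act φ m z)
    {k : ℕ → ℕ} (hret : ReturnsAlong F act m z k) (E0 : Submodule ℝ (lieAlg D hD))
    (hE : ∀ B ∈ 𝓝 (1 : D), ∀ ε : ℝ, 0 < ε → ∃ B' ∈ 𝓝 (1 : D), ∀ᶠ i in atTop, ∀ b ∈ B',
        ∃ v ∈ B, ∃ ζ : E0, ‖ζ‖ < ε ∧ φ^[k i] v * b = expD (-(ζ : lieAlg D hD)) * v)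
    (W : Set N) (hW : W ∈ 𝓝 z) (ε : ℝ) (hε : 0 < ε) :
    ∃ (i : ℕ) (g : D) (ζ : E0), act g z ∈ W ∧ ‖ζ‖ < ε ∧
      F^[m * k i] (act g z) = act (expD (-(ζ : lieAlg D hD))) (act g z) := by
  have hc := act_cont hact hl.mem
  have hW1 : ∀ᶠ p : D × D in 𝓝 (1, 1), act (p.1 * p.2) z ∈ W := by
    have h1 : Continuous (fun p : D × D => act (p.1 * p.2) z) := hc.comp continuous_mul
    have h2 := h1.tendsto (1, 1)
    simp only [mul_one] at h2
    rw [hact.one _ hl.mem] at h2
    exact h2.eventually hW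
  rw [nhds_prod_eq] at hW1
  obtain ⟨B₀, hB₀, B₀', hB₀', hBB⟩ := Filter.mem_prod_iff.1 hW1
  obtain ⟨B', hB', hK⟩ := hE B₀ hB₀ ε hε
  have hW2 : ∀ᶠ p : D × D in 𝓝 (1, 1), p.2 * p.1⁻¹ ∈ B' := by
    have h1 : Continuous (fun p : D × D => p.2 * p.1⁻¹) :=
      continuous_snd.mul continuous_fst.inv
    have h2 := h1.tendsto (1, 1)
    simp only [inv_one, mul_one] at h2
    exact h2.eventually hB'
  rw [nhds_prod_eq] at hW2
  obtain ⟨B₁, hB₁, B₁', hB₁', hBB1⟩ := Filter.mem_prod_iff.1 hW2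
  obtain ⟨i, ⟨b₁, hb₁, b₂, hb₂, hbb⟩, hKi⟩ :=
    ((hret _ (inter_mem (inter_mem hB₀' hB₁) hB₁')).and hK).exists
  have hβ : b₂ * b₁⁻¹ ∈ B' := hBB1 (⟨hb₁.1.2, hb₂.2⟩ : ((b₁, b₂) : D × D) ∈ B₁ ×ˢ B₁')
  obtain ⟨v, hv, ζ, hζ, he⟩ := hKi _ hβ
  refine ⟨i, v * b₁, ζ, hBB (⟨hv, hb₁.1.1⟩ : ((v, b₁) : D × D) ∈ B₀ ×ˢ B₀'), hζ, ?_⟩
  rw [leaf_iter hact hl, hbb, ← hact.mul _ _ _ hl.mem, ← hact.mul _ _ _ hl.mem]
  congr 1
  calc φ^[k i] v * b₂ = φ^[k i] v * (b₂ * b₁⁻¹) * b₁ := by group
    _ = _ := by rw [he, mul_assoc]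

end leaf

section smooth

variable {A : Type} [NormedRing A] [NormedAlgebra ℝ A] [FiniteDimensional ℝ A] [CompleteSpace A]

theorem exp_smooth : ContDiff ℝ ∞ (NormedSpace.exp : A → A) := by
  rw [contDiff_iff_contDiffAt]
  intro x
  exact (NormedSpace.exp_analytic (𝕂 := ℝ) x).contDiffAt

variable {D : Subgroup Aˣ} {hD : IsClosed (D : Set Aˣ)} {n : ℕ} {N : Type u} [TopologicalSpace N]
  [ChartedSpace (V n) N] {O : Set N} {act : D → N → N}

/-- the local action of a subspace of the Lie algebra in coordinates -/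
theorem lineAct (hact : IsAction n N D O act) {j : ℕ} (e : V j →L[ℝ] lieAlg D hD) :
    LineAct j n N O (fun s y => act (expD (e s)) y) where
  isOpen := hact.isOpen
  maps := fun s y hy => hact.maps _ y hy
  smooth := by
    refine hact.smooth j (fun s => expD (e s)) ?_
    show ContDiff ℝ ∞ (fun s : V j => NormedSpace.exp ((e s : lieAlg D hD) : A))
    exact exp_smooth.comp ((lieAlg D hD).subtypeL.contDiff.comp e.contDiff)
  zero := fun y hy => by
    show act (expD (e 0)) y = y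
    rw [map_zero, expD_zero, hact.one y hy]
  add := fun a b s y hy => by
    show act (expD (e ((a + b) • s))) y = act (expD (e (a • s))) (act (expD (e (b • s))) y)
    rw [map_smul, expD_add_smul, ← hact.mul _ _ y hy, map_smul, map_smul]

end smooth

theorem per_conj {n : ℕ} {N : Type u} [TopologicalSpace N] [ChartedSpace (V n) N] {r : ℕ∞}
    {f g : N → N} (T : DiffM n N r) (h : ∀ y, g y = T.symm (f (T y))) {z : N}
    (hz : IsPer f (T z)) : IsPer g z := by
  obtain ⟨k, hk, hkz⟩ := hz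
  refine ⟨k, hk, ?_⟩
  have h1 : ∀ i : ℕ, g^[i] z = T.symm (f^[i] (T z)) := by
    intro i
    induction i with
    | zero => exact (T.symm_apply_apply z).symm
    | succ i ih =>
      rw [Function.iterate_succ_apply', ih, h, T.apply_symm_apply, Function.iterate_succ_apply' f]
  rw [h1, hkz, T.symm_apply_apply]

/-- a sequence in `N` and a sequence of parameters from a statement for all neighbourhoods -/
theorem exists_seqs {N : Type u} [TopologicalSpace N] [FirstCountableTopology N] (z : N)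
    {E : Type*} [NormedAddCommGroup E] (P : N → E → Prop)
    (h : ∀ W ∈ 𝓝 z, ∀ ε : ℝ, 0 < ε → ∃ y ∈ W, ∃ s : E, ‖s‖ < ε ∧ P y s) :
    ∃ (y : ℕ → N) (s : ℕ → E), Tendsto y atTop (𝓝 z) ∧ Tendsto s atTop (𝓝 0) ∧
      ∀ i, P (y i) (s i) := by
  obtain ⟨B, hB⟩ := (𝓝 z).exists_antitone_basis
  have key : ∀ i : ℕ, ∃ y ∈ B i, ∃ s : E, ‖s‖ < 1 / ((i : ℝ) + 1) ∧ P y s := fun i =>
    h (B i) (hB.1.mem_of_mem trivial) _ (by positivity)
  choose y hy s hs hP using key
  refine ⟨y, s, hB.tendsto hy, ?_, hP⟩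
  rw [tendsto_zero_iff_norm_tendsto_zero]
  exact squeeze_zero (fun i => norm_nonneg _) (fun i => (hs i).le)
    tendsto_one_div_add_atTop_nhds_zero_nat

/-- The perturbation moves points of the leaf along the local action, and periodic points appear. -/
theorem pert_per {A : Type} [NormedRing A] [NormedAlgebra ℝ A] [FiniteDimensional ℝ A]
    [CompleteSpace A] {D : Subgroup Aˣ} {hD : IsClosed (D : Set Aˣ)}
    {n : ℕ} {N : Type u} [TopologicalSpace N] [ChartedSpace (V n) N] [IsManifold (𝓡 n) ∞ N]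
    {F : N → N} {O : Set N} {act : D → N → N} {φ : D →* D} {m : ℕ} {z : N}
    (hact : IsAction n N D O act) (hl : AffineLeaf F O act φ m z)
    {ρ : N → ℝ} (hρc : Continuous ρ) (hρn : ∀ y, 0 ≤ ρ y) (hρz : ρ z = 1)
    (hρ0 : ∀ (i : ℕ) (g : D), 1 ≤ i → i < m → ρ (F^[i] (act g z)) = 0)
    {j : ℕ} (e : V j →L[ℝ] lieAlg D hD) (he : ∀ s, φ (expD (e s)) = expD (e s))
    {r : ℕ∞} (H : V j → DiffM n N r) {κ : ℝ} (hκ : 0 < κ)
    (hH : ∀ s, ‖s‖ < κ → ∀ y, H s y = F (open Classical in
      if y ∈ O then act (expD (e (ρ y • s))) y else y)) :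
    ∃ W₁ ∈ 𝓝 z, ∃ ε > 0, ∀ (g : D) (s : V j) (k : ℕ), 1 ≤ k → act g z ∈ W₁ → ‖s‖ < ε →
      F^[m * k] (act g z) = act (expD (e (-s))) (act g z) →
      ∃ t : ℝ, |t| ≤ 2 ∧ IsPer (H (t • s)) (act g z) := by
  classical
  have hA := lineAct hact e
  have hexp0 : expD (e 0) = 1 := by rw [map_zero, expD_zero]
  -- one period of the perturbed map
  have h1 : ∀ s : V j, ‖s‖ < κ → ∀ (a : D) (i : ℕ), 1 ≤ i → i ≤ m →
      (H s)^[i] (act a z) = F^[i] (act (expD (e (ρ (act a z) • s)) * a) z) := by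
    intro s hs a i hi
    induction i with
    | zero => omega
    | succ i ih =>
      intro him
      rcases Nat.eq_zero_or_pos i with h0 | h0
      · subst h0
        show H s (act a z) = F (act (expD (e (ρ (act a z) • s)) * a) z)
        rw [hH s hs, if_pos (hact.maps _ _ hl.mem), ← hact.mul _ _ z hl.mem]
      · rw [Function.iterate_succ_apply', ih h0 (by omega), hH s hs,
          Function.iterate_succ_apply' F, hρ0 i _ h0 (by omega), zero_smul, hexp0]
        congr 1
        by_cases hO : F^[i] (act (expD (e (ρ (act a z) • s)) * a) z) ∈ O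
        · rw [if_pos hO, hact.one _ hO]
        · rw [if_neg hO]
  have h2 : ∀ s : V j, ‖s‖ < κ → ∀ a : D,
      (H s)^[m] (act a z) = act (expD (e (ρ (act a z) • s))) (F^[m] (act a z)) := by
    intro s hs a
    rw [h1 s hs a m hl.pos le_rfl, hact.mul _ _ z hl.mem, leaf_step hact hl, he]
  -- a neighbourhood on which the bump function is large
  have hcontA : Continuous (fun q : V j × D => ρ (act (expD (e q.1)) (act q.2 z))) := by
    have h3 : Continuous (fun q : V j × D => act (expD (e q.1) * q.2) z) :=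
      (act_cont hact hl.mem).comp
        (((expD_cont.comp e.continuous).comp continuous_fst).mul continuous_snd)
    have h4 : (fun q : V j × D => ρ (act (expD (e q.1)) (act q.2 z))) =
        ρ ∘ (fun q : V j × D => act (expD (e q.1) * q.2) z) := by
      funext q
      show _ = ρ (act (expD (e q.1) * q.2) z)
      rw [hact.mul _ _ z hl.mem]
    rw [h4]
    exact hρc.comp h3
  have hcontO : ContinuousOn (fun q : V j × N => act (expD (e q.1)) q.2) (univ ×ˢ O) := by
    exact hA.smooth.continuousOn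
  have hev : ∀ᶠ q : V j × N in 𝓝 (0, z), 1 / 2 ≤ ρ (act (expD (e q.1)) q.2) := by
    have h5 : ContinuousAt (fun q : V j × N => act (expD (e q.1)) q.2) (0, z) :=
      hcontO.continuousAt ((isOpen_univ.prod hact.isOpen).mem_nhds ⟨mem_univ _, hl.mem⟩)
    have h6 : ContinuousAt (fun q : V j × N => ρ (act (expD (e q.1)) q.2)) (0, z) :=
      ContinuousAt.comp (g := ρ) hρc.continuousAt h5
    have h7 := h6.tendsto
    simp only [hexp0] at h7
    rw [hact.one _ hl.mem, hρz] at h7
    exact (h7.eventually (lt_mem_nhds (by norm_num : (1 / 2 : ℝ) < 1))).mono fun q hq => hq.le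
  rw [nhds_prod_eq] at hev
  obtain ⟨S₁, hS₁, W₁, hW₁, hSW⟩ := Filter.mem_prod_iff.1 hev
  obtain ⟨η, hη, hηS⟩ := Metric.mem_nhds_iff.1 hS₁
  refine ⟨W₁, hW₁, min η (κ / 3), lt_min hη (by positivity), ?_⟩
  intro g s k hk hgW hs hret
  have hsη : ‖s‖ < η := hs.trans_le (min_le_left _ _)
  have hsκ : ‖s‖ < κ / 3 := hs.trans_le (min_le_right _ _)
  choose h hh using leaf_mem hact hl
  let b : ℕ → ℝ → ℝ := fun l x => ρ (act (expD (e (x • s))) (F^[m * l] (act g z)))
  have hbc : ∀ l, Continuous (b l) := by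
    intro l
    show Continuous (fun x : ℝ => ρ (act (expD (e (x • s))) (F^[m * l] (act g z))))
    rw [hh l g]
    exact hcontA.comp (Continuous.prodMk (continuous_id.smul continuous_const) continuous_const)
  have hb0 : ∀ l x, 0 ≤ b l x := fun l x => hρn _
  obtain ⟨t, ht0, ht2, htT⟩ := Pool.Agent.R196.Loc.disp_ivt b hbc hb0 (ε := 2) (T := 1)
    two_pos zero_le_one 1 k hk (by norm_num) (by
      intro l hl1 x hx0 hx1
      have hl0 : l = 0 := by omega
      subst hl0
      show 1 / 2 ≤ ρ (act (expD (e (x • s))) (F^[m * (0 * k)] (act g z)))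
      rw [Nat.zero_mul, Nat.mul_zero]
      have hm : ((x • s, act g z) : V j × N) ∈ S₁ ×ˢ W₁ := by
        refine ⟨hηS ?_, hgW⟩
        rw [mem_ball, dist_zero_right, norm_smul, Real.norm_eq_abs, abs_of_nonneg hx0]
        nlinarith [norm_nonneg s]
      exact hSW hm)
  rw [one_mul] at htT
  have hts : ‖t • s‖ < κ := by
    rw [norm_smul, Real.norm_eq_abs, abs_of_nonneg ht0]
    nlinarith [norm_nonneg s]
  refine ⟨t, by rw [abs_of_nonneg ht0]; exact ht2, m * k, Nat.mul_pos hl.pos hk, ?_⟩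
  have h3 : ∀ l : ℕ, (H (t • s))^[m * l] (act g z) =
      act (expD (e (Pool.Agent.R196.Loc.disp b t l • s))) (F^[m * l] (act g z)) := by
    intro l
    induction l with
    | zero =>
      show act g z = act (expD (e ((0 : ℝ) • s))) (act g z)
      rw [zero_smul, hexp0, hact.one _ (hact.maps _ _ hl.mem)]
    | succ l ih =>
      rw [Nat.mul_succ, Nat.add_comm, Function.iterate_add_apply, ih, hh l g,
        ← hact.mul _ _ z hl.mem, h2 _ hts, hact.mul _ _ z hl.mem, leaf_step hact hl, he,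
        Function.iterate_add_apply, hh l g]
      have hb : ρ (act (expD (e (Pool.Agent.R196.Loc.disp b t l • s))) (act (h l g) z)) =
          b l (Pool.Agent.R196.Loc.disp b t l) := by
        show _ = ρ (act (expD (e (Pool.Agent.R196.Loc.disp b t l • s))) (F^[m * l] (act g z)))
        rw [hh l g]
      rw [hb]
      have hO : F^[m] (act (h l g) z) ∈ O := by
        have := hh 1 (h l g)
        rw [Nat.mul_one] at this
        rw [this]
        exact hact.maps _ _ hl.mem
      rw [← hact.mul _ _ _ hO]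
      congr 1
      have e2 : Pool.Agent.R196.Loc.disp b t (l + 1) • s =
          (b l (Pool.Agent.R196.Loc.disp b t l) * t + Pool.Agent.R196.Loc.disp b t l) • s := by
        show (Pool.Agent.R196.Loc.disp b t l + t * b l (Pool.Agent.R196.Loc.disp b t l)) • s = _
        congr 1
        ring
      have e3 : ∀ a c : ℝ, expD (e ((a + c) • s)) = expD (e (a • s)) * expD (e (c • s)) := by
        intro a c
        rw [map_smul, expD_add_smul, ← map_smul, ← map_smul]
      rw [e2, e3, mul_smul]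
  rw [h3, htT, one_smul, hret, map_neg, expD_neg, ← hact.mul _ _ _ (hact.maps _ _ hl.mem),
    mul_inv_cancel, hact.one _ (hact.maps _ _ hl.mem)]

variable {n : ℕ} {N : Type u} [TopologicalSpace N] [T2Space N] [ChartedSpace (V n) N]
  [IsManifold (𝓡 n) ∞ N]

theorem firstCountable_of_charted (n : ℕ) (N : Type u) [TopologicalSpace N]
    [ChartedSpace (V n) N] : FirstCountableTopology N := by
  constructor
  intro z
  rw [← (chartAt (V n) z).symm_map_nhds_eq (mem_chart_source _ z)]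
  infer_instance

/-- **Closing with small support.** A nonwandering point of an affine leaf becomes periodic after a perturbation, small in the strong `C^r`
topology, which changes `F` only in a given neighbourhood of the point and in its preimage. -/
theorem local_closing (r : ℕ∞) (F : DiffM n N r) (z : N) (h : IsAffinePt n N F z)
    (W : Set N) (hW : W ∈ 𝓝 z) (U : Set (DiffM n N r)) (hU : IsOpen[strongTop n N r] U)
    (hFU : F ∈ U) : ∃ G ∈ U, IsPer G z ∧ ∀ y, y ∉ W → F y ∉ W → G y = F y := by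
  classical
  have hfc : FirstCountableTopology N := firstCountable_of_charted n N
  obtain ⟨A, _, _, _, _, D, hD, O, act, φ, m, k, hact, hl, hk, hφ, hnw⟩ := h
  obtain ⟨E0, hfix, hE⟩ := group_solve hφ
  obtain ⟨j, hj⟩ : ∃ j, j = Module.finrank ℝ E0 := ⟨_, rfl⟩
  let e0 : V j ≃L[ℝ] E0 := ContinuousLinearEquiv.ofFinrankEq (by rw [finrank_euclideanSpace_fin, hj])
  let e : V j →L[ℝ] lieAlg D hD := E0.subtypeL.comp (e0 : V j →L[ℝ] E0)
  have he : ∀ s, e s = ((e0 s : E0) : lieAlg D hD) := fun s => rfl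
  have hefix : ∀ s, φ (expD (e s)) = expD (e s) := fun s => hfix _ (e0 s).2
  -- the bump function
  have hW₀ : interior W ∩ (O ∩ (closure {y | ∃ i : ℕ, ∃ g : D, 1 ≤ i ∧ i < m ∧
      F^[i] (act g z) = y})ᶜ) ∈ 𝓝 z :=
    inter_mem (interior_mem_nhds.2 hW) (inter_mem (hact.isOpen.mem_nhds hl.mem)
      (isClosed_closure.isOpen_compl.mem_nhds hl.away))
  obtain ⟨f, -, hf⟩ := (SmoothBumpFunction.nhds_basis_tsupport (I := 𝓡 n) z).mem_iff.1 hW₀
  have hρ : ContMDiff (𝓡 n) 𝓘(ℝ, ℝ) ∞ (f : N → ℝ) := f.contMDiff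
  have hρ1 : ∀ y, y ∉ tsupport f → f y = 0 := fun y hy => image_eq_zero_of_notMem_tsupport hy
  obtain ⟨H, κ, hκ, hH0, hfam, hH⟩ := line_fam (lineAct hact e) hρ (tsupport f)
    f.hasCompactSupport (isClosed_tsupport _) (fun y hy => (hf hy).2.1) (fun y _ => hρ1 y) r F
  obtain ⟨W₁, hW₁, ε₁, hε₁, hpert⟩ := pert_per hact hl hρ.continuous (fun y => f.nonneg)
    f.eq_one (fun i g hi1 him => hρ1 _ fun hmem => (hf hmem).2.2 (subset_closure
      ⟨i, g, hi1, him, rfl⟩)) e hefix H hκ hH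
  obtain ⟨T, Q, W', x, hQ, hQW, hTQ, hW', hT0, hT1, hT2, hx, hTx⟩ :=
    moves_cpt (n := n) r z W hW
  obtain ⟨y, s, hy, hs, hP⟩ := exists_seqs z (fun (y : N) (s : V j) => ‖s‖ < κ ∧ IsPer (H s) y) (by
    intro W₂ hW₂ ε hε
    obtain ⟨i, g, ζ, hg, hζ, hret⟩ := near_ret hact hl hnw E0 hE (W₁ ∩ W₂)
      (inter_mem hW₁ hW₂)
      (min ε₁ (min ε κ / 3) / (‖(e0.symm : E0 →L[ℝ] V j)‖ + 1)) (by positivity)
    have hn : ‖e0.symm ζ‖ < min ε₁ (min ε κ / 3) := by
      rw [lt_div_iff₀ (by positivity)] at hζ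
      have h1 : ‖e0.symm ζ‖ ≤ ‖(e0.symm : E0 →L[ℝ] V j)‖ * ‖ζ‖ :=
        (e0.symm : E0 →L[ℝ] V j).le_opNorm ζ
      nlinarith [norm_nonneg ζ]
    obtain ⟨t, ht, hper'⟩ := hpert g (e0.symm ζ) (k i) (hk i) hg.1 (hn.trans_le (min_le_left _ _)) (by
      rw [hret, map_neg, he, e0.apply_symm_apply])
    have h3 : ‖t • e0.symm ζ‖ < min ε κ := by
      have h4 := hn.trans_le (min_le_right _ _)
      rw [norm_smul, Real.norm_eq_abs]
      have h5 : 0 < min ε κ := lt_min hε hκ
      nlinarith [norm_nonneg (e0.symm ζ)]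
    exact ⟨_, hg.2, _, h3.trans_le (min_le_left _ _), h3.trans_le (min_le_right _ _), hper'⟩)
  -- conjugation
  have hcomp : S_COMP := Pool.Agent.W917.SC.comp
  have hxy : Tendsto (fun m => x (y m)) atTop (𝓝 0) := hx.comp hy
  have c1 : Cv (fun m => T (x (y m))) (T 0) := Cv.fam hcomp hT1 hxy
  have c2 : Cv (fun m => (T (x (y m))).symm) (T 0).symm :=
    Cv.fam (H := fun a => (T a).symm) hcomp hT2 hxy
  have c4 : Cv (fun m => H (s m)) (H 0) := Cv.fam hcomp hfam hs
  have c3 := Cv.trans hcomp c1 (Cv.trans hcomp c4 c2)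
  have e1 : (T 0).trans ((H 0).trans (T 0).symm) = F := by
    rw [hT0, hH0]
    ext y
    rfl
  rw [e1] at c3
  have hTs : ∀ a : V n, ∀ y, y ∉ Q → (T a).symm y = y := by
    intro a y hy
    have := hTQ a y hy
    calc (T a).symm y = (T a).symm (T a y) := by rw [this]
      _ = y := (T a).symm_apply_apply y
  have hout : ∀ i, ∀ w, w ∉ Q → w ∉ tsupport f → F w ∉ Q →
      (T (x (y i))).trans ((H (s i)).trans (T (x (y i))).symm) w = F w := by
    intro i w h1 h2 h3
    show (T (x (y i))).symm (H (s i) (T (x (y i)) w)) = F w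
    rw [hTQ _ _ h1, hH _ (hP i).1, hρ1 _ h2]
    have h4 : (if w ∈ O then act (expD (e ((0 : ℝ) • s i))) w else w) = w := by
      split_ifs with h
      · rw [zero_smul, map_zero, expD_zero, hact.one _ h]
      · rfl
    rw [h4, hTs _ _ h3]
  have hQ' : IsCompact (Q ∪ tsupport f ∪ F ⁻¹' Q) :=
    (hQ.union f.hasCompactSupport).union (F.toHomeomorph.isCompact_preimage.2 hQ)
  have h5 := mem_cpt c3 hQ' (fun i w hw => hout i w (fun h => hw (Or.inl (Or.inl h)))
    (fun h => hw (Or.inl (Or.inr h))) (fun h => hw (Or.inr h))) hU hFU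
  have h6 : ∀ᶠ i in atTop, y i ∈ W' := hy.eventually hW'
  obtain ⟨i, h7, h8⟩ := (h5.and h6).exists
  refine ⟨_, h7, per_conj (T (x (y i))) (f := H (s i)) (fun _ => rfl) ?_, fun w hw1 hw2 => ?_⟩
  · rw [hTx _ h8]
    exact (hP i).2
  · exact hout i w (fun h => hw1 (hQW h)) (fun h => hw1 (interior_subset (hf h).1))
      (fun h => hw2 (hQW h))

end Pool.Agent.Helper36x.HC
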