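import Pool.Agent.Helper36x.HC.Cor1
import Pool.Agent.Helper36x.HC.Defs2
import Pool.Agent.Helper36x.HC.Interp

/-!
# Conjugations by diagonalizable matrices
-/

set_option autoImplicit false
set_option linter.unusedSectionVars false

open scoped Topology ComplexConjugate
open Filter Set

namespace Pool.Agent.Helper36x.HC

open Pool.Agent.E8helper46.FL

section general

variable {A : Type} [NormedRing A] [NormedAlgebra ℝ A] [FiniteDimensional ℝ A] [CompleteSpace A]
  {D : Subgroup Aˣ} {hD : IsClosed (D : Set Aˣ)}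

/-- the adjoint action -/
noncomputable def adL (hD : IsClosed (D : Set Aˣ)) (h : D) : lieAlg D hD ≃ₗ[ℝ] lieAlg D hD where
  toFun X := ⟨((h : Aˣ) : A) * (X : A) * ((((h : Aˣ)⁻¹ : Aˣ)) : A), conj_mem_lieAlg X.2 h.2⟩
  invFun X := ⟨((((h : Aˣ)⁻¹ : Aˣ)) : A) * (X : A) * ((h : Aˣ) : A), by
    have := conj_mem_lieAlg X.2 (D.inv_mem h.2)
    rwa [inv_inv] at this⟩
  left_inv X := by
    apply Subtype.ext
    show ((((h : Aˣ)⁻¹ : Aˣ)) : A) * (((h : Aˣ) : A) * (X : A) * ((((h : Aˣ)⁻¹ : Aˣ)) : A)) *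
      ((h : Aˣ) : A) = X
    rw [mul_assoc, mul_assoc, mul_assoc, Units.inv_mul, mul_one, ← mul_assoc, Units.inv_mul,
      one_mul]
  right_inv X := by
    apply Subtype.ext
    show ((h : Aˣ) : A) * (((((h : Aˣ)⁻¹ : Aˣ)) : A) * (X : A) * ((h : Aˣ) : A)) *
      ((((h : Aˣ)⁻¹ : Aˣ)) : A) = X
    rw [mul_assoc, mul_assoc, mul_assoc, Units.mul_inv, mul_one, ← mul_assoc, Units.mul_inv,
      one_mul]
  map_add' X Y := by
    apply Subtype.ext
    show ((h : Aˣ) : A) * ((X : A) + (Y : A)) * ((((h : Aˣ)⁻¹ : Aˣ)) : A) = _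
    rw [mul_add, add_mul]
    rfl
  map_smul' c X := by
    apply Subtype.ext
    show ((h : Aˣ) : A) * (c • (X : A)) * ((((h : Aˣ)⁻¹ : Aˣ)) : A) = _
    rw [mul_smul_comm, smul_mul_assoc]
    rfl

theorem adL_exp (h : D) (X : lieAlg D hD) :
    (MulAut.conj h).toMonoidHom (expD X) = expD (adL hD h X) := by
  apply Subtype.ext
  show (h : Aˣ) * ex (X : A) * (h : Aˣ)⁻¹ =
    ex (((h : Aˣ) : A) * (X : A) * ((((h : Aˣ)⁻¹ : Aˣ)) : A))
  rw [ex_conj]

end general

section matrix

open Matrix Polynomial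

variable {d : ℕ}

/-- coordinates in the basis of the eigenvectors -/
noncomputable def co (P : (MC d)ˣ) (Y : MC d) (i j : Fin d) : ℂ :=
  (((P⁻¹ : (MC d)ˣ) : MC d) * Y * (P : MC d)) i j

theorem co_add (P : (MC d)ˣ) (Y Z : MC d) (i j : Fin d) :
    co P (Y + Z) i j = co P Y i j + co P Z i j := by
  unfold co
  rw [mul_add, add_mul, Matrix.add_apply]

theorem co_smul (P : (MC d)ˣ) (c : ℝ) (Y : MC d) (i j : Fin d) :
    co P (c • Y) i j = (c : ℂ) * co P Y i j := by
  unfold co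
  rw [mul_smul_comm, smul_mul_assoc, Matrix.smul_apply, Complex.real_smul]

theorem co_inj (P : (MC d)ˣ) {Y Z : MC d} (h : ∀ i j, co P Y i j = co P Z i j) : Y = Z := by
  have h1 : ((P⁻¹ : (MC d)ˣ) : MC d) * Y * (P : MC d) = ((P⁻¹ : (MC d)ˣ) : MC d) * Z * (P : MC d) :=
    Matrix.ext h
  have h2 : ∀ Y : MC d, (P : MC d) * (((P⁻¹ : (MC d)ˣ) : MC d) * Y * (P : MC d)) *
      ((P⁻¹ : (MC d)ˣ) : MC d) = Y := by
    intro Y
    simp only [mul_assoc, Units.mul_inv, mul_one]
    rw [← mul_assoc, Units.mul_inv, one_mul]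
  rw [← h2 Y, h1, h2]

theorem diag_ne {h h' : MC d} (hh : h * h' = 1) {P : (MC d)ˣ} {lam : Fin d → ℂ}
    (H : DiagBy h P lam) (i : Fin d) : lam i ≠ 0 := by
  intro h0
  have h1 : Matrix.diagonal lam = ((P⁻¹ : (MC d)ˣ) : MC d) * h * (P : MC d) := by
    rw [H]
    simp only [mul_assoc, Units.inv_mul, mul_one]
    rw [← mul_assoc, Units.inv_mul, one_mul]
  have h2 : Matrix.diagonal lam * (((P⁻¹ : (MC d)ˣ) : MC d) * h' * (P : MC d)) = 1 := by
    rw [h1]
    calc ((P⁻¹ : (MC d)ˣ) : MC d) * h * (P : MC d) * (((P⁻¹ : (MC d)ˣ) : MC d) * h' * (P : MC d))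
        = ((P⁻¹ : (MC d)ˣ) : MC d) * h * ((P : MC d) * ((P⁻¹ : (MC d)ˣ) : MC d)) * h' *
          (P : MC d) := by simp only [mul_assoc]
      _ = ((P⁻¹ : (MC d)ˣ) : MC d) * (h * h') * (P : MC d) := by
          rw [Units.mul_inv, mul_one]; simp only [mul_assoc]
      _ = 1 := by rw [hh, mul_one, Units.inv_mul]
  have h3 := congrFun (congrFun h2 i) i
  rw [Matrix.diagonal_mul, h0, zero_mul, Matrix.one_apply_eq] at h3
  exact zero_ne_one h3

/-- the coordinates of `h Y h⁻¹` -/
theorem co_conj {h h' : MC d} (hh : h * h' = 1) {P : (MC d)ˣ} {lam : Fin d → ℂ}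
    (H : DiagBy h P lam) (Y : MC d) (i j : Fin d) :
    co P (h * Y * h') i j = lam i / lam j * co P Y i j := by
  have hinv : h' = (P : MC d) * Matrix.diagonal (fun i => (lam i)⁻¹) *
      ((P⁻¹ : (MC d)ˣ) : MC d) := by
    have h1 : h * ((P : MC d) * Matrix.diagonal (fun i => (lam i)⁻¹) *
        ((P⁻¹ : (MC d)ˣ) : MC d)) = 1 := by
      have e1 : Matrix.diagonal lam * Matrix.diagonal (fun i => (lam i)⁻¹) = 1 := by
        rw [Matrix.diagonal_mul_diagonal, ← Matrix.diagonal_one]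
        congr 1
        funext i
        exact mul_inv_cancel₀ (diag_ne hh H i)
      calc h * ((P : MC d) * Matrix.diagonal (fun i => (lam i)⁻¹) *
        ((P⁻¹ : (MC d)ˣ) : MC d)) = (P : MC d) * Matrix.diagonal lam *
          (((P⁻¹ : (MC d)ˣ) : MC d) * (P : MC d)) * Matrix.diagonal (fun i => (lam i)⁻¹) *
          ((P⁻¹ : (MC d)ˣ) : MC d) := by
            conv_lhs => rw [show h = _ from H]
            simp only [mul_assoc]
        _ = (P : MC d) * (Matrix.diagonal lam * Matrix.diagonal (fun i => (lam i)⁻¹)) *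
          ((P⁻¹ : (MC d)ˣ) : MC d) := by rw [Units.inv_mul, mul_one]; simp only [mul_assoc]
        _ = 1 := by rw [e1, mul_one, Units.mul_inv]
    have h2 : h' * h = 1 := mul_eq_one_comm.1 hh
    calc h' = h' * (h * ((P : MC d) * Matrix.diagonal (fun i => (lam i)⁻¹) *
        ((P⁻¹ : (MC d)ˣ) : MC d))) := by rw [h1, mul_one]
      _ = _ := by rw [← mul_assoc h' h, h2, one_mul]
  unfold co
  have e : ((P⁻¹ : (MC d)ˣ) : MC d) * (h * Y * h') * (P : MC d) =
      Matrix.diagonal lam * (((P⁻¹ : (MC d)ˣ) : MC d) * Y * (P : MC d)) *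
        Matrix.diagonal (fun i => (lam i)⁻¹) := by
    rw [hinv]
    conv_lhs => rw [show h = _ from H]
    calc _ = (((P⁻¹ : (MC d)ˣ) : MC d) * (P : MC d)) * Matrix.diagonal lam *
        (((P⁻¹ : (MC d)ˣ) : MC d) * Y * (P : MC d)) *
        Matrix.diagonal (fun i => (lam i)⁻¹) * (((P⁻¹ : (MC d)ˣ) : MC d) * (P : MC d)) := by
          simp only [mul_assoc]
      _ = _ := by rw [Units.inv_mul, one_mul, mul_one]
  rw [e, Matrix.mul_diagonal, Matrix.diagonal_mul]
  ring

variable {A : Type} [NormedRing A] [NormedAlgebra ℝ A] [FiniteDimensional ℝ A] [CompleteSpace A]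
  {D : Subgroup Aˣ} {hD : IsClosed (D : Set Aˣ)} {e : A →ₐ[ℝ] MC d}
  {h : D} {P : (MC d)ˣ} {lam : Fin d → ℂ}

theorem mul_one' (h : D) : e ((h : Aˣ) : A) * e ((((h : Aˣ)⁻¹ : Aˣ)) : A) = 1 := by
  rw [← map_mul, Units.mul_inv, map_one]

theorem co_ad (H : DiagBy (e ((h : Aˣ) : A)) P lam) (X : lieAlg D hD) (i j : Fin d) :
    co P (e (adL hD h X : A)) i j = lam i / lam j * co P (e (X : A)) i j := by
  rw [← co_conj (mul_one' h) H (e (X : A)) i j, ← map_mul, ← map_mul]
  rfl

theorem co_ad_symm (H : DiagBy (e ((h : Aˣ) : A)) P lam) (X : lieAlg D hD) (i j : Fin d) :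
    co P (e ((adL hD h).symm X : A)) i j = (lam i / lam j)⁻¹ * co P (e (X : A)) i j := by
  have h1 := co_ad H ((adL hD h).symm X) i j
  rw [(adL hD h).apply_symm_apply] at h1
  rw [h1, ← mul_assoc, inv_mul_cancel₀ (div_ne_zero (diag_ne (mul_one' h) H i)
    (diag_ne (mul_one' h) H j)), one_mul]

theorem co_iter (H : DiagBy (e ((h : Aˣ) : A)) P lam) (k : ℕ) (X : lieAlg D hD) (i j : Fin d) :
    co P (e ((adL hD h)^[k] X : lieAlg D hD)) i j =
      (lam i / lam j) ^ k * co P (e (X : A)) i j := by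
  induction k with
  | zero => rw [pow_zero, one_mul]; rfl
  | succ k ih =>
    rw [Function.iterate_succ_apply', co_ad H, ih, pow_succ]
    ring

theorem co_iter_symm (H : DiagBy (e ((h : Aˣ) : A)) P lam) (k : ℕ) (X : lieAlg D hD)
    (i j : Fin d) : co P (e ((adL hD h).symm^[k] X : lieAlg D hD)) i j =
      ((lam i / lam j)⁻¹) ^ k * co P (e (X : A)) i j := by
  induction k with
  | zero => rw [pow_zero, one_mul]; rfl
  | succ k ih =>
    rw [Function.iterate_succ_apply', co_ad_symm H, ih, pow_succ]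
    ring

theorem co_poly (H : DiagBy (e ((h : Aˣ) : A)) P lam) (q : ℝ[X]) (X : lieAlg D hD)
    (i j : Fin d) :
    co P (e ((aeval (adL hD h).toLinearMap q X : lieAlg D hD) : A)) i j =
      aeval (lam i / lam j) q * co P (e (X : A)) i j := by
  induction q using Polynomial.induction_on' generalizing X with
  | add p q hp hq =>
    rw [map_add, LinearMap.add_apply, Submodule.coe_add, map_add, co_add, hp, hq, map_add,
      add_mul]
  | monomial k c =>
    rw [aeval_monomial, aeval_monomial, Module.End.mul_apply, Module.algebraMap_end_apply,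
      Submodule.coe_smul, map_smul, co_smul, Module.End.pow_apply]
    show (c : ℂ) * co P (e ((adL hD h)^[k] X : lieAlg D hD)) i j = _
    rw [co_iter H]
    show _ = (c : ℂ) * _ * _
    ring

theorem co_norm (he : Function.Injective e) (P : (MC d)ˣ) :
    ∃ K : ℝ, 0 ≤ K ∧ ∀ Y : A, ‖Y‖ ≤ K * ∑ i, ∑ j, ‖co P (e Y) i j‖ := by
  let f : A →ₗ[ℝ] (Fin d → Fin d → ℂ) :=
    { toFun := fun Y => co P (e Y)
      map_add' := fun Y Z => by
        funext i j
        rw [map_add]
        exact co_add P _ _ i j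
      map_smul' := fun c Y => by
        funext i j
        rw [map_smul]
        exact (co_smul P c _ i j).trans (Complex.real_smul).symm }
  have hf : LinearMap.ker f = ⊥ := by
    rw [LinearMap.ker_eq_bot]
    intro Y Z hYZ
    apply he
    apply co_inj P
    intro i j
    exact congrFun (congrFun hYZ i) j
  obtain ⟨K, hK, hKf⟩ := f.exists_antilipschitzWith hf
  refine ⟨K, K.2, fun Y => ?_⟩
  have h1 := hKf.le_mul_dist Y 0
  rw [map_zero, dist_zero_right, dist_zero_right] at h1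
  refine h1.trans (mul_le_mul_of_nonneg_left ?_ K.2)
  have h0 : 0 ≤ ∑ i, ∑ j, ‖co P (e Y) i j‖ :=
    Finset.sum_nonneg fun i _ => Finset.sum_nonneg fun j _ => norm_nonneg _
  rw [pi_norm_le_iff_of_nonneg h0]
  intro i
  rw [pi_norm_le_iff_of_nonneg h0]
  intro j
  calc ‖co P (e Y) i j‖ ≤ ∑ j, ‖co P (e Y) i j‖ :=
        Finset.single_le_sum (f := fun j => ‖co P (e Y) i j‖) (fun _ _ => norm_nonneg _)
          (Finset.mem_univ j)
    _ ≤ _ := Finset.single_le_sum (f := fun i => ∑ j, ‖co P (e Y) i j‖)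
          (fun _ _ => Finset.sum_nonneg fun j _ => norm_nonneg _) (Finset.mem_univ i)

/-- convergence to `0` in terms of the coordinates -/
theorem tendsto_co (he : Function.Injective e) (P : (MC d)ˣ) (Y : ℕ → lieAlg D hD)
    (hY : ∀ i j, Tendsto (fun k => co P (e (Y k : A)) i j) atTop (𝓝 0)) :
    Tendsto Y atTop (𝓝 0) := by
  obtain ⟨K, hK, hKY⟩ := co_norm he P
  rw [tendsto_zero_iff_norm_tendsto_zero]
  refine squeeze_zero (fun k => norm_nonneg _) (fun k => hKY (Y k : A)) ?_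
  have h1 : Tendsto (fun k => ∑ i, ∑ j, ‖co P (e (Y k : A)) i j‖) atTop
      (𝓝 (∑ i : Fin d, ∑ j : Fin d, (0 : ℝ))) := by
    refine tendsto_finsetSum _ fun i _ => tendsto_finsetSum _ fun j _ => ?_
    have := (hY i j).norm
    rwa [norm_zero] at this
  have h2 := h1.const_mul K
  simp only [Finset.sum_const_zero, mul_zero] at h2
  exact h2

/-- the decomposition into eigenvectors -/
theorem decomp (he : Function.Injective e) (H : DiagBy (e ((h : Aˣ) : A)) P lam)
    (X : lieAlg D hD) : ∃ X₀ X₁ X₂ X₃ : lieAlg D hD, X = X₀ + X₁ + X₂ + (X₃ - adL hD h X₃) ∧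
      adL hD h X₀ = X₀ ∧
      Tendsto (fun k : ℕ => (adL hD h)^[k] X₁) atTop (𝓝 0) ∧
      Tendsto (fun k : ℕ => (adL hD h).symm^[k] X₂) atTop (𝓝 0) ∧
      ∀ i j, ¬ (‖lam i / lam j‖ = 1 ∧ lam i / lam j ≠ 1) → co P (e (X₃ : A)) i j = 0 := by
  classical
  have hne := diag_ne (mul_one' h) H
  obtain ⟨S, hS⟩ : ∃ S : Finset ℂ, ∀ i j, lam i / lam j ∈ S :=
    ⟨Finset.univ.image (fun p : Fin d × Fin d => lam p.1 / lam p.2), fun i j =>
      Finset.mem_image.2 ⟨(i, j), Finset.mem_univ _, rfl⟩⟩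
  have hc1 : ∀ μ : ℂ, conj μ = 1 ↔ μ = 1 := by
    intro μ
    constructor
    · intro h
      have := congrArg conj h
      rwa [Complex.conj_conj, map_one] at this
    · rintro rfl
      exact map_one _
  obtain ⟨q0, hq0⟩ := real_interp (fun μ => if μ = 1 then 1 else 0) (by
    intro μ
    simp only [hc1]
    split_ifs <;> simp) S
  obtain ⟨q1, hq1⟩ := real_interp (fun μ => if ‖μ‖ < 1 then 1 else 0) (by
    intro μ
    simp only [Complex.norm_conj]
    split_ifs <;> simp) S
  obtain ⟨q2, hq2⟩ := real_interp (fun μ => if 1 < ‖μ‖ then 1 else 0) (by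
    intro μ
    simp only [Complex.norm_conj]
    split_ifs <;> simp) S
  obtain ⟨q3, hq3⟩ := real_interp (fun μ => if ‖μ‖ = 1 ∧ μ ≠ 1 then (1 - μ)⁻¹ else 0) (by
    intro μ
    simp only [Complex.norm_conj, ne_eq, hc1]
    split_ifs <;> simp) S
  obtain ⟨L, hL⟩ : ∃ L, L = adL hD h := ⟨_, rfl⟩
  rw [← hL]
  refine ⟨aeval L.toLinearMap q0 X, aeval L.toLinearMap q1 X, aeval L.toLinearMap q2 X,
    aeval L.toLinearMap q3 X, ?_, ?_, ?_, ?_, ?_⟩
  · apply Subtype.ext
    apply he
    apply co_inj P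
    intro i j
    have e' : ∀ Y Z : lieAlg D hD, co P (e ((Y - Z : lieAlg D hD) : A)) i j =
        co P (e (Y : A)) i j - co P (e (Z : A)) i j := by
      intro Y Z
      have h1 := co_add P (e ((Y - Z : lieAlg D hD) : A)) (e (Z : A)) i j
      rw [← map_add, ← Submodule.coe_add, sub_add_cancel] at h1
      rw [h1, add_sub_cancel_right]
    rw [Submodule.coe_add, Submodule.coe_add, Submodule.coe_add, map_add, map_add, map_add,
      co_add, co_add, co_add, e', hL,
      co_ad H, co_poly H, co_poly H, co_poly H, co_poly H, hq0 _ (hS i j), hq1 _ (hS i j),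
      hq2 _ (hS i j), hq3 _ (hS i j)]
    obtain ⟨μ, hμ⟩ : ∃ μ, μ = lam i / lam j := ⟨_, rfl⟩
    rw [← hμ]
    rcases lt_trichotomy ‖μ‖ 1 with h1 | h1 | h1
    · have n1 : μ ≠ 1 := by rintro rfl; rw [norm_one] at h1; exact lt_irrefl _ h1
      rw [if_neg n1, if_pos h1, if_neg (not_lt.2 h1.le), if_neg (fun h => h1.ne h.1)]
      ring
    · by_cases n1 : μ = 1
      · rw [if_pos n1, if_neg h1.not_lt, if_neg h1.not_gt, if_neg (fun h => h.2 n1)]
        ring
      · have n2 : 1 - μ ≠ 0 := sub_ne_zero.2 (Ne.symm n1)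
        rw [if_neg n1, if_neg h1.not_lt, if_neg h1.not_gt, if_pos ⟨h1, n1⟩]
        field_simp
        ring
    · have n1 : μ ≠ 1 := by rintro rfl; rw [norm_one] at h1; exact lt_irrefl _ h1
      rw [if_neg n1, if_neg (not_lt.2 h1.le), if_pos h1, if_neg (fun h => h1.ne' h.1)]
      ring
  · apply Subtype.ext
    apply he
    apply co_inj P
    intro i j
    rw [hL, co_ad H, co_poly H, hq0 _ (hS i j)]
    split_ifs with h1
    · rw [h1, one_mul]
    · simp
  · apply tendsto_co he P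
    intro i j
    simp only [hL, co_iter H, co_poly H, hq1 _ (hS i j)]
    split_ifs with h1
    · have := (tendsto_pow_atTop_nhds_zero_of_norm_lt_one h1).mul_const
        (1 * co P (e (X : A)) i j)
      rwa [zero_mul] at this
    · simp
  · apply tendsto_co he P
    intro i j
    simp only [hL, co_iter_symm H, co_poly H, hq2 _ (hS i j)]
    split_ifs with h1
    · have h2 : ‖(lam i / lam j)⁻¹‖ < 1 := by
        rw [norm_inv]
        exact inv_lt_one_of_one_lt₀ h1
      have := (tendsto_pow_atTop_nhds_zero_of_norm_lt_one h2).mul_const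
        (1 * co P (e (X : A)) i j)
      rwa [zero_mul] at this
    · simp
  · intro i j hij
    rw [hL, co_poly H, hq3 _ (hS i j), if_neg hij, zero_mul]

/-- **The criterion.** Conjugation by a diagonalizable matrix is semisimple; it is hyperbolic modulo its
fixed points if eigenvalues of the same modulus are equal. -/
theorem criterion (he : Function.Injective e) (H : DiagBy (e ((h : Aˣ) : A)) P lam) :
    SemiMod D hD (MulAut.conj h).toMonoidHom ∧
      ((∀ i j, ‖lam i‖ = ‖lam j‖ → lam i = lam j) → HypMod D hD (MulAut.conj h).toMonoidHom) := by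
  have hne := diag_ne (mul_one' h) H
  refine ⟨⟨adL hD h, adL_exp h, fun X => ?_⟩, fun hlam => ⟨adL hD h, adL_exp h, fun X => ?_⟩⟩
  · obtain ⟨X₀, X₁, X₂, X₃, e1, h0, h1, h2, h3⟩ := decomp (hD := hD) he H X
    refine ⟨X₀, X₁, X₂, X₃, e1, h0, h1, h2, ?_⟩
    obtain ⟨K, hK, hKY⟩ := co_norm he P
    refine ⟨K * ∑ i, ∑ j, ‖co P (e (X₃ : A)) i j‖, fun k => ⟨?_, ?_⟩⟩
    · refine (hKY (((adL hD h)^[k] X₃ : lieAlg D hD) : A)).trans ?_
      refine mul_le_mul_of_nonneg_left ?_ hK
      refine Finset.sum_le_sum fun i _ => Finset.sum_le_sum fun j _ => ?_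
      rw [co_iter H, norm_mul]
      by_cases hij : ‖lam i / lam j‖ = 1 ∧ lam i / lam j ≠ 1
      · rw [norm_pow, hij.1, one_pow, one_mul]
      · rw [h3 i j hij, norm_zero, mul_zero]
    · refine (hKY (((adL hD h).symm^[k] X₃ : lieAlg D hD) : A)).trans ?_
      refine mul_le_mul_of_nonneg_left ?_ hK
      refine Finset.sum_le_sum fun i _ => Finset.sum_le_sum fun j _ => ?_
      rw [co_iter_symm H, norm_mul]
      by_cases hij : ‖lam i / lam j‖ = 1 ∧ lam i / lam j ≠ 1
      · rw [norm_pow, norm_inv, hij.1, inv_one, one_pow, one_mul]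
      · rw [h3 i j hij, norm_zero, mul_zero]
  · obtain ⟨X₀, X₁, X₂, X₃, e1, h0, h1, h2, h3⟩ := decomp (hD := hD) he H X
    have h4 : X₃ = 0 := by
      apply Subtype.ext
      apply he
      apply co_inj P
      intro i j
      rw [h3 i j]
      · simp [co]
      · rintro ⟨h1, h2⟩
        rw [norm_div, div_eq_one_iff_eq (norm_ne_zero_iff.2 (hne j))] at h1
        apply h2
        rw [hlam i j h1, div_self (hne j)]
    rw [h4, map_zero, sub_zero, add_zero] at e1
    exact ⟨X₀, X₁, X₂, e1, h0, h1, h2⟩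

/-- Good times for conjugation by a diagonalizable matrix. -/
theorem solvable_times (he : Function.Injective e) (H : DiagBy (e ((h : Aˣ) : A)) P lam)
    {k : ℕ → ℕ} (hk : Tendsto k atTop atTop)
    (hk1 : ∀ i j, ‖lam i / lam j‖ = 1 → Tendsto (fun t => (lam i / lam j) ^ k t) atTop
      (𝓝 (lam i / lam j))) : SolvableAlong D hD (MulAut.conj h).toMonoidHom k := by
  refine ⟨adL hD h, adL_exp h, fun X => ?_⟩
  obtain ⟨X₀, X₁, X₂, X₃, e1, h0, h1, h2, h3⟩ := decomp (hD := hD) he H X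
  have h4 : Tendsto (fun t => (adL hD h)^[k t] X₃) atTop (𝓝 (adL hD h X₃)) := by
    rw [← sub_zero (adL hD h X₃), ← tendsto_sub_nhds_zero_iff, sub_zero]
    apply tendsto_co he P
    intro i j
    have e' : ∀ Y Z : lieAlg D hD, co P (e ((Y - Z : lieAlg D hD) : A)) i j =
        co P (e (Y : A)) i j - co P (e (Z : A)) i j := by
      intro Y Z
      have h1 := co_add P (e ((Y - Z : lieAlg D hD) : A)) (e (Z : A)) i j
      rw [← map_add, ← Submodule.coe_add, sub_add_cancel] at h1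
      rw [h1, add_sub_cancel_right]
    simp only [e', co_iter H, co_ad H]
    by_cases hij : ‖lam i / lam j‖ = 1 ∧ lam i / lam j ≠ 1
    · have h5 := ((hk1 i j hij.1).mul_const (co P (e (X₃ : A)) i j)).sub_const
        (lam i / lam j * co P (e (X₃ : A)) i j)
      rwa [sub_self] at h5
    · simp only [h3 i j hij, mul_zero, sub_zero]
      exact tendsto_const_nhds
  refine ⟨X₀, X₁ + X₃, 0 + adL hD h X₃, X₂, 0, ?_, h0, ?_, h2.comp hk⟩
  · rw [zero_add, sub_zero]
    conv_lhs => rw [e1]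
    abel
  · simp only [itadd]
    exact (h1.comp hk).add h4

end matrix

end Pool.Agent.Helper36x.HC
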