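import Pool.Agent.Helper36x.HC.Cor4
import Pool.Agent.Helper36x.HC.Elem

/-!
# The horospherical subgroups of a diagonalizable element generate `SL(d, K)`
-/

set_option autoImplicit false
set_option linter.unusedSectionVars false

open scoped Topology ComplexConjugate
open Filter Set

namespace Pool.Agent.Helper36x.HC

open Matrix Polynomial

section field

variable {K : Type} [Field K] {d : ℕ}

/-- diagonalization from a spanning set of eigenvectors -/
theorem exists_Q (M : Matrix (Fin d) (Fin d) K)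
    (h : ⊤ ≤ Submodule.span K {v : Fin d → K | ∃ c : K, M *ᵥ v = c • v}) :
    ∃ (Q Q' : Matrix (Fin d) (Fin d) K) (c : Fin d → K), Q * Q' = 1 ∧ Q' * Q = 1 ∧
      M * Q = Q * Matrix.diagonal c := by
  let b0 := Module.Basis.ofSpan h
  let b := b0.reindex (b0.indexEquiv (Pi.basisFun K (Fin d)))
  have hb : ∀ i, ∃ c : K, M *ᵥ (b i) = c • b i := by
    intro i
    have h1 : b i ∈ Set.range b0 := by
      rw [Module.Basis.reindex_apply]
      exact ⟨_, rfl⟩
    exact Module.Basis.ofSpan_subset h h1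
  choose c hc using hb
  refine ⟨(Pi.basisFun K (Fin d)).toMatrix b, b.toMatrix (Pi.basisFun K (Fin d)), c,
    Module.Basis.toMatrix_mul_toMatrix_flip _ _, Module.Basis.toMatrix_mul_toMatrix_flip _ _, ?_⟩
  ext i j
  have h1 := congrFun (hc j) i
  rw [Matrix.mul_diagonal]
  rw [Matrix.mul_apply]
  have h2 : (M *ᵥ (b j)) i = ∑ l, M i l * b j l := rfl
  rw [h2] at h1
  simp only [Module.Basis.toMatrix_apply, Pi.basisFun_repr]
  rw [h1, Pi.smul_apply, smul_eq_mul, mul_comm]

theorem diag_single (c : Fin d → K) (i j : Fin d) (t : K) :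
    Matrix.diagonal c * Matrix.single i j t = Matrix.single i j (c i * t) := by
  ext a b
  rw [Matrix.diagonal_mul, Matrix.single_apply, Matrix.single_apply]
  split_ifs with h
  · rw [h.1]
  · rw [mul_zero]

theorem single_diag (c : Fin d → K) (i j : Fin d) (t : K) :
    Matrix.single i j t * Matrix.diagonal c = Matrix.single i j (t * c j) := by
  ext a b
  rw [Matrix.mul_diagonal, Matrix.single_apply, Matrix.single_apply]
  split_ifs with h
  · rw [h.2]
  · rw [zero_mul]

/-- a set of matrices closed under products and containing the transvections contains all matrices of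
determinant one -/
theorem det_one_mem (S : Set (Matrix (Fin d) (Fin d) K)) (h1 : 1 ∈ S)
    (hmul : ∀ M ∈ S, ∀ M' ∈ S, M * M' ∈ S) (ht : ∀ i j, i ≠ j → ∀ t : K, transvection i j t ∈ S)
    (M : Matrix (Fin d) (Fin d) K) (hM : M.det = 1) : M ∈ S := by
  obtain ⟨L, L', D, hD⟩ := Matrix.Pivot.exists_list_transvec_mul_diagonal_mul_list_transvec M
  have hL : ∀ L : List (TransvectionStruct (Fin d) K),
      (L.map TransvectionStruct.toMatrix).prod ∈ S := by
    intro L
    induction L with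
    | nil => exact h1
    | cons a L ih =>
      rw [List.map_cons, List.prod_cons]
      exact hmul _ (ht _ _ a.hij _) _ ih
  have hd : ∏ i, D i = 1 := by
    have := hM
    rw [hD, Matrix.det_mul, Matrix.det_mul, TransvectionStruct.det_toMatrix_prod,
      TransvectionStruct.det_toMatrix_prod, one_mul, mul_one, Matrix.det_diagonal] at this
    exact this
  rw [hD]
  exact hmul _ (hmul _ (hL L) _ (diag_mem S h1 hmul ht D hd)) _ (hL L')

end field

section diag

variable {d : ℕ}

theorem DiagBy.aeval {X : MC d} {P : (MC d)ˣ} {lam : Fin d → ℂ} (H : DiagBy X P lam) (q : ℝ[X])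
    (i j : Fin d) : co P (Polynomial.aeval X q) i j =
      Matrix.diagonal (fun i => Polynomial.aeval (lam i) q) i j := by
  induction q using Polynomial.induction_on' with
  | add p q hp hq =>
    rw [map_add, co_add, hp, hq]
    by_cases hij : i = j
    · subst hij
      simp
    · simp [Matrix.diagonal_apply_ne _ hij]
  | monomial k c =>
    rw [aeval_monomial]
    have e1 : (algebraMap ℝ (MC d)) c * X ^ k = c • X ^ k := by
      rw [Algebra.smul_def]
    rw [e1, co_smul, co_pow H]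
    by_cases hij : i = j
    · subst hij
      simp [aeval_monomial]
    · simp [Matrix.diagonal_apply_ne _ hij]

theorem co_mul (P : (MC d)ˣ) (Y Z : MC d) (i j : Fin d) :
    co P (Y * Z) i j = ∑ l, co P Y i l * co P Z l j := by
  unfold co
  have : ((P⁻¹ : (MC d)ˣ) : MC d) * (Y * Z) * (P : MC d) =
      (((P⁻¹ : (MC d)ˣ) : MC d) * Y * (P : MC d)) * (((P⁻¹ : (MC d)ˣ) : MC d) * Z * (P : MC d)) := by
    calc _ = ((P⁻¹ : (MC d)ˣ) : MC d) * Y * ((P : MC d) * ((P⁻¹ : (MC d)ˣ) : MC d)) * Z * (P : MC d) := by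
          rw [Units.mul_inv, mul_one]; simp only [mul_assoc]
      _ = _ := by simp only [mul_assoc]
  rw [this, Matrix.mul_apply]

end diag

section sl

variable {A : Type} [NormedRing A] [NormedAlgebra ℝ A] [FiniteDimensional ℝ A] [CompleteSpace A]
  {K : Type} [Field K] [Algebra ℝ K] {d : ℕ}

theorem repC_apply (ι : K →ₐ[ℝ] ℂ) (E : A ≃ₐ[ℝ] Matrix (Fin d) (Fin d) K) (a : A) :
    repC ι E a = (E a).map ι := rfl

theorem map_inj (ι : K →ₐ[ℝ] ℂ) {X Y : Matrix (Fin d) (Fin d) K}
    (h : ι.mapMatrix X = ι.mapMatrix Y) : X = Y := by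
  ext i j
  have := congrFun (congrFun h i) j
  exact ι.toRingHom.injective this

theorem repC_inj (ι : K →ₐ[ℝ] ℂ) (E : A ≃ₐ[ℝ] Matrix (Fin d) (Fin d) K) :
    Function.Injective (repC ι E) := fun _ _ h => E.injective (map_inj ι h)

variable {ι : K →ₐ[ℝ] ℂ} {E : A ≃ₐ[ℝ] Matrix (Fin d) (Fin d) K}

/-- an element of `SL(d, K)` -/
theorem mk_sl (X X' : Matrix (Fin d) (Fin d) K) (h1 : X * X' = 1) (h2 : X' * X = 1)
    (hd : X.det = 1) : ∃ g : SLsub E, E ((g : Aˣ) : A) = X ∧ E ((((g : Aˣ)⁻¹ : Aˣ)) : A) = X' := by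
  refine ⟨⟨⟨E.symm X, E.symm X', ?_, ?_⟩, ?_⟩, ?_, ?_⟩
  · rw [← map_mul, h1, map_one]
  · rw [← map_mul, h2, map_one]
  · show (E (E.symm X)).det = 1
    rw [E.apply_symm_apply, hd]
  · exact E.apply_symm_apply X
  · exact E.apply_symm_apply X'

/-- convergence to `1` in `SL(d, K)`, in terms of the coordinates -/
theorem tendsto_one_co (P : (MC d)ˣ) (g : ℕ → SLsub E)
    (hg : ∀ i j, Tendsto (fun k => co P (repC ι E (((g k : Aˣ) : A) - 1)) i j) atTop (𝓝 0)) :
    Tendsto g atTop (𝓝 1) := by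
  obtain ⟨C, hC, hCY⟩ := co_norm (repC_inj ι E) P
  rw [tendsto_subtype_rng]
  have hemb := Units.isOpenEmbedding_val (R := A)
  rw [hemb.isInducing.nhds_eq_comap, tendsto_comap_iff]
  show Tendsto (fun k => ((g k : Aˣ) : A)) atTop (𝓝 (((1 : SLsub E) : Aˣ) : A))
  have e1 : ((((1 : SLsub E) : Aˣ)) : A) = 1 := rfl
  rw [e1, tendsto_iff_norm_sub_tendsto_zero]
  refine squeeze_zero (fun k => norm_nonneg _) (fun k => hCY _) ?_
  have h1 : Tendsto (fun k => ∑ i, ∑ j, ‖co P (repC ι E (((g k : Aˣ) : A) - 1)) i j‖) atTop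
      (𝓝 (∑ i : Fin d, ∑ j : Fin d, (0 : ℝ))) := by
    refine tendsto_finsetSum _ fun i _ => tendsto_finsetSum _ fun j _ => ?_
    have := (hg i j).norm
    rwa [norm_zero] at this
  have h2 := h1.const_mul C
  simp only [Finset.sum_const_zero, mul_zero] at h2
  exact h2

/-- coordinates of the conjugates -/
theorem co_conj_pow {h : SLsub E} {P : (MC d)ˣ} {lam : Fin d → ℂ}
    (H : DiagBy (repC ι E ((h : Aˣ) : A)) P lam) (Y : A) (k : ℕ) (i j : Fin d) :
    co P (repC ι E ((((h : Aˣ) ^ k : Aˣ) : A) * Y * ((((h : Aˣ) ^ k)⁻¹ : Aˣ) : A))) i j =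
      (lam i / lam j) ^ k * co P (repC ι E Y) i j := by
  induction k with
  | zero => simp
  | succ k ih =>
    have e1 : (((h : Aˣ) ^ (k + 1) : Aˣ) : A) * Y * ((((h : Aˣ) ^ (k + 1))⁻¹ : Aˣ) : A) =
        ((h : Aˣ) : A) * ((((h : Aˣ) ^ k : Aˣ) : A) * Y * ((((h : Aˣ) ^ k)⁻¹ : Aˣ) : A)) *
          ((((h : Aˣ)⁻¹ : Aˣ)) : A) := by
      rw [pow_succ', _root_.mul_inv_rev, Units.val_mul, Units.val_mul]
      simp only [mul_assoc]
    rw [e1, map_mul, map_mul, co_conj (mul_one' h) H, ih, pow_succ]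
    ring

theorem co_conj_pow' {h : SLsub E} {P : (MC d)ˣ} {lam : Fin d → ℂ}
    (H : DiagBy (repC ι E ((h : Aˣ) : A)) P lam) (Y : A) (k : ℕ) (i j : Fin d) :
    co P (repC ι E (((((h : Aˣ) ^ k)⁻¹ : Aˣ) : A) * Y * (((h : Aˣ) ^ k : Aˣ) : A))) i j =
      (lam j / lam i) ^ k * co P (repC ι E Y) i j := by
  have hne := diag_ne (mul_one' h) H
  have h1 := co_conj_pow H (((((h : Aˣ) ^ k)⁻¹ : Aˣ) : A) * Y * (((h : Aˣ) ^ k : Aˣ) : A)) k i j
  have e1 : (((h : Aˣ) ^ k : Aˣ) : A) * (((((h : Aˣ) ^ k)⁻¹ : Aˣ) : A) * Y *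
      (((h : Aˣ) ^ k : Aˣ) : A)) * ((((h : Aˣ) ^ k)⁻¹ : Aˣ) : A) = Y := by
    calc _ = ((((h : Aˣ) ^ k : Aˣ) : A) * ((((h : Aˣ) ^ k)⁻¹ : Aˣ) : A)) * Y *
          ((((h : Aˣ) ^ k : Aˣ) : A) * ((((h : Aˣ) ^ k)⁻¹ : Aˣ) : A)) := by
          simp only [mul_assoc]
      _ = Y := by rw [Units.mul_inv, one_mul, mul_one]
  rw [e1] at h1
  rw [h1, ← mul_assoc, ← mul_pow]
  have e2 : lam j / lam i * (lam i / lam j) = 1 := by
    rw [div_mul_div_comm, mul_comm, div_self (mul_ne_zero (hne i) (hne j))]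
  rw [e2, one_pow, one_mul]

/-- elements of `SL(d, K)` of the form `1 + Y`, with `Y` contracted by `h` -/
theorem mem_horo {h : SLsub E} {P : (MC d)ˣ} {lam : Fin d → ℂ}
    (H : DiagBy (repC ι E ((h : Aˣ) : A)) P lam) (g : SLsub E) (r s : ℝ) (hrs : r ≠ s)
    (hg : ∀ a b, co P (repC ι E (((g : Aˣ) : A) - 1)) a b ≠ 0 → ‖lam a‖ = r ∧ ‖lam b‖ = s) :
    g ∈ Horo h := by
  have hne := diag_ne (mul_one' h) H
  rcases lt_or_gt_of_ne hrs with hlt | hlt
  · left
    apply tendsto_one_co (ι := ι) P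
    intro a b
    have e1 : ∀ k : ℕ, ((((h ^ k * g * (h ^ k)⁻¹ : SLsub E)) : Aˣ) : A) - 1 =
        (((h : Aˣ) ^ k : Aˣ) : A) * (((g : Aˣ) : A) - 1) * ((((h : Aˣ) ^ k)⁻¹ : Aˣ) : A) := by
      intro k
      rw [mul_sub, sub_mul, mul_one, Units.mul_inv]
      rfl
    simp only [e1, co_conj_pow H]
    by_cases h0 : co P (repC ι E (((g : Aˣ) : A) - 1)) a b = 0
    · rw [h0]
      simp
    · obtain ⟨h1, h2⟩ := hg a b h0
      have h3 : ‖lam a / lam b‖ < 1 := by
        rw [norm_div, h1, h2]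
        have hs' : 0 < s := by
          rw [← h2]
          exact norm_pos_iff.2 (hne b)
        rwa [div_lt_one hs']
      have := (tendsto_pow_atTop_nhds_zero_of_norm_lt_one h3).mul_const
        (co P (repC ι E (((g : Aˣ) : A) - 1)) a b)
      rwa [zero_mul] at this
  · right
    apply tendsto_one_co (ι := ι) P
    intro a b
    have e1 : ∀ k : ℕ, (((((h ^ k)⁻¹ * g * h ^ k : SLsub E)) : Aˣ) : A) - 1 =
        ((((h : Aˣ) ^ k)⁻¹ : Aˣ) : A) * (((g : Aˣ) : A) - 1) * (((h : Aˣ) ^ k : Aˣ) : A) := by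
      intro k
      rw [mul_sub, sub_mul, mul_one, Units.inv_mul]
      rfl
    simp only [e1, co_conj_pow' H]
    by_cases h0 : co P (repC ι E (((g : Aˣ) : A) - 1)) a b = 0
    · rw [h0]
      simp
    · obtain ⟨h1, h2⟩ := hg a b h0
      have h3 : ‖lam b / lam a‖ < 1 := by
        rw [norm_div, h1, h2]
        have hs' : 0 < r := by
          rw [← h1]
          exact norm_pos_iff.2 (hne a)
        rwa [div_lt_one hs']
      have := (tendsto_pow_atTop_nhds_zero_of_norm_lt_one h3).mul_const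
        (co P (repC ι E (((g : Aˣ) : A) - 1)) a b)
      rwa [zero_mul] at this

theorem ofReal_norm_inj {x : ℝ} {c : ℂ} (hx : 0 ≤ x) (h : (x : ℂ) = c) : x = ‖c‖ := by
  rw [← h, Complex.norm_real, Real.norm_of_nonneg hx]

/-- **Generation.** If `h ∈ SL(d, K)` is diagonalizable over `ℂ` and has eigenvalues of different
moduli, then it is a product of elements of its horospherical subgroups. -/
theorem sl_horo {h : SLsub E} {P : (MC d)ˣ} {lam : Fin d → ℂ}
    (H : DiagBy (repC ι E ((h : Aˣ) : A)) P lam) {i₀ j₀ : Fin d} (hij : ‖lam i₀‖ ≠ ‖lam j₀‖) :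
    h ∈ Subgroup.closure (Horo h) := by
  classical
  have hc1 : ∀ μ : ℂ, ‖conj μ‖ = ‖μ‖ := fun μ => Complex.norm_conj μ
  obtain ⟨S, hS⟩ : ∃ S : Finset ℂ, ∀ i, lam i ∈ S :=
    ⟨Finset.univ.image lam, fun i => Finset.mem_image_of_mem _ (Finset.mem_univ i)⟩
  obtain ⟨R, hR⟩ : ∃ R : Finset ℝ, ∀ i, ‖lam i‖ ∈ R :=
    ⟨Finset.univ.image (fun i => ‖lam i‖), fun i => Finset.mem_image_of_mem _ (Finset.mem_univ i)⟩
  obtain ⟨q, hq⟩ := real_interp (fun μ => ((‖μ‖ : ℝ) : ℂ)) (by
    intro μ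
    rw [hc1, Complex.conj_ofReal]) S
  have hpi : ∀ a : ℝ, ∃ p : ℝ[X], ∀ μ ∈ S, aeval μ p = if ‖μ‖ = a then (1 : ℂ) else 0 := by
    intro a
    refine real_interp (fun μ => if ‖μ‖ = a then (1 : ℂ) else 0) ?_ S
    intro μ
    simp only [hc1]
    split_ifs <;> simp
  choose p hp using hpi
  obtain ⟨M, hM⟩ : ∃ M, M = aeval (E ((h : Aˣ) : A)) q := ⟨_, rfl⟩
  -- coordinates of polynomials of `h`
  have hco : ∀ (f : ℝ[X]) (i j : Fin d), co P (ι.mapMatrix (aeval (E ((h : Aˣ) : A)) f)) i j =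
      Matrix.diagonal (fun i => aeval (lam i) f) i j := by
    intro f i j
    have e1 : ι.mapMatrix (aeval (E ((h : Aˣ) : A)) f) =
        aeval (repC ι E ((h : Aˣ) : A)) f := (Polynomial.aeval_algHom_apply _ _ _).symm
    rw [e1]
    exact H.aeval f i j
  have hcoM : ∀ (Y : Matrix (Fin d) (Fin d) K) (i j : Fin d),
      co P (ι.mapMatrix (M * Y)) i j = ((‖lam i‖ : ℝ) : ℂ) * co P (ι.mapMatrix Y) i j := by
    intro Y i j
    rw [map_mul, co_mul, Finset.sum_eq_single i]
    · rw [hM, hco, Matrix.diagonal_apply_eq, hq _ (hS i)]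
    · intro l _ hl
      rw [hM, hco, Matrix.diagonal_apply_ne _ (Ne.symm hl), zero_mul]
    · intro h
      exact absurd (Finset.mem_univ _) h
  have hcoM' : ∀ (Y : Matrix (Fin d) (Fin d) K) (i j : Fin d),
      co P (ι.mapMatrix (Y * M)) i j = co P (ι.mapMatrix Y) i j * ((‖lam j‖ : ℝ) : ℂ) := by
    intro Y i j
    rw [map_mul, co_mul, Finset.sum_eq_single j]
    · rw [hM, hco, Matrix.diagonal_apply_eq, hq _ (hS j)]
    · intro l _ hl
      rw [hM, hco, Matrix.diagonal_apply_ne _ hl, mul_zero]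
    · intro h
      exact absurd (Finset.mem_univ _) h
  -- the projections
  have hsum : ∑ a ∈ R, aeval (E ((h : Aˣ) : A)) (p a) = 1 := by
    apply map_inj ι
    apply co_inj P
    intro i j
    rw [← map_sum, hco, map_one]
    have e3 : co P (1 : MC d) i j = (1 : MC d) i j := by
      unfold co
      rw [mul_one, Units.inv_mul]
    rw [e3]
    by_cases hij : i = j
    · subst hij
      rw [Matrix.diagonal_apply_eq, Matrix.one_apply_eq, map_sum]
      rw [Finset.sum_congr rfl fun a _ => hp a _ (hS i)]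
      rw [Finset.sum_ite_eq]
      rw [if_pos (hR i)]
    · rw [Matrix.diagonal_apply_ne _ hij, Matrix.one_apply_ne hij]
  have hMp : ∀ a : ℝ, M * aeval (E ((h : Aˣ) : A)) (p a) = a • aeval (E ((h : Aˣ) : A)) (p a) := by
    intro a
    apply map_inj ι
    apply co_inj P
    intro i j
    rw [hcoM, map_smul, co_smul, hco]
    by_cases hij : i = j
    · subst hij
      rw [Matrix.diagonal_apply_eq, hp a _ (hS i)]
      split_ifs with h1
      · rw [h1]
      · rw [mul_zero, mul_zero]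
    · rw [Matrix.diagonal_apply_ne _ hij, mul_zero, mul_zero]
  have hspan : ⊤ ≤ Submodule.span K {v : Fin d → K | ∃ c : K, M *ᵥ v = c • v} := by
    intro v _
    have e1 : v = ∑ a ∈ R, aeval (E ((h : Aˣ) : A)) (p a) *ᵥ v := by
      rw [← Matrix.sum_mulVec, hsum, Matrix.one_mulVec]
    rw [e1]
    refine Submodule.sum_mem _ fun a _ => Submodule.subset_span ⟨algebraMap ℝ K a, ?_⟩
    rw [Matrix.mulVec_mulVec, hMp, Matrix.smul_mulVec, algebraMap_smul]
  obtain ⟨Q, Q', c, hQ, hQ', hMQ⟩ := exists_Q M hspan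
  have hQM : Q' * M = Matrix.diagonal c * Q' := by
    calc Q' * M = Q' * (M * Q) * Q' := by
          rw [mul_assoc, mul_assoc, hQ, mul_one]
      _ = _ := by rw [hMQ, ← mul_assoc, hQ', one_mul]
  -- the coordinates of the conjugated matrix units
  have hunit : ∀ (i j : Fin d) (t : K) (a b : Fin d),
      co P (ι.mapMatrix (Q * Matrix.single i j t * Q')) a b ≠ 0 →
        ‖lam a‖ = ‖ι (c i)‖ ∧ ‖lam b‖ = ‖ι (c j)‖ := by
    intro i j t a b hne
    have h1 : M * (Q * Matrix.single i j t * Q') = Q * Matrix.single i j (c i * t) * Q' := by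
      rw [← mul_assoc, ← mul_assoc, hMQ, mul_assoc Q, diag_single]
    have h2 : (Q * Matrix.single i j t * Q') * M = Q * Matrix.single i j (t * c j) * Q' := by
      rw [mul_assoc, hQM, ← mul_assoc, mul_assoc Q, single_diag]
    have e0 : ∀ x : K, ι.mapMatrix (Q * Matrix.single i j (x * t) * Q') =
        ι x • ι.mapMatrix (Q * Matrix.single i j t * Q') := by
      intro x
      have : Q * Matrix.single i j (x * t) * Q' = x • (Q * Matrix.single i j t * Q') := by
        have e2 : Matrix.single i j (x * t) = x • Matrix.single i j t := by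
          rw [Matrix.smul_single, smul_eq_mul]
        rw [e2, mul_smul_comm, smul_mul_assoc]
      rw [this]
      ext a b
      exact map_mul ι x _
    have e1 : ∀ (x : ℂ) (Y : MC d), co P (x • Y) a b = x * co P Y a b := by
      intro x Y
      unfold co
      rw [mul_smul_comm, smul_mul_assoc, Matrix.smul_apply, smul_eq_mul]
    have h3 := hcoM (Q * Matrix.single i j t * Q') a b
    rw [h1, e0, e1] at h3
    have h4 := hcoM' (Q * Matrix.single i j t * Q') a b
    rw [h2, mul_comm t, e0, e1, mul_comm (co P _ a b)] at h4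
    exact ⟨ofReal_norm_inj (norm_nonneg _) (mul_right_cancel₀ hne h3).symm,
      ofReal_norm_inj (norm_nonneg _) (mul_right_cancel₀ hne h4).symm⟩
  -- both moduli occur
  have hocc : ∀ a : Fin d, ∃ i, ‖lam a‖ = ‖ι (c i)‖ := by
    intro a
    have h1 : ∑ i, co P (ι.mapMatrix (Q * Matrix.single i i (1 : K) * Q')) a a = 1 := by
      have e1 : ∑ i, Q * Matrix.single i i (1 : K) * Q' = 1 := by
        rw [← Finset.sum_mul, ← Finset.mul_sum, Matrix.sum_single_one, mul_one, hQ]
      have e2 : ∀ s : Finset (Fin d), ∑ i ∈ s, co P (ι.mapMatrix (Q * Matrix.single i i (1 : K) * Q')) a a =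
          co P (ι.mapMatrix (∑ i ∈ s, Q * Matrix.single i i (1 : K) * Q')) a a := by
        intro s
        induction s using Finset.induction_on with
        | empty =>
          rw [Finset.sum_empty, Finset.sum_empty, map_zero]
          simp [co]
        | insert x s hx ih =>
          rw [Finset.sum_insert hx, Finset.sum_insert hx, map_add, co_add, ih]
      rw [e2, e1, map_one]
      unfold co
      rw [mul_one, Units.inv_mul, Matrix.one_apply_eq]
    obtain ⟨i, -, hi⟩ : ∃ i ∈ Finset.univ,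
        co P (ι.mapMatrix (Q * Matrix.single i i (1 : K) * Q')) a a ≠ 0 := by
      apply Finset.exists_ne_zero_of_sum_ne_zero
      rw [h1]
      exact one_ne_zero
    exact ⟨i, (hunit i i 1 a a hi).1⟩
  obtain ⟨i₁, hi₁⟩ := hocc i₀
  obtain ⟨j₁, hj₁⟩ := hocc j₀
  rw [hi₁, hj₁] at hij
  -- the set of matrices
  obtain ⟨S', hS'⟩ : ∃ S' : Set (Matrix (Fin d) (Fin d) K), S' =
      {X | ∃ g ∈ Subgroup.closure (Horo h), E ((g : Aˣ) : A) = Q * X * Q'} := ⟨_, rfl⟩
  have hS1 : (1 : Matrix (Fin d) (Fin d) K) ∈ S' := by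
    rw [hS']
    refine ⟨1, Subgroup.one_mem _, ?_⟩
    rw [mul_one, hQ]
    exact map_one E
  have hSm : ∀ X ∈ S', ∀ X' ∈ S', X * X' ∈ S' := by
    rw [hS']
    rintro X ⟨g, hg, hgX⟩ X' ⟨g', hg', hgX'⟩
    refine ⟨g * g', Subgroup.mul_mem _ hg hg', ?_⟩
    show E (((g : Aˣ) : A) * ((g' : Aˣ) : A)) = _
    rw [map_mul, hgX, hgX']
    calc Q * X * Q' * (Q * X' * Q') = Q * X * (Q' * Q) * X' * Q' := by simp only [mul_assoc]
      _ = _ := by rw [hQ', mul_one]; simp only [mul_assoc]
  have hSt1 : ∀ i j, i ≠ j → ‖ι (c i)‖ ≠ ‖ι (c j)‖ → ∀ t : K, transvection i j t ∈ S' := by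
    intro i j hij hc t
    rw [hS']
    have hinv : ∀ t : K, Q * transvection i j t * Q' * (Q * transvection i j (-t) * Q') = 1 := by
      intro t
      calc _ = Q * transvection i j t * (Q' * Q) * transvection i j (-t) * Q' := by
            simp only [mul_assoc]
        _ = Q * (transvection i j t * transvection i j (-t)) * Q' := by
            rw [hQ', mul_one]; simp only [mul_assoc]
        _ = 1 := by
            rw [transvection_mul_transvection_same i j hij, add_neg_cancel, transvection_zero,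
              mul_one, hQ]
    obtain ⟨g, hg, hg'⟩ := mk_sl (E := E) (Q * transvection i j t * Q')
      (Q * transvection i j (-t) * Q') (hinv t) (by
        have := hinv (-t)
        rwa [neg_neg] at this) (by
        rw [Matrix.det_mul, Matrix.det_mul, det_transvection_of_ne i j hij, mul_one,
          ← Matrix.det_mul, hQ, Matrix.det_one])
    refine ⟨g, Subgroup.subset_closure ?_, hg⟩
    refine mem_horo H g _ _ hc fun a b hab => ?_
    apply hunit i j t a b
    have e1 : repC ι E (((g : Aˣ) : A) - 1) = ι.mapMatrix (Q * Matrix.single i j t * Q') := by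
      show ι.mapMatrix (E (((g : Aˣ) : A) - 1)) = _
      rw [map_sub, map_one, hg, transvection, mul_add, add_mul, mul_one, hQ, add_sub_cancel_left]
    rwa [e1] at hab
  have hSt : ∀ i j, i ≠ j → ∀ t : K, transvection i j t ∈ S' := by
    intro i j hij' t
    by_cases hc : ‖ι (c i)‖ = ‖ι (c j)‖
    · obtain ⟨k, hk⟩ : ∃ k, ‖ι (c i)‖ ≠ ‖ι (c k)‖ := by
        by_contra hcon
        push Not at hcon
        exact hij ((hcon i₁).symm.trans (hcon j₁))
      have hik : i ≠ k := by
        rintro rfl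
        exact hk rfl
      have hkj : k ≠ j := by
        rintro rfl
        exact hk hc
      rw [← transvection_comm hik hkj hij' t]
      have hkj' : ‖ι (c k)‖ ≠ ‖ι (c j)‖ := by
        rw [← hc]
        exact Ne.symm hk
      exact hSm _ (hSm _ (hSt1 i k hik hk 1) _ (hSt1 k j hkj hkj' t)) _
        (hSm _ (hSt1 i k hik hk (-1)) _ (hSt1 k j hkj hkj' (-t)))
    · exact hSt1 i j hij' hc t
  have hX : Q' * E ((h : Aˣ) : A) * Q ∈ S' := by
    apply det_one_mem S' hS1 hSm hSt
    rw [Matrix.det_mul, Matrix.det_mul, show (E ((h : Aˣ) : A)).det = 1 from h.2, mul_one,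
      ← Matrix.det_mul, hQ', Matrix.det_one]
  rw [hS'] at hX
  obtain ⟨g, hg, hgX⟩ := hX
  have hgh : E ((g : Aˣ) : A) = E ((h : Aˣ) : A) := by
    rw [hgX]
    calc Q * (Q' * E ((h : Aˣ) : A) * Q) * Q' = (Q * Q') * E ((h : Aˣ) : A) * (Q * Q') := by
          simp only [mul_assoc]
      _ = _ := by rw [hQ, one_mul, mul_one]
  have : g = h := by
    apply Subtype.ext
    apply Units.ext
    exact E.injective hgh
  rwa [this] at hg

theorem det_repC (a : A) : (repC ι E a).det = ι (E a).det := by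
  show (ι.mapMatrix (E a)).det = _
  exact (RingHom.map_det ι.toRingHom (E a)).symm

/-- `SL(d, K)` is closed. -/
theorem isClosed_SLsub (ι : K →ₐ[ℝ] ℂ) (E : A ≃ₐ[ℝ] Matrix (Fin d) (Fin d) K) :
    IsClosed (SLsub E : Set Aˣ) := by
  have h1 : Continuous (fun u : Aˣ => (repC ι E (u : A)).det) := by
    have h2 : Continuous (repC ι E) :=
      (repC ι E).toLinearMap.continuous_of_finiteDimensional
    exact (h2.comp Units.continuous_val).matrix_det
  have h3 : (SLsub E : Set Aˣ) = {u : Aˣ | (repC ι E (u : A)).det = 1} := by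
    ext u
    show (E (u : A)).det = 1 ↔ (repC ι E (u : A)).det = 1
    rw [det_repC, map_eq_one_iff ι ι.toRingHom.injective]
  rw [h3]
  exact isClosed_eq h1 continuous_const

/-- Elements of `SL(d, K)` which are diagonalizable over `ℂ` are good. -/
theorem sl_good {N : Type*} [TopologicalSpace N] [T2Space N] [MeasurableSpace N] [BorelSpace N]
    {act : SLsub E → N → N} {μ : MeasureTheory.Measure N} [MeasureTheory.IsFiniteMeasure μ]
    [μ.InnerRegularCompactLTTop] (Hact : MPAct act μ) {h : SLsub E} {P : (MC d)ˣ}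
    {lam : Fin d → ℂ} (H : DiagBy (repC ι E ((h : Aˣ) : A)) P lam) :
    GoodElt act μ (repC ι E) h := by
  refine ⟨P, lam, H, Or.inr ?_⟩
  by_cases hij : ∃ i j, ‖lam i‖ ≠ ‖lam j‖
  · obtain ⟨i, j, hij⟩ := hij
    exact Or.inl (horoInv_of_closure Hact (subset_closure (sl_horo H hij)))
  · right
    push Not at hij
    have h1 : ∏ i, lam i = 1 := by
      have h2 : (repC ι E ((h : Aˣ) : A)).det = 1 := by
        rw [det_repC, show (E ((h : Aˣ) : A)).det = 1 from h.2, map_one]
      rw [show repC ι E ((h : Aˣ) : A) = _ from H, Matrix.det_mul, Matrix.det_mul,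
        mul_comm, ← mul_assoc, ← Matrix.det_mul, Units.inv_mul, Matrix.det_one, one_mul,
        Matrix.det_diagonal] at h2
      exact h2
    intro i
    have h3 : ‖lam i‖ ^ d = 1 := by
      have h4 := congrArg norm h1
      rw [norm_prod, norm_one, Finset.prod_congr rfl (fun j _ => hij j i), Finset.prod_const,
        Finset.card_univ, Fintype.card_fin] at h4
      exact h4
    have hd : d ≠ 0 := by
      rintro rfl
      exact i.elim0
    exact (pow_eq_one_iff_of_nonneg (norm_nonneg _) hd).1 h3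

end sl

end Pool.Agent.Helper36x.HC
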